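import Pool.Agent.Helper19.ND.Defs

/-!
# ND-20: the `x`-coordinates of `P + Q` and `P - Q`

`sym2x P Q = ![x(P) x(Q), x(P) + x(Q), 1]` for affine points, `![x, 1, 0]` if one is `0`,
`![1, 0, 0]` if both are.
PROOF. Cases.
* `P = Q = 0`: `adds ![1,0,0] = ![1, 0, 0]`. * one is `0`, the other `(x, y)`: `P + Q`, `P - Q` are
  `± (x, y)`, `sym2x = ![x², 2x, 1]`, `adds ![x, 1, 0] = ![x², 2x, 1]`.
* `P = Q = (x, y)` or `P = -Q`: one of `P ± Q` is `0`, the other `± 2P`. `y = 0`: `2P = 0`,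
  `sym2x = ![1,0,0]`; `adds ![x², 2x, 1] = ![x⁴ - 2a x² - 8b x + a², 4x³ + 4a x + 4b, 0]`, the middle
  entry is `4 y² = 0`, the first is `f'(x)² - 8 x f(x) = f'(x)² ≠ 0`. `y ≠ 0`: `x(2P) = M² - 2x`,
  `M = (3x²+a)/(2y)`, `4 y² x(2P) = (3x²+a)² - 8 x y² = x⁴ - 2a x² - 8b x + a²`: `c = 4 y²`.
* `x₁ ≠ x₂`: slopes `(y₁ ∓ y₂)/(x₁ - x₂)`, `x(P ± Q) = slope² - x₁ - x₂`, `c = (x₁ - x₂)²`: with
  `y₁² = f(x₁)`, `y₂² = f(x₂)` the sum is
  `(2(x₁x₂ + a)(x₁ + x₂) + 4b)/(x₁ - x₂)²`, the product `((x₁x₂ - a)² - 4b(x₁ + x₂))/(x₁ - x₂)²`.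
-/

set_option autoImplicit false

open WeierstrassCurve WeierstrassCurve.Affine

namespace Pool.Agent.Helper19.ND

/-- the addition-subtraction map for `y² = x³ + a x + b` -/
def adds {R : Type*} [CommRing R] (a b : R) (v : Fin 3 → R) : Fin 3 → R :=
  ![v 0 ^ 2 - 2 * a * v 0 * v 2 - 4 * b * v 1 * v 2 + a ^ 2 * v 2 ^ 2,
    2 * v 1 * v 0 + 2 * a * v 1 * v 2 + 4 * b * v 2 ^ 2,
    v 1 ^ 2 - 4 * v 0 * v 2]

private theorem vec_ext {v w : Fin 3 → ℂ} (h0 : v 0 = w 0) (h1 : v 1 = w 1) (h2 : v 2 = w 2) :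
    v = w := by
  funext i
  fin_cases i
  · exact h0
  · exact h1
  · exact h2

private theorem adds_zero (a b : ℂ) : adds a b ![1, 0, 0] = (1 : ℂ) • ![1, 0, 0] := by
  apply vec_ext <;> simp [adds]

private theorem adds_one (a b x : ℂ) :
    adds a b ![x, 1, 0] = (1 : ℂ) • ![x * x, x + x, 1] := by
  apply vec_ext <;> simp [adds] <;> ring

/-- the equation of the curve -/
private theorem eqn {a b x y : ℂ} (h : (EC a b).Nonsingular x y) :
    y ^ 2 = x ^ 3 + a * x + b := by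
  have := (Affine.equation_iff _ _).1 h.1
  simp only at this
  linear_combination this

/-- doubling -/
private theorem dbl {a b x y : ℂ} (h : (EC a b).Nonsingular x y) :
    ∃ c : ℂ, c ≠ 0 ∧ adds a b ![x * x, x + x, 1] =
      c • Point.sym2x (Point.some x y h + Point.some x y h) 0 := by
  have he := eqn h
  by_cases hy : y = 0
  · have h2 : Point.some x y h + Point.some x y h = 0 := by
      refine Point.add_self_of_Y_eq ?_
      simp [negY, hy]
    have h3 := (Affine.nonsingular_iff _ _).1 h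
    have h4 : 3 * x ^ 2 + a ≠ 0 := by
      intro h5
      have h6 := h3.2
      simp only [hy] at h6
      rcases h6 with h6 | h6
      · apply h6
        linear_combination -h5
      · apply h6
        ring
    refine ⟨(3 * x ^ 2 + a) ^ 2, pow_ne_zero 2 h4, ?_⟩
    rw [h2, Point.sym2x_zero_zero]
    have h7 : x ^ 3 + a * x + b = 0 := by
      rw [← he, hy]
      ring
    apply vec_ext
    · simp [adds]
      linear_combination (-8 * x) * h7
    · simp [adds]
      linear_combination 4 * h7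
    · simp [adds]
      ring
  · have h2 : y ≠ (EC a b).negY x y := by
      intro h3
      apply hy
      simp only [negY] at h3
      linear_combination h3 / 2
    have hs : (EC a b).slope x x y y = (3 * x ^ 2 + a) / (2 * y) := by
      rw [slope_of_Y_ne rfl h2]
      simp only [negY]
      congr 1 <;> ring
    refine ⟨4 * y ^ 2, mul_ne_zero (by norm_num) (pow_ne_zero 2 hy), ?_⟩
    rw [Point.add_self_of_Y_ne h2, Point.sym2x_some_zero, hs]
    apply vec_ext
    · simp [adds, addX]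
      field_simp
      linear_combination (32 * x) * he
    · simp [adds]
      linear_combination (-4) * he
    · simp [adds]
      ring

/-- the general case -/
private theorem gen {a b x₁ y₁ x₂ y₂ : ℂ} (h₁ : (EC a b).Nonsingular x₁ y₁)
    (h₂ : (EC a b).Nonsingular x₂ y₂) (hx : x₁ ≠ x₂) :
    ∃ c : ℂ, c ≠ 0 ∧ adds a b ![x₁ * x₂, x₁ + x₂, 1] =
      c • Point.sym2x (Point.some x₁ y₁ h₁ + Point.some x₂ y₂ h₂)
        (Point.some x₁ y₁ h₁ - Point.some x₂ y₂ h₂) := by
  have e1 := eqn h₁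
  have e2 := eqn h₂
  have hd : x₁ - x₂ ≠ 0 := sub_ne_zero.2 hx
  refine ⟨(x₁ - x₂) ^ 2, pow_ne_zero 2 hd, ?_⟩
  have hsub : Point.some x₁ y₁ h₁ - Point.some x₂ y₂ h₂ =
      Point.some x₁ y₁ h₁ + Point.some _ _ ((nonsingular_neg ..).mpr h₂) := by
    rw [← Point.neg_some, sub_eq_add_neg]
  rw [hsub, Point.add_of_X_ne hx, Point.add_of_X_ne hx,
    Point.sym2x_some_some, slope_of_X_ne hx, slope_of_X_ne hx]
  apply vec_ext
  · simp [adds, addX, negY]
    field_simp
    linear_combination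
      (-(y₁ ^ 2 + (x₁ ^ 3 + a * x₁ + b) - 2 * y₂ ^ 2 - 2 * (x₁ + x₂) * (x₁ - x₂) ^ 2)) * e1 -
      (y₂ ^ 2 + (x₂ ^ 3 + a * x₂ + b) - 2 * (x₁ ^ 3 + a * x₁ + b) -
        2 * (x₁ + x₂) * (x₁ - x₂) ^ 2) * e2
  · simp [adds, addX, negY]
    field_simp
    linear_combination (-2) * e1 + (-2) * e2
  · simp [adds]
    ring

/-- ND-20 -/
theorem add_sub {a b : ℂ} (P Q : (EC a b).Point) :
    ∃ c : ℂ, c ≠ 0 ∧ adds a b (Point.sym2x P Q) = c • Point.sym2x (P + Q) (P - Q) := by
  rcases P with _ | ⟨x₁, y₁, h₁⟩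
  · rw [← Point.zero_def, zero_add, zero_sub, Point.sym2x_neg_right]
    rcases Q with _ | ⟨x₂, y₂, h₂⟩
    · rw [← Point.zero_def, Point.sym2x_zero_zero]
      exact ⟨1, one_ne_zero, adds_zero a b⟩
    · rw [Point.sym2x_zero_some, Point.sym2x_some_some]
      exact ⟨1, one_ne_zero, adds_one a b x₂⟩
  · rcases Q with _ | ⟨x₂, y₂, h₂⟩
    · rw [← Point.zero_def, add_zero, sub_zero, Point.sym2x_some_zero, Point.sym2x_some_some]
      exact ⟨1, one_ne_zero, adds_one a b x₁⟩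
    · by_cases hx : x₁ = x₂
      · rcases Point.X_eq_iff.1 hx with e | e
        · rw [← e, sub_self, Point.sym2x_some_some]
          exact dbl h₁
        · have e' : Point.some x₂ y₂ h₂ = -Point.some x₁ y₁ h₁ := by
            rw [e, neg_neg]
          rw [e', sub_neg_eq_add, add_neg_cancel, Point.sym2x_neg_right, Point.sym2x_some_some,
            Point.sym2x_comm]
          exact dbl h₁
      · rw [Point.sym2x_some_some]
        exact gen h₁ h₂ hx

end Pool.Agent.Helper19.ND
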