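import Pool.Agent.Helper19.ND.Defs

/-!
# Basic facts about sections
-/

set_option autoImplicit false

open Polynomial

namespace Pool.Agent.Helper19.ND

variable {a b : ℂ} {n : ℕ}

theorem Sect.at_zero (S : Sect a b n) (t : ℂ) :
    S.at' t 0 = t * S.z.eval t + S.w.eval t := by
  simp [Sect.at', Sect.par]

theorem Sect.at_one (S : Sect a b n) (t : ℂ) : S.at' t 1 = S.y.eval t := by
  simp [Sect.at', Sect.par]

theorem Sect.at_two (S : Sect a b n) (t : ℂ) : S.at' t 2 = S.z.eval t := by
  simp [Sect.at', Sect.par]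

theorem Sect.w_eval (S : Sect a b n) (t : ℂ) : S.w.eval t = (t - S.p) ^ n := by
  simp [Sect.w]

theorem Sect.w_natDegree (S : Sect a b n) : S.w.natDegree = n := by
  simp [Sect.w]

theorem Sect.w_coeff (S : Sect a b n) : S.w.coeff n = 1 := by
  have h : S.w.Monic := (monic_X_sub_C S.p).pow n
  have h2 := h.coeff_natDegree
  rwa [S.w_natDegree] at h2

theorem Sect.z_ne (S : Sect a b n) : S.z ≠ 0 := by
  intro h
  exact S.ne (by rw [h, eval_zero])

theorem Sect.conic_w (S : Sect a b n) :
    S.y ^ 2 = fP a b * S.z ^ 2 + dfP a * S.z * S.w + C 3 * X * S.w ^ 2 := S.conic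

theorem Sect.conic_eval (S : Sect a b n) (t : ℂ) :
    S.y.eval t ^ 2 = (t ^ 3 + a * t + b) * S.z.eval t ^ 2
      + (3 * t ^ 2 + a) * S.z.eval t * S.w.eval t + 3 * t * S.w.eval t ^ 2 := by
  have := congrArg (eval t) S.conic_w
  simpa [fP, dfP] using this

/-- the cubic form on the curve -/
theorem Sect.cub_at (S : Sect a b n) (t : ℂ) : cub a b (S.at' t) = S.w.eval t ^ 3 := by
  rw [cub, S.at_zero, S.at_one, S.at_two, S.conic_eval]
  ring

/-- `natDegree y ≤ n` -/
theorem Sect.y_natDegree (S : Sect a b n) (hn : 1 ≤ n) : S.y.natDegree ≤ n := by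
  have h1 : (S.y ^ 2).natDegree ≤ 2 * n + 1 := by
    rw [S.conic_w]
    have hf : (fP a b).natDegree ≤ 3 := by
      unfold fP
      compute_degree
    have hd : (dfP a).natDegree ≤ 2 := by
      unfold dfP
      compute_degree
    have hz := S.deg
    have hw := S.w_natDegree
    have h3 : (C 3 * X : ℂ[X]).natDegree ≤ 1 := by compute_degree
    refine natDegree_add_le_of_degree_le (natDegree_add_le_of_degree_le ?_ ?_) ?_
    · refine natDegree_mul_le.trans ?_
      have := natDegree_pow_le (p := S.z) (n := 2)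
      omega
    · refine natDegree_mul_le.trans ?_
      have := natDegree_mul_le (p := dfP a) (q := S.z)
      omega
    · refine natDegree_mul_le.trans ?_
      have := natDegree_pow_le (p := S.w) (n := 2)
      omega
  rw [natDegree_pow] at h1
  omega

/-- no common zero -/
theorem Sect.at_ne (S : Sect a b n) (hn : 1 ≤ n) (t : ℂ) : S.at' t ≠ 0 := by
  intro h
  have h0 := congrFun h 0
  have h2 := congrFun h 2
  rw [S.at_zero] at h0
  rw [S.at_two] at h2
  simp only [Pi.zero_apply] at h0 h2
  rw [h2, mul_zero, zero_add, S.w_eval] at h0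
  have h3 : t = S.p := sub_eq_zero.1 (pow_eq_zero_iff (by omega) |>.1 h0)
  rw [h3] at h2
  exact S.ne h2

/-- the leading coefficients of the parametrisation -/
theorem Sect.coeff_zero (S : Sect a b n) (hn : 1 ≤ n) :
    (X * S.z + S.w).coeff n = S.z.leadingCoeff + 1 := by
  obtain ⟨k, rfl⟩ : ∃ k, n = k + 1 := ⟨n - 1, by omega⟩
  rw [coeff_add, S.w_coeff, coeff_X_mul, leadingCoeff, S.deg]
  simp

theorem Sect.coeff_two (S : Sect a b n) (hn : 1 ≤ n) : S.z.coeff n = 0 :=
  coeff_eq_zero_of_natDegree_lt (by rw [S.deg]; omega)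

/-- the cube of the leading coefficient is 1 -/
theorem Sect.lead_cube (S : Sect a b n) : (S.z.leadingCoeff + 1) ^ 3 = 1 := by
  linear_combination (S.z.leadingCoeff + 1 - 1) * S.lead

theorem Sect.lead_ne (S : Sect a b n) : S.z.leadingCoeff + 1 ≠ 0 := by
  intro h
  have := S.lead_cube
  rw [h] at this
  norm_num at this

end Pool.Agent.Helper19.ND
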