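import Pool.Agent.Helper19.ND.MulX

/-!
# ND-22: there are `n²` points with `n P = 0`

PROOF. Take `A, B` from ND-21. Every `x ∈ ℂ` is the `x`-coordinate of a point, and every point of the
curve is nonsingular. `W = A' B - A B' ≠ 0`: otherwise (`A, B` coprime) `B ∣ B'`, `B' = 0`,
`A ∣ A'`, `A' = 0`, but `natDegree A = n² ≥ 1`. (`B ≠ 0`: otherwise `A` is a unit.)
Choose `c ∈ ℂ` outside a finite set such that: `c³ + a c + b ≠ 0`; `c ≠ A(t)/B(t)` for the roots `t`
of `W` with `B(t) ≠ 0`. Then `G = A - C c * B` has degree `n²` and only simple roots (a root `t` has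
`B(t) ≠ 0` by coprimality, and a double root is a root of `W`), so exactly `n²` roots. Let
`Q = (c, d)`, `d² = c³ + a c + b`, `d ≠ 0`, so `Q ≠ -Q`. For a point `P = (x, y)`:
`n P = Q` or `n P = -Q` iff `xRep (n P) = ![c, 1]` iff `G(x) = 0`. If `G(x) = 0` then `y ≠ 0`:
otherwise `2 P = 0`, `n P ∈ {0, P}`, so `P = ± Q`, `y = ± d ≠ 0`. So there are exactly `2 n²` points
`P` with `n P = ± Q`; `P ↦ -P` exchanges `{n P = Q}` and `{n P = -Q}`, which are disjoint, so both
have `n²` elements. `{n P = Q}` is a translate of `tors a b n`.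
-/

set_option autoImplicit false

open Polynomial WeierstrassCurve WeierstrassCurve.Affine

namespace Pool.Agent.Helper19.ND

/-- every point of the curve is nonsingular -/
private theorem nonsing' {a b : ℂ} (hab : 4 * a ^ 3 + 27 * b ^ 2 ≠ 0) {x y : ℂ}
    (hy : y ^ 2 = x ^ 3 + a * x + b) : (EC a b).Nonsingular x y := by
  rw [WeierstrassCurve.Affine.nonsingular_iff, WeierstrassCurve.Affine.equation_iff]
  refine ⟨by linear_combination hy, ?_⟩
  by_cases h0 : y = 0
  · left
    simp only [EC]
    intro h
    apply hab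
    have h1 : a = -3 * x ^ 2 := by linear_combination -h
    have h2 : b = 2 * x ^ 3 := by
      rw [h0, h1] at hy
      linear_combination -hy
    rw [h1, h2]
    ring
  · right
    simp only [EC]
    intro h
    apply h0
    linear_combination (1 / 2 : ℂ) * h

/-- the Wronskian -/
private theorem wron_ne {A B : ℂ[X]} (hc : IsCoprime A B) (hA : A.natDegree ≠ 0) :
    derivative A * B - A * derivative B ≠ 0 := by
  intro h
  have h1 : A ∣ derivative A * B := ⟨derivative B, by linear_combination h⟩
  have h2 : A ∣ derivative A := hc.dvd_of_dvd_mul_right h1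
  have h3 : derivative A = 0 :=
    Polynomial.eq_zero_of_dvd_of_natDegree_lt h2 (natDegree_derivative_lt hA)
  exact hA (natDegree_eq_zero_of_derivative_eq_zero h3)

/-- the set of the `x` with `A(x) = c B(x)` -/
private theorem card_roots {A B : ℂ[X]} (hcop : IsCoprime A B) {N : ℕ} (hN : 1 ≤ N)
    (hA : A.natDegree = N) (hB : B.natDegree ≤ N - 1) {c : ℂ}
    (hc : ∀ t : ℂ, (derivative A * B - A * derivative B).eval t = 0 → B.eval t ≠ 0 →
      c ≠ A.eval t / B.eval t) :
    ∃ R : Finset ℂ, R.card = N ∧ ∀ x : ℂ, x ∈ R ↔ A.eval x = c * B.eval x := by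
  have hcb : ∀ t : ℂ, A.eval t = 0 → B.eval t = 0 → False := by
    intro t h1 h2
    obtain ⟨u, v, huv⟩ := hcop
    have h3 := congrArg (eval t) huv
    simp only [eval_add, eval_mul, h1, h2, mul_zero, add_zero, eval_one] at h3
    exact zero_ne_one h3
  have hlt : (C c * B).natDegree < A.natDegree := by
    refine lt_of_le_of_lt (natDegree_C_mul_le _ _) ?_
    omega
  have hdeg : (A - C c * B).natDegree = N := by
    rw [natDegree_sub_eq_left_of_natDegree_lt hlt, hA]
  have hG0 : A - C c * B ≠ 0 := by
    intro h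
    rw [h, natDegree_zero] at hdeg
    omega
  have hsep : (A - C c * B).Separable := by
    rw [Polynomial.Separable, Polynomial.isCoprime_iff_aeval_ne_zero_of_isAlgClosed ℂ ℂ]
    intro t
    by_contra hcon
    push Not at hcon
    obtain ⟨h1, h2⟩ := hcon
    simp only [coe_aeval_eq_eval, eval_sub, eval_mul, eval_C, derivative_sub, derivative_mul,
      derivative_C, zero_mul, zero_add] at h1 h2
    have hB0 : B.eval t ≠ 0 := by
      intro h
      rw [h, mul_zero, sub_zero] at h1
      exact hcb t h1 h
    refine hc t ?_ hB0 ?_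
    · simp only [eval_sub, eval_mul]
      linear_combination (B.eval t) * h2 - (derivative B).eval t * h1
    · rw [eq_div_iff hB0]
      linear_combination -h1
  have hnd : (A - C c * B).roots.Nodup := nodup_roots hsep
  have hcard : Multiset.card (A - C c * B).roots = N := by
    rw [← hdeg]
    exact IsAlgClosed.card_roots_eq_natDegree
  refine ⟨(A - C c * B).roots.toFinset, ?_, ?_⟩
  · rw [Multiset.toFinset_card_of_nodup hnd, hcard]
  · intro x
    rw [Multiset.mem_toFinset, mem_roots hG0, IsRoot.def, eval_sub, eval_mul, eval_C, sub_eq_zero]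

/-- ND-22 -/
theorem card_tors {a b : ℂ} (hab : 4 * a ^ 3 + 27 * b ^ 2 ≠ 0) {n : ℕ} (hn : 1 ≤ n) :
    (tors a b n).Finite ∧ (tors a b n).ncard = n ^ 2 := by
  obtain ⟨A, B, hcop, hA, hB, hx⟩ := mul_x hab n
  have hN : 1 ≤ n ^ 2 := Nat.one_le_pow _ _ hn
  have hcb : ∀ t : ℂ, A.eval t = 0 → B.eval t = 0 → False := by
    intro t h1 h2
    obtain ⟨u, v, huv⟩ := hcop
    have h3 := congrArg (eval t) huv
    simp only [eval_add, eval_mul, h1, h2, mul_zero, add_zero, eval_one] at h3
    exact zero_ne_one h3
  have hW := wron_ne hcop (by rw [hA]; omega)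
  have hf0 : fP a b ≠ 0 := by
    intro h
    have h1 := congrArg (fun p => p.coeff 3) h
    simp [fP, coeff_X, coeff_C] at h1
  obtain ⟨c, hc⟩ := Infinite.exists_notMem_finset ((fP a b).roots.toFinset ∪
    (derivative A * B - A * derivative B).roots.toFinset.image (fun t => A.eval t / B.eval t))
  rw [Finset.mem_union, not_or, Multiset.mem_toFinset, mem_roots hf0, Finset.mem_image] at hc
  obtain ⟨hc1, hc2⟩ := hc
  obtain ⟨R, hR, hRx⟩ := card_roots hcop hN hA (hB hn) (c := c) (by
    intro t h1 _ h3
    apply hc2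
    refine ⟨t, ?_, h3.symm⟩
    rw [Multiset.mem_toFinset, mem_roots hW]
    exact h1)
  have hfc : c ^ 3 + a * c + b ≠ 0 := by
    intro h
    apply hc1
    simp [fP, IsRoot.def, h]
  obtain ⟨d, hd⟩ := IsAlgClosed.exists_pow_nat_eq (c ^ 3 + a * c + b) (n := 2) (by norm_num)
  have hd0 : d ≠ 0 := by
    intro h
    rw [h] at hd
    apply hfc
    rw [← hd]
    norm_num
  have hQn := nonsing' hab hd
  obtain ⟨Q, hQ⟩ : ∃ Q : (EC a b).Point, Q = Point.some c d hQn := ⟨_, rfl⟩
  have hQQ : Q ≠ -Q := by
    rw [hQ, Point.neg_some]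
    intro h
    injection h with _ h1
    have h2 : d = -d := by simpa [negY] using h1
    apply hd0
    linear_combination (1 / 2 : ℂ) * h2
  have hQx : Q.xRep = ![c, 1] := by rw [hQ]; exact Point.xRep_some hQn
  -- the basic equivalence
  have key : ∀ (x y : ℂ) (h : (EC a b).Nonsingular x y),
      (n • (Point.some x y h : (EC a b).Point) = Q ∨
        n • (Point.some x y h : (EC a b).Point) = -Q) ↔ x ∈ R := by
    intro x y h
    rw [hRx, ← Point.xRep_eq_xRep_iff, hQx]
    obtain ⟨k, hk, hk'⟩ := hx x y h
    generalize n • (Point.some x y h : (EC a b).Point) = P at hk'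
    have e0 := congrFun hk' 0
    have e1 := congrFun hk' 1
    simp only [Matrix.cons_val_zero, Matrix.cons_val_one, Pi.smul_apply, smul_eq_mul] at e0 e1
    constructor
    · intro h1
      rw [h1] at e0 e1
      simp only [Matrix.cons_val_zero, Matrix.cons_val_one, mul_one] at e0 e1
      rw [e0, e1]
      ring
    · intro h1
      cases P with
      | zero =>
        exfalso
        have hz : (Point.zero : (EC a b).Point).xRep = ![1, 0] := rfl
        rw [hz] at e0 e1
        simp only [Matrix.cons_val_zero, Matrix.cons_val_one, mul_one, mul_zero] at e0 e1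
        rw [e1, mul_zero] at h1
        exact hcb x h1 e1
      | some t s hts =>
        rw [Point.xRep_some] at e0 e1 ⊢
        simp only [Matrix.cons_val_zero, Matrix.cons_val_one, mul_one] at e0 e1
        rw [e0, e1] at h1
        have h2 : t = c := mul_left_cancel₀ hk (by linear_combination h1)
        rw [h2]
  -- the fibre over Q
  obtain ⟨S, hS⟩ : ∃ S : Set (EC a b).Point, S = {P | n • P = Q} := ⟨_, rfl⟩
  have hSaff : ∀ P ∈ S, P.xRep 0 ∈ R ∧ P.xRep = ![P.xRep 0, 1] := by
    intro P hP
    rw [hS] at hP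
    cases P with
    | zero =>
      exfalso
      have h1 : n • (0 : (EC a b).Point) = Q := hP
      rw [nsmul_zero] at h1
      have h2 := hQx
      rw [← h1, Point.xRep_zero] at h2
      have h3 := congrFun h2 1
      simp at h3
    | some x y h =>
      rw [Point.xRep_some]
      exact ⟨(key x y h).1 (Or.inl hP), rfl⟩
  have hinj : Set.InjOn (fun P : (EC a b).Point => P.xRep 0) S := by
    intro P hP P' hP' hPP
    have h1 := (hSaff P hP).2
    have h2 := (hSaff P' hP').2
    have hPP' : P.xRep 0 = P'.xRep 0 := hPP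
    rw [hPP', ← h2] at h1
    rcases Point.eq_or_eq_neg_of_xRep_eq_xRep h1 with h3 | h3
    · exact h3
    · exfalso
      rw [hS] at hP hP'
      have h4 : n • P = Q := hP
      have h5 : n • P' = Q := hP'
      rw [h3, neg_nsmul, h5] at h4
      exact hQQ h4.symm
  have himg : (fun P : (EC a b).Point => P.xRep 0) '' S = (R : Set ℂ) := by
    apply Set.Subset.antisymm
    · rintro _ ⟨P, hP, rfl⟩
      exact (hSaff P hP).1
    · intro x hxR
      obtain ⟨y, hy⟩ := IsAlgClosed.exists_pow_nat_eq (x ^ 3 + a * x + b) (n := 2) (by norm_num)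
      have hns := nonsing' hab hy
      rcases (key x y hns).2 hxR with h1 | h1
      · refine ⟨Point.some x y hns, ?_, ?_⟩
        · rw [hS]; exact h1
        · show (Point.some x y hns).xRep 0 = x
          rw [Point.xRep_some]; rfl
      · refine ⟨-Point.some x y hns, ?_, ?_⟩
        · rw [hS]
          show n • (-Point.some x y hns) = Q
          rw [neg_nsmul, h1, neg_neg]
        · show (-Point.some x y hns).xRep 0 = x
          rw [Point.xRep_neg, Point.xRep_some]; rfl
  have hSfin : S.Finite := by
    apply Set.Finite.of_finite_image _ hinj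
    rw [himg]
    exact R.finite_toSet
  have hScard : S.ncard = n ^ 2 := by
    rw [← Set.ncard_image_of_injOn hinj, himg, Set.ncard_coe_finset, hR]
  obtain ⟨P0, hP0⟩ : S.Nonempty := by
    rw [Set.nonempty_iff_ne_empty]
    intro h
    rw [h, Set.ncard_empty] at hScard
    omega
  have hP0' : n • P0 = Q := by rw [hS] at hP0; exact hP0
  have htr : tors a b n = (fun P => P - P0) '' S := by
    ext T
    constructor
    · intro hT
      have hT' : n • T = 0 := hT
      refine ⟨T + P0, ?_, add_sub_cancel_right T P0⟩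
      rw [hS]
      show n • (T + P0) = Q
      rw [nsmul_add, hT', hP0', zero_add]
    · rintro ⟨P, hP, rfl⟩
      rw [hS] at hP
      have hP' : n • P = Q := hP
      show n • (P - P0) = 0
      rw [nsmul_sub, hP', hP0', sub_self]
  have hinj2 : Function.Injective (fun P : (EC a b).Point => P - P0) := sub_left_injective
  rw [htr]
  exact ⟨hSfin.image _, by rw [Set.ncard_image_of_injective _ hinj2, hScard]⟩

end Pool.Agent.Helper19.ND
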