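import Pool.Agent.Helper19.ND.Defs

/-!
# ND-01: the explicit sections of the conic bundle
-/

set_option autoImplicit false

open Polynomial

namespace Pool.Agent.Helper19.ND

/-- `s = X - m²/3` -/
noncomputable def sP (m : ℂ) : ℂ[X] := X - C (m ^ 2 / 3)

/-- `g = m s + y₁`, the flex tangent -/
noncomputable def gP (m y₁ : ℂ) : ℂ[X] := C m * sP m + C y₁

noncomputable def ww (m y₁ : ℂ) (u v : ℂ[X]) : ℂ[X] :=
  sP m * u ^ 2 + C 2 * gP m y₁ * u * v - sP m ^ 2 * v ^ 2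

noncomputable def zz (m ω : ℂ) (u v : ℂ[X]) : ℂ[X] :=
  C (-2 - ω) * u ^ 2 - C (2 * m) * u * v + C (1 - ω) * sP m * v ^ 2

noncomputable def yy (m y₁ ω : ℂ) (u v : ℂ[X]) : ℂ[X] :=
  u ^ 2 * (C y₁ + C (1 + ω) * gP m y₁) - C (2 * ω + 1) * sP m ^ 2 * u * v
    + sP m * v ^ 2 * (C y₁ - C ω * gP m y₁)

theorem conic_ring {R : Type*} [CommRing R] (a b s m y ω : R) (hω : ω ^ 2 + ω + 1 = 0) :
    (a ^ 2 * (y + (1 + ω) * (m * s + y)) - (2 * ω + 1) * s ^ 2 * a * b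
        + s * b ^ 2 * (y - ω * (m * s + y))) ^ 2
      = (s ^ 3 + (m * s + y) ^ 2) * ((-2 - ω) * a ^ 2 - 2 * m * a * b + (1 - ω) * s * b ^ 2) ^ 2
      + (3 * s ^ 2 + 2 * m * (m * s + y)) * ((-2 - ω) * a ^ 2 - 2 * m * a * b
        + (1 - ω) * s * b ^ 2) * (s * a ^ 2 + 2 * (m * s + y) * a * b - s ^ 2 * b ^ 2)
      + (3 * s + m ^ 2) * (s * a ^ 2 + 2 * (m * s + y) * a * b - s ^ 2 * b ^ 2) ^ 2 := by
  have h2 : ω ^ 2 = -1 - ω := by linear_combination hω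
  ring_nf
  simp only [h2]
  ring_nf

/-- the flex expansion of `f` -/
theorem fP_eq {a b m y₁ : ℂ} (h : FlexData a b m y₁) :
    fP a b = sP m ^ 3 + gP m y₁ ^ 2 := by
  rw [fP, gP, sP, h.ha, h.hb]
  apply Polynomial.funext
  intro x
  simp
  ring

theorem dfP_eq {a b m y₁ : ℂ} (h : FlexData a b m y₁) :
    dfP a = C 3 * sP m ^ 2 + C 2 * C m * gP m y₁ := by
  rw [dfP, gP, sP, h.ha]
  apply Polynomial.funext
  intro x
  simp
  ring

/-- ND-01 -/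
theorem conic_id {a b m y₁ : ℂ} (h : FlexData a b m y₁) {ω : ℂ} (hω : ω ^ 2 + ω + 1 = 0)
    (u v : ℂ[X]) :
    yy m y₁ ω u v ^ 2 = fP a b * zz m ω u v ^ 2 + dfP a * zz m ω u v * ww m y₁ u v
      + C 3 * X * ww m y₁ u v ^ 2 := by
  rw [fP_eq h, dfP_eq h]
  have hω' : (C ω) ^ 2 + C ω + 1 = (0 : ℂ[X]) := by
    rw [← map_pow, ← map_add, ← map_one C, ← map_add, hω, map_zero]
  have hX : C 3 * (X : ℂ[X]) = C 3 * sP m + C m ^ 2 := by
    rw [sP]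
    apply Polynomial.funext
    intro x
    simp
    ring
  have key := conic_ring u v (sP m) (C m) (C y₁) (C ω) hω'
  rw [hX]
  simp only [yy, zz, ww, gP, map_add, map_sub, map_neg, map_mul, map_one, map_ofNat] at key ⊢
  linear_combination key

end Pool.Agent.Helper19.ND
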