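import Pool.Agent.Helper19.ND.Card

/-!
# ND-23: the number of contact points

PROOF. `good a b n = tors (3n) \ (tors n ∪ D)` with `D = {P | (3n) P = 0, n P ≠ 0, (n+1) P = 0}`;
`tors n ⊆ tors (3 n)`. For `P ∈ D`: `0 = 3 (n+1) P = 3 n P + 3 P = 3 P` and `P ≠ 0` (as `n P ≠ 0`),
so `D ⊆ tors 3 \ {0}`, at most 8 elements. If `3 ∤ n + 1` then `D = ∅` (`3 P = 0` and `(n+1) P = 0`
give `P = 0`). So `ncard (good) ≥ 9 n² - n² - 8`, resp. `= 8 n²`.
-/

set_option autoImplicit false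

open WeierstrassCurve WeierstrassCurve.Affine

namespace Pool.Agent.Helper19.ND

/-- the contact points -/
def good (a b : ℂ) (n : ℕ) : Set (EC a b).Point :=
  {P | (3 * n) • P = 0 ∧ n • P ≠ 0 ∧ (n + 1) • P ≠ 0}

private lemma count_three {a b : ℂ} {n : ℕ} {P : (EC a b).Point} (h : (3 * n) • P = 0)
    (h1 : (n + 1) • P = 0) : 3 • P = 0 := by
  have h2 : (3 * n) • P + 3 • P = 3 • ((n + 1) • P) := by
    rw [← add_nsmul, ← mul_nsmul']
    congr 1
  rw [h, h1, zero_add, nsmul_zero] at h2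
  exact h2

/-- ND-23 -/
theorem card_good {a b : ℂ} (hab : 4 * a ^ 3 + 27 * b ^ 2 ≠ 0) {n : ℕ} (hn : 1 ≤ n) :
    (good a b n).Finite ∧ 8 * n ^ 2 - 8 ≤ (good a b n).ncard ∧
      (¬ 3 ∣ n + 1 → 8 * n ^ 2 ≤ (good a b n).ncard) := by
  obtain ⟨f3n, c3n⟩ := card_tors hab (n := 3 * n) (by omega)
  obtain ⟨fn, cn⟩ := card_tors hab hn
  obtain ⟨f3, c3⟩ := card_tors hab (n := 3) (by norm_num)
  have hfin : (good a b n).Finite := f3n.subset (fun P hP => hP.1)
  set D : Set (EC a b).Point := {P | (3 * n) • P = 0 ∧ n • P ≠ 0 ∧ (n + 1) • P = 0} with hD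
  have hDsub : D ⊆ tors a b 3 \ {0} := by
    rintro P ⟨h1, h2, h3⟩
    refine ⟨count_three h1 h3, ?_⟩
    intro h0
    apply h2
    rw [Set.mem_singleton_iff.1 h0, nsmul_zero]
  have hDfin : D.Finite := (f3.subset Set.sdiff_subset).subset hDsub
  have hDcard : D.ncard ≤ 8 := by
    have h1 : D.ncard ≤ (tors a b 3 \ {0}).ncard :=
      Set.ncard_le_ncard hDsub (f3.subset Set.sdiff_subset)
    have h0 : (0 : (EC a b).Point) ∈ tors a b 3 := nsmul_zero 3
    rw [Set.ncard_sdiff_singleton_of_mem h0, c3] at h1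
    simpa using h1
  have hcover : tors a b (3 * n) ⊆ good a b n ∪ (tors a b n ∪ D) := by
    intro P hP
    by_cases h1 : n • P = 0
    · exact Or.inr (Or.inl h1)
    · by_cases h2 : (n + 1) • P = 0
      · exact Or.inr (Or.inr ⟨hP, h1, h2⟩)
      · exact Or.inl ⟨hP, h1, h2⟩
  have hle : (tors a b (3 * n)).ncard ≤ (good a b n).ncard + ((tors a b n).ncard + D.ncard) :=
    (Set.ncard_le_ncard hcover (hfin.union (fn.union hDfin))).trans
      ((Set.ncard_union_le _ _).trans (Nat.add_le_add_left (Set.ncard_union_le _ _) _))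
  rw [c3n, cn] at hle
  have h9 : (3 * n) ^ 2 = 9 * n ^ 2 := by ring
  rw [h9] at hle
  refine ⟨hfin, by omega, ?_⟩
  intro h3
  have hD0 : D = ∅ := by
    rw [Set.eq_empty_iff_forall_notMem]
    rintro P ⟨h1, h2, h4⟩
    have h5 : 3 • P = 0 := count_three h1 h4
    have h6 : addOrderOf P ∣ 3 := addOrderOf_dvd_of_nsmul_eq_zero h5
    have h7 : addOrderOf P ∣ n + 1 := addOrderOf_dvd_of_nsmul_eq_zero h4
    have h8 : addOrderOf P = 1 ∨ addOrderOf P = 3 := (Nat.dvd_prime Nat.prime_three).1 h6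
    rcases h8 with h8 | h8
    · apply h2
      rw [AddMonoid.addOrderOf_eq_one_iff] at h8
      rw [h8, nsmul_zero]
    · exact h3 (h8 ▸ h7)
  rw [hD0, Set.ncard_empty] at hle
  omega

end Pool.Agent.Helper19.ND
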