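import Pool.Agent.Helper19.ND.Defs

/-!
# ND-13: the linear maps

In the coordinates `s = x - x₀ z`, `A = y - m s - y₀ z`, `B = -(y + m s + y₀ z)`, `D = 2 y₀ z`
(`A + B + D = -2 m s`) the map `LM m x₀ y₀` is `s ↦ s`, `A ↦ B`, `B ↦ D`, `D ↦ A` (i.e. `s(Lv) = s(v)`,
`A(Lv) = B(v)`, `B(Lv) = D(v)`, `D(Lv) = A(v)`), and `cub = s³ + A B D/(2 y₀)` when `FlexData`.
PROOF. Direct computation (`Matrix.det_fin_three`, `Matrix.mulVec`, `Fin.sum_univ_three`,
`field_simp`, `ring`).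
-/

set_option autoImplicit false

namespace Pool.Agent.Helper19.ND

/-- ND-13 (a) -/
theorem LM_cube {m x₀ y₀ : ℂ} (hy : y₀ ≠ 0) : LM m x₀ y₀ * LM m x₀ y₀ * LM m x₀ y₀ = 1 := by
  ext i j
  fin_cases i <;> fin_cases j <;>
    simp [LM, Matrix.mul_apply, Fin.sum_univ_three] <;> field_simp <;> ring

/-- ND-13 (b) -/
theorem cub_LM {a b m y₀ : ℂ} (hF : FlexData a b m y₀) (v : Fin 3 → ℂ) :
    cub a b ((LM m (m ^ 2 / 3) y₀).mulVec v) = cub a b v := by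
  obtain ⟨hy, ha, hb⟩ := hF
  subst ha hb
  simp only [cub, LM, Matrix.mulVec, dotProduct, Fin.sum_univ_three, Matrix.of_apply,
    Matrix.cons_val', Matrix.cons_val_zero, Matrix.cons_val_one, Matrix.cons_val]
  field_simp
  ring

end Pool.Agent.Helper19.ND
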