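import Mathlib

/-!
# ND-08: a rational function which is injective on an infinite set and has an inverse has degree 1

PROOF. `M ≠ 0`. Let `h = gcd(N, M)` (normalised or not), `N = h n₁`, `M = h m₁`, `n₁, m₁` coprime
(e.g. `EuclideanDomain.gcd`, `isCoprime_div_gcd_div_gcd`). Let `k = max(natDegree n₁, natDegree m₁)`
and suppose `k ≥ 2`. For `q = (x, t) ∈ T`: `x = n₁(t)/m₁(t)` and `t = N'(x)/M'(x)`, so `T` is the
graph of a function of `t` and of a function of `x`; the set `T₂` of second coordinates is infinite.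
Let `e = max(natDegree N', natDegree M')` and let `A = Σ N'_i n₁^i m₁^(e-i)`,
`B = Σ M'_i n₁^i m₁^(e-i)`, so that `A(t) = m₁(t)^e N'(n₁(t)/m₁(t))` and the same for `B` when
`m₁(t) ≠ 0`. The polynomial `A - X B` vanishes on the infinite set `T₂`, so `A = X B`. And
`B ≠ 0` because `B(t) = m₁(t)^e M'(x) ≠ 0` for `q ∈ T`. So outside the finite set
`Z = {m₁ = 0} ∪ {B = 0}` the function `R(t) = n₁(t)/m₁(t)` is injective: `R(t) = R(t') = c` gives
`t M'(c) = N'(c) = t' M'(c)` and `M'(c) ≠ 0`.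
Now choose `c ∈ ℂ` outside a finite set such that `n₁ - c m₁` has `k` simple roots, all outside `Z`:
 * `W = n₁' m₁ - n₁ m₁' ≠ 0` (if `W = 0` then `m₁ ∣ n₁ m₁'`, so `m₁ ∣ m₁'`, `m₁' = 0`, `m₁` constant,
   then `n₁' = 0`, `k = 0`);
 * `c` is different from `n₁(t)/m₁(t)` for all roots `t` of `W` with `m₁(t) ≠ 0`, and for all
   `t ∈ Z` with `m₁(t) ≠ 0`, and if `natDegree n₁ = natDegree m₁` different from the quotient of the
   leading coefficients.
Then `n₁ - c m₁` has degree `k ≥ 2` (also `c ≠ 0`), a root `t` has `m₁(t) ≠ 0` (otherwise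
`n₁(t) = 0` too, against coprimality), is not a root of `W`, so it is a simple root
(`n₁(t) = c m₁(t)` and `n₁'(t) = c m₁'(t)` give `W(t) = 0`), and `t ∉ Z`. So there are two
different roots `t, t' ∉ Z` with `R(t) = R(t') = c`: contradiction.
-/

set_option autoImplicit false

open Polynomial

namespace Pool.Agent.Helper19.ND

private noncomputable def HH (P : ℂ[X]) (e : ℕ) (n m : ℂ[X]) : ℂ[X] :=
  ∑ i ∈ Finset.range (e + 1), C (P.coeff i) * (n ^ i * m ^ (e - i))

private noncomputable def HV (P : ℂ[X]) (e : ℕ) (a b : ℂ) : ℂ :=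
  ∑ i ∈ Finset.range (e + 1), P.coeff i * (a ^ i * b ^ (e - i))

private theorem eval_HH (P : ℂ[X]) (e : ℕ) (n m : ℂ[X]) (t : ℂ) :
    (HH P e n m).eval t = HV P e (n.eval t) (m.eval t) := by
  unfold HH HV
  rw [eval_finsetSum]
  refine Finset.sum_congr rfl fun i _ => ?_
  simp

private theorem coeff_HH (P : ℂ[X]) (e k : ℕ) (n m : ℂ[X]) (hn : n.natDegree ≤ k)
    (hm : m.natDegree ≤ k) : (HH P e n m).coeff (e * k) = HV P e (n.coeff k) (m.coeff k) := by
  unfold HH HV
  rw [finsetSum_coeff]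
  refine Finset.sum_congr rfl fun i hi => ?_
  have hi' : i ≤ e := by
    have := Finset.mem_range.1 hi
    omega
  have h1 : e * k = i * k + (e - i) * k := by
    rw [← Nat.add_mul, Nat.add_sub_cancel' hi']
  rw [coeff_C_mul, h1, coeff_mul_add_eq_of_natDegree_le (natDegree_pow_le_of_le i hn)
    (natDegree_pow_le_of_le (e - i) hm), coeff_pow_of_natDegree_le hn,
    coeff_pow_of_natDegree_le hm]

private theorem HV_of_ne (P : ℂ[X]) (e : ℕ) (hP : P.natDegree ≤ e) (a : ℂ) {b : ℂ} (hb : b ≠ 0) :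
    HV P e a b = b ^ e * P.eval (a / b) := by
  unfold HV
  rw [eval_eq_sum_range' (Nat.lt_succ_of_le hP), Finset.mul_sum]
  refine Finset.sum_congr rfl fun i hi => ?_
  have hi' : i ≤ e := by
    have := Finset.mem_range.1 hi
    omega
  have h1 : b ^ e = b ^ (e - i) * b ^ i := by
    rw [← pow_add, Nat.sub_add_cancel hi']
  rw [h1, div_pow]
  field_simp

private theorem HV_zero (P : ℂ[X]) (e : ℕ) (a : ℂ) : HV P e a 0 = P.coeff e * a ^ e := by
  unfold HV
  rw [Finset.sum_range_succ, Finset.sum_eq_zero, zero_add, Nat.sub_self, pow_zero, mul_one]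
  intro i hi
  have h1 : e - i ≠ 0 := by
    have := Finset.mem_range.1 hi
    omega
  rw [zero_pow h1, mul_zero, mul_zero]

private theorem not_both {P Q : ℂ[X]} (hc : IsCoprime P Q) {e : ℕ}
    (he : e = max P.natDegree Q.natDegree) {a b : ℂ} (hab : a ≠ 0 ∨ b ≠ 0) (h1 : HV P e a b = 0)
    (h2 : HV Q e a b = 0) : False := by
  have hP : P.natDegree ≤ e := he ▸ le_max_left _ _
  have hQ : Q.natDegree ≤ e := he ▸ le_max_right _ _
  by_cases hb : b = 0
  · have ha : a ≠ 0 := by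
      rcases hab with h | h
      · exact h
      · exact absurd hb h
    subst hb
    rw [HV_zero] at h1 h2
    have hae : a ^ e ≠ 0 := pow_ne_zero _ ha
    have h3 : P.coeff e = 0 := (mul_eq_zero.1 h1).resolve_right hae
    have h4 : Q.coeff e = 0 := (mul_eq_zero.1 h2).resolve_right hae
    rcases max_choice P.natDegree Q.natDegree with h5 | h5
    · rw [h5] at he
      have h6 : P = 0 := by
        rw [he] at h3
        exact leadingCoeff_eq_zero.1 h3
      have h7 : e = 0 := by rw [he, h6, natDegree_zero]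
      have h8 : Q = 0 := by
        rw [h7] at hQ h4
        rw [eq_C_of_natDegree_le_zero hQ, h4, C_0]
      rw [h6, h8] at hc
      obtain ⟨u, v, huv⟩ := hc
      simp at huv
    · rw [h5] at he
      have h6 : Q = 0 := by
        rw [he] at h4
        exact leadingCoeff_eq_zero.1 h4
      have h7 : e = 0 := by rw [he, h6, natDegree_zero]
      have h8 : P = 0 := by
        rw [h7] at hP h3
        rw [eq_C_of_natDegree_le_zero hP, h3, C_0]
      rw [h6, h8] at hc
      obtain ⟨u, v, huv⟩ := hc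
      simp at huv
  · rw [HV_of_ne P e hP a hb] at h1
    rw [HV_of_ne Q e hQ a hb] at h2
    have hbe : b ^ e ≠ 0 := pow_ne_zero _ hb
    have h3 := (mul_eq_zero.1 h1).resolve_left hbe
    have h4 := (mul_eq_zero.1 h2).resolve_left hbe
    obtain ⟨u, v, huv⟩ := hc
    have h5 := congrArg (eval (a / b)) huv
    rw [eval_add, eval_mul, eval_mul, h3, h4, mul_zero, mul_zero, add_zero, eval_one] at h5
    exact zero_ne_one h5

private theorem split (N M : ℂ[X]) (hM : M ≠ 0) :
    ∃ h n m : ℂ[X], N = h * n ∧ M = h * m ∧ IsCoprime n m := by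
  obtain ⟨g, hg⟩ : ∃ g, g = EuclideanDomain.gcd N M := ⟨_, rfl⟩
  obtain ⟨n, hn⟩ : g ∣ N := hg ▸ EuclideanDomain.gcd_dvd_left N M
  obtain ⟨m, hm⟩ : g ∣ M := hg ▸ EuclideanDomain.gcd_dvd_right N M
  have hg0 : g ≠ 0 := by
    rintro rfl
    exact hM (by rw [hm, zero_mul])
  have hb := EuclideanDomain.gcd_eq_gcd_ab N M
  rw [← hg] at hb
  refine ⟨g, n, m, hn, hm, EuclideanDomain.gcdA N M, EuclideanDomain.gcdB N M, ?_⟩
  obtain ⟨a, ha⟩ : ∃ a, a = EuclideanDomain.gcdA N M := ⟨_, rfl⟩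
  obtain ⟨b, hb'⟩ : ∃ b, b = EuclideanDomain.gcdB N M := ⟨_, rfl⟩
  rw [← ha, ← hb'] at hb ⊢
  have h1 : g * (a * n + b * m) = g * 1 := by
    calc g * (a * n + b * m) = (g * n) * a + (g * m) * b := by ring
      _ = N * a + M * b := by rw [← hn, ← hm]
      _ = g * 1 := by rw [mul_one, ← hb]
  exact mul_left_cancel₀ hg0 h1

/-- ND-08 -/
theorem mobius {N M N' M' : ℂ[X]} {T : Set (ℂ × ℂ)} (hT : T.Infinite)
    (h1 : ∀ q ∈ T, M.eval q.2 ≠ 0 ∧ q.1 * M.eval q.2 = N.eval q.2)
    (h2 : ∀ q ∈ T, M'.eval q.1 ≠ 0 ∧ q.2 * M'.eval q.1 = N'.eval q.1) :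
    ∃ h n₁ m₁ : ℂ[X], N = h * n₁ ∧ M = h * m₁ ∧ IsCoprime n₁ m₁ ∧
      n₁.natDegree ≤ 1 ∧ m₁.natDegree ≤ 1 := by
  obtain ⟨q0, hq0⟩ := hT.nonempty
  have hM : M ≠ 0 := by
    rintro rfl
    exact (h1 q0 hq0).1 eval_zero
  have hM' : M' ≠ 0 := by
    rintro rfl
    exact (h2 q0 hq0).1 eval_zero
  obtain ⟨h, n, m, hN, hMm, hc⟩ := split N M hM
  obtain ⟨h', P, Q, hP, hQ, hc'⟩ := split N' M' hM'
  obtain ⟨k, hk⟩ : ∃ k, k = max n.natDegree m.natDegree := ⟨_, rfl⟩
  obtain ⟨e, he⟩ : ∃ e, e = max P.natDegree Q.natDegree := ⟨_, rfl⟩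
  have hkn : n.natDegree ≤ k := hk ▸ le_max_left _ _
  have hkm : m.natDegree ≤ k := hk ▸ le_max_right _ _
  have hPe : P.natDegree ≤ e := he ▸ le_max_left _ _
  have hQe : Q.natDegree ≤ e := he ▸ le_max_right _ _
  -- the points of `T`
  have key : ∀ q ∈ T, m.eval q.2 ≠ 0 ∧ q.1 = n.eval q.2 / m.eval q.2 ∧
      Q.eval q.1 ≠ 0 ∧ q.2 * Q.eval q.1 = P.eval q.1 := by
    intro q hq
    obtain ⟨a1, a2⟩ := h1 q hq
    obtain ⟨b1, b2⟩ := h2 q hq
    rw [hMm, eval_mul] at a1 a2
    rw [hN, eval_mul] at a2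
    rw [hQ, eval_mul] at b1 b2
    rw [hP, eval_mul] at b2
    have a3 := left_ne_zero_of_mul a1
    have a4 := right_ne_zero_of_mul a1
    have b3 := left_ne_zero_of_mul b1
    have b4 := right_ne_zero_of_mul b1
    refine ⟨a4, ?_, b4, ?_⟩
    · rw [eq_div_iff a4]
      have : h.eval q.2 * (q.1 * m.eval q.2) = h.eval q.2 * n.eval q.2 := by
        rw [← a2]; ring
      exact mul_left_cancel₀ a3 this
    · have : h'.eval q.1 * (q.2 * Q.eval q.1) = h'.eval q.1 * P.eval q.1 := by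
        rw [← b2]; ring
      exact mul_left_cancel₀ b3 this
  have hinj : Set.InjOn Prod.snd T := by
    intro q hq q' hq' hqq
    have c1 := (key q hq).2.1
    have c2 := (key q' hq').2.1
    have hqq' : q.2 = q'.2 := hqq
    refine Prod.ext ?_ hqq'
    rw [c1, c2, hqq']
  have hT2 : (Prod.snd '' T).Infinite := hT.image hinj
  have hAB : HH P e n m = X * HH Q e n m := by
    refine Polynomial.eq_of_infinite_eval_eq _ _ (hT2.mono ?_)
    rintro t ⟨q, hq, rfl⟩
    obtain ⟨c1, c2, c3, c4⟩ := key q hq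
    change eval q.2 (HH P e n m) = eval q.2 (X * HH Q e n m)
    rw [eval_mul, eval_X, eval_HH, eval_HH, HV_of_ne P e hPe _ c1, HV_of_ne Q e hQe _ c1, ← c2,
      ← c4]
    ring
  have hnm : ∀ t : ℂ, n.eval t ≠ 0 ∨ m.eval t ≠ 0 := by
    intro t
    by_contra hcon
    rw [not_or, not_not, not_not] at hcon
    obtain ⟨u, v, huv⟩ := hc
    have h5 := congrArg (eval t) huv
    rw [eval_add, eval_mul, eval_mul, hcon.1, hcon.2, mul_zero, mul_zero, add_zero, eval_one] at h5
    exact zero_ne_one h5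
  have hB : ∀ t : ℂ, (HH Q e n m).eval t ≠ 0 := by
    intro t h0
    have hA : (HH P e n m).eval t = 0 := by
      rw [hAB, eval_mul, h0, mul_zero]
    rw [eval_HH] at h0 hA
    exact not_both hc' he (hnm t) hA h0
  have hBd : (HH Q e n m).natDegree = 0 := by
    by_contra h0
    obtain ⟨t, ht⟩ := IsAlgClosed.exists_root (HH Q e n m) (by
      intro h3
      exact h0 (natDegree_eq_of_degree_eq_some h3))
    exact hB t ht
  have hAd : (HH P e n m).natDegree ≤ 1 := by
    rw [hAB]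
    refine natDegree_mul_le.trans ?_
    rw [hBd, natDegree_X]
  have hk0 : n.coeff k ≠ 0 ∨ m.coeff k ≠ 0 := by
    by_contra hcon
    rw [not_or, not_not, not_not] at hcon
    obtain ⟨z1, z2⟩ := hcon
    rcases max_choice n.natDegree m.natDegree with h5 | h5
    · rw [h5] at hk
      have h6 : n = 0 := by
        rw [hk] at z1
        exact leadingCoeff_eq_zero.1 z1
      have h7 : k = 0 := by rw [hk, h6, natDegree_zero]
      have h8 : m = 0 := by
        rw [h7] at hkm z2
        rw [eq_C_of_natDegree_le_zero hkm, z2, C_0]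
      rcases hnm 0 with h9 | h9
      · rw [h6, eval_zero] at h9; exact h9 rfl
      · rw [h8, eval_zero] at h9; exact h9 rfl
    · rw [h5] at hk
      have h6 : m = 0 := by
        rw [hk] at z2
        exact leadingCoeff_eq_zero.1 z2
      have h7 : k = 0 := by rw [hk, h6, natDegree_zero]
      have h8 : n = 0 := by
        rw [h7] at hkn z1
        rw [eq_C_of_natDegree_le_zero hkn, z1, C_0]
      rcases hnm 0 with h9 | h9
      · rw [h8, eval_zero] at h9; exact h9 rfl
      · rw [h6, eval_zero] at h9; exact h9 rfl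
  have hek : e * k ≤ 1 := by
    by_contra hcon
    push Not at hcon
    have c1 : (HH P e n m).coeff (e * k) = 0 := coeff_eq_zero_of_natDegree_lt (by omega)
    have c2 : (HH Q e n m).coeff (e * k) = 0 := coeff_eq_zero_of_natDegree_lt (by omega)
    rw [coeff_HH P e k n m hkn hkm] at c1
    rw [coeff_HH Q e k n m hkn hkm] at c2
    exact not_both hc' he hk0 c1 c2
  have he1 : 1 ≤ e := by
    by_contra hcon
    have he0 : e = 0 := by omega
    rw [he0] at hPe hQe
    have hPc := eq_C_of_natDegree_le_zero hPe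
    have hQc := eq_C_of_natDegree_le_zero hQe
    refine hT2 ((Set.finite_singleton (P.coeff 0 / Q.coeff 0)).subset ?_)
    rintro t ⟨q, hq, rfl⟩
    obtain ⟨c1, c2, c3, c4⟩ := key q hq
    rw [hQc, eval_C] at c3 c4
    rw [hPc, eval_C] at c4
    rw [Set.mem_singleton_iff, eq_div_iff c3]
    exact c4
  have hk1 : k ≤ 1 := by
    by_contra hcon
    push Not at hcon
    have : 1 * 2 ≤ e * k := Nat.mul_le_mul he1 hcon
    omega
  exact ⟨h, n, m, hN, hMm, hc, hkn.trans hk1, hkm.trans hk1⟩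

end Pool.Agent.Helper19.ND
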