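import Pool.Agent.Helper19.ND.Basic

/-!
# ND-11: coplanar lines

Put `s = X - m²/3`, `g = m s + y₀`, `A = y - g z - m w`, `B = y + g z + m w` (`= h m₀`), so that
`(★) s (s² z² + 3 s z w + 3 w²) = A B`: from the conic `y² = f z² + f' z w + 3 X w²` with
`f = s³ + g²`, `f' = 3 s² + 2 m g`, `3 X = 3 s + m²` (`FlexData`; compare `fP_eq`, `dfP_eq` in
Conic.lean).
PROOF. `s z = h n₀` has degree `n`, so `natDegree h ≥ n - 1 ≥ 2`. Let `t` be a root of `h` with
`t ≠ m²/3`; then `z(t) = 0`, so the left side of (★) at `t` is `3 s(t) w(t)²`, the right side is `0`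
(`h ∣ B`), so `w(t) = 0`, `t = p` and `z(p) = 0`, against `ne`. So all roots of `h` are
`x₀ = m²/3`, `(X - x₀)² ∣ h` (ℂ is algebraically closed, `h ≠ 0`). So `(X - x₀)² ∣ s z`, hence
`z(x₀) = 0` and `(X - x₀)² ∣ A B = s (s² z² + 3 s z w + 3 w²)`, so
`s² z² + 3 s z w + 3 w²` vanishes at `x₀`: `w(x₀) = 0`, `x₀ = p`, `z(p) = 0`, contradiction.
-/

set_option autoImplicit false

open Polynomial

namespace Pool.Agent.Helper19.ND

/-- ND-11 -/
theorem v_one {a b m y₀ : ℂ} {n : ℕ} (hF : FlexData a b m y₀) (S : Sect a b n) (hn : 3 ≤ n)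
    {h n₀ m₀ : ℂ[X]} (hn₀ : n₀.natDegree ≤ 1)
    (e1 : (X - C (m ^ 2 / 3)) * S.z = h * n₀)
    (e2 : S.y + (C m * (X - C (m ^ 2 / 3)) + C y₀) * S.z + C m * S.w = h * m₀) : False := by
  obtain ⟨x₀, hx₀⟩ : ∃ x₀, x₀ = m ^ 2 / 3 := ⟨_, rfl⟩
  rw [← hx₀] at e1 e2
  have star : (X - C x₀) * ((X - C x₀) ^ 2 * S.z ^ 2 + C 3 * (X - C x₀) * S.z * S.w
      + C 3 * S.w ^ 2) = (S.y - (C m * (X - C x₀) + C y₀) * S.z - C m * S.w) *
        (S.y + (C m * (X - C x₀) + C y₀) * S.z + C m * S.w) := by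
    apply Polynomial.funext
    intro x
    have h1 := S.conic_eval x
    simp only [eval_mul, eval_sub, eval_add, eval_pow, eval_X, eval_C]
    rw [hx₀]
    linear_combination -h1 - (x * S.z.eval x ^ 2 + S.z.eval x * S.w.eval x) * hF.ha
      - S.z.eval x ^ 2 * hF.hb
  have hs : (X - C x₀ : ℂ[X]) ≠ 0 := X_sub_C_ne_zero x₀
  have hz := S.z_ne
  have hprod : h * n₀ ≠ 0 := by
    rw [← e1]
    exact mul_ne_zero hs hz
  have hh : h ≠ 0 := left_ne_zero_of_mul hprod
  have hn' : n₀ ≠ 0 := right_ne_zero_of_mul hprod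
  have hdeg : 2 ≤ h.natDegree := by
    have h1 := congrArg natDegree e1
    rw [natDegree_mul hs hz, natDegree_mul hh hn', natDegree_X_sub_C, S.deg] at h1
    omega
  -- all roots of `h` are `x₀`
  have hroot : ∀ t, h.eval t = 0 → t = x₀ := by
    intro t ht
    by_contra hne
    have h1 : S.z.eval t = 0 := by
      have h2 := congrArg (eval t) e1
      rw [eval_mul, eval_mul, ht, zero_mul, eval_sub, eval_X, eval_C] at h2
      exact (mul_eq_zero.1 h2).resolve_left (sub_ne_zero.2 hne)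
    have h3 := congrArg (eval t) star
    rw [e2] at h3
    simp only [eval_mul, eval_sub, eval_add, eval_pow, eval_X, eval_C, h1, ht] at h3
    have h4 : (t - x₀) * (3 * S.w.eval t ^ 2) = 0 := by linear_combination h3
    have h5 : S.w.eval t = 0 := by
      have h6 := (mul_eq_zero.1 h4).resolve_left (sub_ne_zero.2 hne)
      have h7 := (mul_eq_zero.1 h6).resolve_left (by norm_num)
      exact pow_eq_zero_iff (two_ne_zero) |>.1 h7
    rw [S.w_eval] at h5
    have h6 : t = S.p := sub_eq_zero.1 (pow_eq_zero_iff (by omega) |>.1 h5)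
    rw [h6] at h1
    exact S.ne h1
  obtain ⟨t, ht⟩ := IsAlgClosed.exists_root h (by
    rw [degree_eq_natDegree hh]
    intro h0
    have h1 : h.natDegree = 0 := by exact_mod_cast h0
    omega)
  have ht' := hroot t ht
  rw [ht'] at ht
  obtain ⟨h1, hh1⟩ := dvd_iff_isRoot.2 ht
  have hh1ne : h1 ≠ 0 := by
    rintro rfl
    rw [mul_zero] at hh1
    exact hh hh1
  have hd1 : 1 ≤ h1.natDegree := by
    have h2 := congrArg natDegree hh1
    rw [natDegree_mul hs hh1ne, natDegree_X_sub_C] at h2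
    omega
  obtain ⟨t₁, ht₁⟩ := IsAlgClosed.exists_root h1 (by
    rw [degree_eq_natDegree hh1ne]
    intro h0
    have h2 : h1.natDegree = 0 := by exact_mod_cast h0
    omega)
  have ht₁' : t₁ = x₀ := by
    apply hroot
    rw [hh1, eval_mul, ht₁, mul_zero]
  rw [ht₁'] at ht₁
  obtain ⟨h2, hh2⟩ := dvd_iff_isRoot.2 ht₁
  -- `z (x₀) = 0`
  have hz0 : S.z.eval x₀ = 0 := by
    have h3 : S.z = (X - C x₀) * (h2 * n₀) := by
      apply mul_left_cancel₀ hs
      rw [e1, hh1, hh2]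
      ring
    rw [h3]
    simp
  have hw0 : S.w.eval x₀ = 0 := by
    have h3 : (X - C x₀) ^ 2 * S.z ^ 2 + C 3 * (X - C x₀) * S.z * S.w + C 3 * S.w ^ 2 =
        (X - C x₀) * ((S.y - (C m * (X - C x₀) + C y₀) * S.z - C m * S.w) * (h2 * m₀)) := by
      apply mul_left_cancel₀ hs
      rw [star, e2, hh1, hh2]
      ring
    have h4 := congrArg (eval x₀) h3
    simp only [eval_mul, eval_sub, eval_add, eval_pow, eval_X, eval_C, hz0] at h4
    have h5 : 3 * S.w.eval x₀ ^ 2 = 0 := by linear_combination h4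
    have h7 := (mul_eq_zero.1 h5).resolve_left (by norm_num)
    exact pow_eq_zero_iff (two_ne_zero) |>.1 h7
  rw [S.w_eval] at hw0
  have h6 : x₀ = S.p := sub_eq_zero.1 (pow_eq_zero_iff (by omega) |>.1 hw0)
  rw [h6] at hz0
  exact S.ne hz0

end Pool.Agent.Helper19.ND
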