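import Pool.Agent.Helper19.ND.Basic

/-!
# ND-12: skew lines

Put `x₀ = m²/3`, `s = X - x₀`, `g = m s + y₀`, `z₂ = ζ - 1`, `y₂ = -(m ζ s + y₀ (ζ - 1))`, `w₂ = s`
(the line as a section: `y₂² = f z₂² + f' z₂ w₂ + 3 X w₂²`; check: `f = s³ + g²`, `f' = 3 s² + 2 m g`,
`3 X = 3 s + m²`, `ζ² + ζ + 1 = 0`). Let `N = s z + (1 - ζ) w = z w₂ - z₂ w = h n₀`,
`M = y + g z + m w = h m₀`, `Z = y w₂ - y₂ w`. Identities:
(1) `s M = Z + g N`;
(2) `Z² - f N² = w w₂ W` with `W = f' (z w₂ + z₂ w) + 6 X w w₂ - 2 (y y₂ - f z z₂)`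
    (expand and use both conic equations).
PROOF. By (1) `Z = h z₁` with `z₁ = s m₀ - g n₀`, `natDegree z₁ ≤ 2`. By (2)
`h² E = w w₂ W` with `E = z₁² - f n₀²`, `natDegree E ≤ 5`.
`N ≠ 0`: `N = 0` would give `s z = (ζ - 1) w`; `w = (X - p)^n`, `z(p) ≠ 0`, so at `p`: `p = x₀`, then
`z = (ζ - 1)(X - p)^(n-1)` vanishes at `p` (`n ≥ 2`). So `h ≠ 0`, `n₀ ≠ 0`.
`E ≠ 0`: otherwise `z₁² = f n₀²`, but the degrees of the two sides have different parity
(`natDegree f = 3`, `n₀ ≠ 0`).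
* `p ≠ x₀`: `h(p) ≠ 0` (as `N(p) = (p - x₀) z(p) ≠ 0`) and `h(x₀) ≠ 0` (as
  `N(x₀) = (1 - ζ) w(x₀) ≠ 0`). So `(X - p)^n (X - x₀)` is coprime to `h²` and divides `h² E`, so it
  divides `E`, and `n + 1 ≤ 5`: contradiction to `5 ≤ n`.
* `p = x₀` and `7 ≤ n`: `N = (X - p)(z + (1 - ζ)(X - p)^(n-1))` and the second factor does not
  vanish at `p`; so `(X - p)²` does not divide `h`; `(X - p)^(n+1) ∣ h² E`, so `(X - p)^(n-1) ∣ E`
  (`(X - p)` is prime, `h = (X - p)^ε h₁` with `ε ≤ 1`, `h₁(p) ≠ 0`), so `n - 1 ≤ 5`: contradiction.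
-/

set_option autoImplicit false

open Polynomial

namespace Pool.Agent.Helper19.ND

private theorem vt_consts {a b m y₀ : ℂ} (hF : FlexData a b m y₀) :
    (C m : ℂ[X]) ^ 2 = 3 * C (m ^ 2 / 3) ∧
      (C a : ℂ[X]) = 2 * C m * C y₀ - 3 * C (m ^ 2 / 3) ^ 2 ∧
      (C b : ℂ[X]) = C y₀ ^ 2 - 2 * C m * C (m ^ 2 / 3) * C y₀ + 2 * C (m ^ 2 / 3) ^ 3 := by
  have h2 : (2 : ℂ[X]) = C 2 := rfl
  have h3 : (3 : ℂ[X]) = C 3 := rfl
  refine ⟨?_, ?_, ?_⟩
  · rw [h3, ← C_pow, ← C_mul]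
    congr 1
    ring
  · rw [h2, h3, ← C_pow, ← C_mul, ← C_mul, ← C_mul, ← C_sub, hF.ha]
    congr 1
    ring
  · rw [h2, ← C_pow, ← C_pow, ← C_mul, ← C_mul, ← C_mul, ← C_mul, ← C_sub, ← C_add, hF.hb]
    congr 1
    ring

private theorem vt_f {a b m y₀ : ℂ} (hF : FlexData a b m y₀) :
    fP a b = (X - C (m ^ 2 / 3)) ^ 3 + (C m * (X - C (m ^ 2 / 3)) + C y₀) ^ 2 := by
  obtain ⟨h1, h2, h3⟩ := vt_consts hF
  unfold fP
  rw [h2, h3]
  linear_combination (-(X - C (m ^ 2 / 3)) ^ 2) * h1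

private theorem vt_df {a b m y₀ : ℂ} (hF : FlexData a b m y₀) :
    dfP a = 3 * (X - C (m ^ 2 / 3)) ^ 2 + 2 * C m * (C m * (X - C (m ^ 2 / 3)) + C y₀) := by
  obtain ⟨h1, h2, h3⟩ := vt_consts hF
  have h4 : (3 : ℂ[X]) = C 3 := rfl
  unfold dfP
  rw [h2, ← h4]
  linear_combination (-2 * (X - C (m ^ 2 / 3))) * h1

private theorem vt_fdeg (a b : ℂ) : (fP a b).natDegree = 3 := by
  unfold fP
  compute_degree!

private theorem vt_key {f f' cX z y w s g cm cy cz : ℂ[X]} (hz : cz ^ 2 + cz + 1 = 0)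
    (hf : f = s ^ 3 + g ^ 2) (hf' : f' = 3 * s ^ 2 + 2 * cm * g) (hX : cX = 3 * s + cm ^ 2)
    (hg : g = cm * s + cy) (hy : y ^ 2 = f * z ^ 2 + f' * z * w + cX * w ^ 2) :
    (y * s + (cm * cz * s + cy * (cz - 1)) * w) ^ 2 - f * (s * z + (1 - cz) * w) ^ 2 =
      w * s * (f' * (z * s + (cz - 1) * w) + 2 * cX * w * s -
        2 * (y * (-(cm * cz * s + cy * (cz - 1))) - f * z * (cz - 1))) := by
  subst hg hf hf' hX
  linear_combination s ^ 2 * hy - w ^ 2 * s ^ 3 * hz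

/-- ND-12 -/
theorem v_two {a b m y₀ : ℂ} {n : ℕ} (hF : FlexData a b m y₀) (S : Sect a b n) (hn : 5 ≤ n)
    (hp : S.p ≠ m ^ 2 / 3 ∨ 7 ≤ n) {ζ : ℂ} (hζ : ζ ^ 2 + ζ + 1 = 0)
    {h n₀ m₀ : ℂ[X]} (hn₀ : n₀.natDegree ≤ 1) (hm₀ : m₀.natDegree ≤ 1)
    (e1 : (X - C (m ^ 2 / 3)) * S.z + C (1 - ζ) * S.w = h * n₀)
    (e2 : S.y + (C m * (X - C (m ^ 2 / 3)) + C y₀) * S.z + C m * S.w = h * m₀) : False := by
  obtain ⟨x₀, hx₀⟩ : ∃ x₀, x₀ = m ^ 2 / 3 := ⟨_, rfl⟩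
  have hζ1 : (1 : ℂ) - ζ ≠ 0 := by
    intro h1
    have h2 : ζ = 1 := by linear_combination -h1
    rw [h2] at hζ
    norm_num at hζ
  have hcz : (C ζ : ℂ[X]) ^ 2 + C ζ + 1 = 0 := by
    rw [← C_pow, ← C_add, ← C_1, ← C_add, hζ, C_0]
  have h1z : (C (1 - ζ) : ℂ[X]) = 1 - C ζ := by rw [C_sub, C_1]
  have hX3 : (C 3 * X : ℂ[X]) = 3 * (X - C (m ^ 2 / 3)) + C m ^ 2 := by
    have h4 : (3 : ℂ[X]) = C 3 := rfl
    rw [← h4]
    linear_combination -(vt_consts hF).1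
  have hkey := vt_key (cz := C ζ) (s := X - C (m ^ 2 / 3)) (cy := C y₀) (cm := C m) hcz (vt_f hF)
    (vt_df hF) hX3 rfl S.conic_w
  have hZ : S.y * (X - C (m ^ 2 / 3)) +
      (C m * C ζ * (X - C (m ^ 2 / 3)) + C y₀ * (C ζ - 1)) * S.w =
      h * ((X - C (m ^ 2 / 3)) * m₀ - (C m * (X - C (m ^ 2 / 3)) + C y₀) * n₀) := by
    rw [h1z] at e1
    linear_combination (X - C (m ^ 2 / 3)) * e2 - (C m * (X - C (m ^ 2 / 3)) + C y₀) * e1
  rw [hZ, ← h1z, e1] at hkey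
  obtain ⟨z₁, hz₁⟩ : ∃ z₁, z₁ =
      (X - C (m ^ 2 / 3)) * m₀ - (C m * (X - C (m ^ 2 / 3)) + C y₀) * n₀ := ⟨_, rfl⟩
  rw [← hz₁] at hkey
  obtain ⟨E, hE⟩ : ∃ E, E = z₁ ^ 2 - fP a b * n₀ ^ 2 := ⟨_, rfl⟩
  obtain ⟨W, hW⟩ : ∃ W, h ^ 2 * E = S.w * (X - C (m ^ 2 / 3)) * W := by
    refine ⟨_, Eq.trans ?_ hkey⟩
    rw [hE]
    ring
  rw [← hx₀] at hz₁ hW e1 hp
  have hsdeg : (X - C x₀ : ℂ[X]).natDegree = 1 := natDegree_X_sub_C x₀
  have hz₁d : z₁.natDegree ≤ 2 := by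
    rw [hz₁]
    refine (natDegree_sub_le _ _).trans (max_le ?_ ?_)
    · refine natDegree_mul_le.trans ?_
      omega
    · refine natDegree_mul_le.trans ?_
      have h5 : (C m * (X - C x₀) + C y₀ : ℂ[X]).natDegree ≤ 1 := by
        rw [natDegree_add_C]
        exact (natDegree_C_mul_le m _).trans hsdeg.le
      omega
  have hEd : E.natDegree ≤ 5 := by
    rw [hE]
    refine (natDegree_sub_le _ _).trans (max_le ?_ ?_)
    · have := natDegree_pow_le (p := z₁) (n := 2)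
      omega
    · refine natDegree_mul_le.trans ?_
      have := natDegree_pow_le (p := n₀) (n := 2)
      rw [vt_fdeg]
      omega
  have hNp : (h * n₀).eval S.p = (S.p - x₀) * S.z.eval S.p := by
    rw [← e1]
    simp only [eval_add, eval_mul, eval_sub, eval_X, eval_C, S.w_eval, sub_self]
    rw [zero_pow (by omega)]
    ring
  have hN : h * n₀ ≠ 0 := by
    intro h0
    rw [h0, eval_zero] at hNp
    have h5 : S.p = x₀ := by
      rcases mul_eq_zero.1 hNp.symm with h6 | h6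
      · linear_combination h6
      · exact absurd h6 S.ne
    have h6 : (X - C x₀) * (S.z + C (1 - ζ) * (X - C x₀) ^ (n - 1)) = 0 := by
      rw [← h0, ← e1, Sect.w, h5]
      obtain ⟨k, rfl⟩ : ∃ k, n = k + 1 := ⟨n - 1, by omega⟩
      rw [Nat.add_sub_cancel]
      ring
    have h7 := (mul_eq_zero.1 h6).resolve_left (X_sub_C_ne_zero x₀)
    have h8 := congrArg (eval x₀) h7
    simp only [eval_add, eval_mul, eval_pow, eval_sub, eval_X, eval_C, sub_self, eval_zero] at h8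
    rw [zero_pow (by omega), mul_zero, add_zero, ← h5] at h8
    exact S.ne h8
  have hh : h ≠ 0 := left_ne_zero_of_mul hN
  have hn0 : n₀ ≠ 0 := right_ne_zero_of_mul hN
  have hE0 : E ≠ 0 := by
    intro h0
    rw [hE] at h0
    have h5 : z₁ ^ 2 = fP a b * n₀ ^ 2 := by linear_combination h0
    have hf0 : fP a b ≠ 0 := by
      intro h6
      have h7 := vt_fdeg a b
      rw [h6, natDegree_zero] at h7
      omega
    have h6 := congrArg natDegree h5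
    rw [natDegree_mul hf0 (pow_ne_zero 2 hn0), natDegree_pow, natDegree_pow, vt_fdeg] at h6
    omega
  by_cases hpx : S.p = x₀
  · have h7 : 7 ≤ n := by
      rcases hp with h8 | h8
      · exact absurd hpx h8
      · exact h8
    have hNm : (h * n₀).rootMultiplicity x₀ ≤ 1 := by
      by_contra hlt
      push Not at hlt
      have h8 : (X - C x₀) ^ 2 ∣ h * n₀ := (le_rootMultiplicity_iff hN).1 hlt
      obtain ⟨u, hu⟩ := h8
      have h9 : h * n₀ = (X - C x₀) * (S.z + C (1 - ζ) * (X - C x₀) ^ (n - 1)) := by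
        rw [← e1, Sect.w, hpx]
        obtain ⟨k, rfl⟩ : ∃ k, n = k + 1 := ⟨n - 1, by omega⟩
        rw [Nat.add_sub_cancel]
        ring
      have h10 : (X - C x₀) * (S.z + C (1 - ζ) * (X - C x₀) ^ (n - 1)) =
          (X - C x₀) * ((X - C x₀) * u) := by
        rw [← h9, hu]
        ring
      have h11 := mul_left_cancel₀ (X_sub_C_ne_zero x₀) h10
      have h12 := congrArg (eval x₀) h11
      simp only [eval_add, eval_mul, eval_pow, eval_sub, eval_X, eval_C, sub_self, zero_mul] at h12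
      rw [zero_pow (by omega), mul_zero, add_zero, ← hpx] at h12
      exact S.ne h12
    have hhm : h.rootMultiplicity x₀ ≤ 1 := by
      rw [rootMultiplicity_mul hN] at hNm
      omega
    have h8 : (X - C x₀) ^ (n + 1) ∣ h ^ 2 * E := by
      rw [hW, Sect.w, hpx]
      exact ⟨W, by ring⟩
    have h9 : h ^ 2 * E ≠ 0 := mul_ne_zero (pow_ne_zero 2 hh) hE0
    have h10 := (le_rootMultiplicity_iff h9).2 h8
    have h11 : h ^ 2 ≠ 0 := pow_ne_zero 2 hh
    rw [rootMultiplicity_mul h9, pow_two, rootMultiplicity_mul (by rw [← pow_two]; exact h11)]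
      at h10
    have h12 : (X - C x₀) ^ (E.rootMultiplicity x₀) ∣ E := (le_rootMultiplicity_iff hE0).1 le_rfl
    have h13 := natDegree_le_of_dvd h12 hE0
    rw [natDegree_pow, hsdeg] at h13
    omega
  · have hhp : h.eval S.p ≠ 0 := by
      intro h5
      rw [eval_mul, h5, zero_mul] at hNp
      rcases mul_eq_zero.1 hNp.symm with h6 | h6
      · exact hpx (by linear_combination h6)
      · exact S.ne h6
    have hhx : h.eval x₀ ≠ 0 := by
      intro h5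
      have h6 := congrArg (eval x₀) e1
      simp only [eval_add, eval_mul, eval_sub, eval_X, eval_C, S.w_eval, sub_self, zero_mul,
        zero_add, h5] at h6
      rcases mul_eq_zero.1 h6 with h7 | h7
      · exact hζ1 h7
      · exact hpx (by linear_combination -(pow_eq_zero_iff (by omega) |>.1 h7))
    have c1 : IsCoprime (X - C S.p) h := by
      rw [(irreducible_X_sub_C S.p).coprime_iff_not_dvd, dvd_iff_isRoot]
      exact hhp
    have c2 : IsCoprime (X - C x₀) h := by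
      rw [(irreducible_X_sub_C x₀).coprime_iff_not_dvd, dvd_iff_isRoot]
      exact hhx
    have c3 : IsCoprime ((X - C S.p) ^ n * (X - C x₀)) (h ^ 2) :=
      IsCoprime.mul_left (c1.pow) (c2.pow_right)
    have h5 : (X - C S.p) ^ n * (X - C x₀) ∣ h ^ 2 * E := ⟨W, hW⟩
    have h6 := c3.dvd_of_dvd_mul_left h5
    have h7 := natDegree_le_of_dvd h6 hE0
    rw [natDegree_mul (pow_ne_zero n (X_sub_C_ne_zero S.p)) (X_sub_C_ne_zero x₀), natDegree_pow,
      natDegree_X_sub_C, natDegree_X_sub_C] at h7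
    omega

end Pool.Agent.Helper19.ND
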