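import Pool.Agent.Helper19.ND.Fib
import Pool.Agent.Helper19.ND.Mob
import Pool.Agent.Helper19.ND.VOne
import Pool.Agent.Helper19.ND.VTwo
import Pool.Agent.Helper19.ND.LMinv

/-!
# ND-14: the curves of different flexes are different

Write `x₀ = m²/3`, `L = LM m x₀ y₀`, `Γᵢ(t) = Sᵢ.at' t`, `L⁻¹ = L²` (`LM_cube`). For a vector `v`:
`(L⁻¹ v)₂ = B(v)/(2 y₀)`, `(L⁻¹ v)₀ = s(v) + x₀ (L⁻¹ v)₂`, where `s(v) = v₀ - x₀ v₂`,
`B(v) = -(v₁ + m s(v) + y₀ v₂)`. `cub (L v) = cub v` (`cub_LM`).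
PROOF. As in ND-10: remove from `T` the pairs with `z₁(x) w₁(x) = 0`, and those with
`z₂(t) w₂(t) = 0` (for each of the finitely many `t` only finitely many `x`, by ND-09 with
`v = L⁻¹ Γ₂(t) ≠ 0`). For the remaining pairs `(x, t)`, `L Γ₁(x) = c Γ₂(t)`, `w₁(x)³ = c³ w₂(t)³`;
fix `ζ`, `ζ³ = 1`, with `w₁(x) = ζ c w₂(t)` for an infinite set `T''`. Then `Γ₁(x) = c L⁻¹ Γ₂(t)` and
  `x z₁(x) = Γ₁(x)₀ - w₁(x) = c ((L⁻¹ Γ₂(t))₀ - ζ w₂(t))`, `z₁(x) = c (L⁻¹ Γ₂(t))₂`,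
so `x M(t) = N(t)`, `M(t) ≠ 0` with the polynomials
  `M = -(y₂ + (m (X - x₀) + y₀) z₂ + m w₂)/(2 y₀)`,
  `N = (X - x₀) z₂ + w₂ + x₀ M - ζ w₂`
(`Γ₂ = (X z₂ + w₂, y₂, z₂)`, `s(Γ₂) = (X - x₀) z₂ + w₂`). Similarly
  `t z₂(t) = Γ₂(t)₀ - w₂(t) = c⁻¹ ((L Γ₁(x))₀ - ζ² w₁(x))`, `z₂(t) = c⁻¹ (L Γ₁(x))₂ ≠ 0`.
`mobius` (with `N', M'` the two polynomials on the right) gives `N = h n₁`, `M = h m₁` with
`natDegree ≤ 1`. So `(X - x₀) z₂ + (1 - ζ) w₂ = N - x₀ M = h (n₁ - x₀ m₁)` and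
`y₂ + (m (X - x₀) + y₀) z₂ + m w₂ = h (-2 y₀ m₁)`. If `ζ = 1` this contradicts ND-11, if
`ζ² + ζ + 1 = 0` it contradicts ND-12.
-/

set_option autoImplicit false

open Polynomial

namespace Pool.Agent.Helper19.ND

private theorem LM_rel {m x₀ y₀ : ℂ} (hy : y₀ ≠ 0) (u : Fin 3 → ℂ) :
    2 * y₀ * u 2 = -((LM m x₀ y₀).mulVec u 1 +
      m * ((LM m x₀ y₀).mulVec u 0 - x₀ * (LM m x₀ y₀).mulVec u 2) +
        y₀ * (LM m x₀ y₀).mulVec u 2) ∧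
    u 0 - x₀ * u 2 = (LM m x₀ y₀).mulVec u 0 - x₀ * (LM m x₀ y₀).mulVec u 2 := by
  constructor <;>
  · simp only [LM, Matrix.mulVec, dotProduct, Fin.sum_univ_three, Matrix.of_apply,
      Matrix.cons_val', Matrix.cons_val_zero, Matrix.cons_val_one, Matrix.cons_val]
    field_simp
    ring

private theorem cub_smul' (a b c : ℂ) (v : Fin 3 → ℂ) : cub a b (c • v) = c ^ 3 * cub a b v := by
  simp only [cub, Pi.smul_apply, smul_eq_mul]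
  ring

/-- ND-14 -/
theorem cross {a b m y₀ : ℂ} {n : ℕ} (hF : FlexData a b m y₀) (hn : 5 ≤ n) (S₁ S₂ : Sect a b n)
    (hp : S₂.p ≠ m ^ 2 / 3 ∨ 7 ≤ n) {T : Set (ℂ × ℂ)} (hT : (Prod.fst '' T).Infinite)
    (h : ∀ q ∈ T, ∃ c : ℂ, c ≠ 0 ∧
      (LM m (m ^ 2 / 3) y₀).mulVec (S₁.at' q.1) = c • S₂.at' q.2) : False := by
  obtain ⟨x₀, hx₀⟩ : ∃ x₀, x₀ = m ^ 2 / 3 := ⟨_, rfl⟩
  have hy := hF.hy
  have hL := LM_cube (m := m) (x₀ := x₀) hy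
  have hcubL : ∀ v, cub a b ((LM m x₀ y₀).mulVec v) = cub a b v := by
    intro v
    rw [hx₀]
    exact cub_LM hF v
  rw [← hx₀] at h
  obtain ⟨L, hLd⟩ : ∃ L, L = LM m x₀ y₀ := ⟨_, rfl⟩
  have hrelL := fun u => LM_rel (m := m) (x₀ := x₀) hy u
  rw [← hLd] at h hL hcubL
  simp only [← hLd] at hrelL
  have hL1 : ∀ v, (L * L).mulVec (L.mulVec v) = v := by
    intro v
    rw [Matrix.mulVec_mulVec, hL, Matrix.one_mulVec]
  have hL2 : ∀ v, L.mulVec ((L * L).mulVec v) = v := by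
    intro v
    rw [Matrix.mulVec_mulVec, ← mul_assoc, hL, Matrix.one_mulVec]
  have hfin : ∀ S : Sect a b n, {x : ℂ | S.z.eval x = 0 ∨ S.w.eval x = 0}.Finite := by
    intro S
    have hw : S.w ≠ 0 := by
      intro h0
      have := S.w_natDegree
      rw [h0, natDegree_zero] at this
      omega
    have h1 : {x : ℂ | S.z.eval x = 0}.Finite := S.z.finite_setOfPred_isRoot S.z_ne
    have h2 : {x : ℂ | S.w.eval x = 0}.Finite := S.w.finite_setOfPred_isRoot hw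
    exact h1.union h2
  obtain ⟨Bad, hBad⟩ : ∃ Bad : Set ℂ, Bad = {x : ℂ | S₁.z.eval x = 0 ∨ S₁.w.eval x = 0} ∪
      ⋃ t ∈ {x : ℂ | S₂.z.eval x = 0 ∨ S₂.w.eval x = 0},
        {x : ℂ | ∃ c : ℂ, S₁.at' x = c • (L * L).mulVec (S₂.at' t)} := ⟨_, rfl⟩
  have hBf : Bad.Finite := by
    rw [hBad]
    refine (hfin S₁).union ((hfin S₂).biUnion fun t _ => ?_)
    refine fib_finite S₁ (by omega) (fun h0 => ?_)
    have := hL2 (S₂.at' t)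
    rw [h0, Matrix.mulVec_zero] at this
    exact S₂.at_ne (by omega) t this.symm
  have hgood : ∀ q ∈ T, q.1 ∉ Bad → S₁.z.eval q.1 ≠ 0 ∧ S₁.w.eval q.1 ≠ 0 ∧
      S₂.z.eval q.2 ≠ 0 ∧ S₂.w.eval q.2 ≠ 0 := by
    intro q hq hb
    rw [hBad] at hb
    simp only [Set.mem_union, Set.mem_ofPred_eq, Set.mem_iUnion, not_or, exists_prop, not_exists,
      not_and] at hb
    obtain ⟨⟨h1, h2⟩, h3⟩ := hb
    obtain ⟨c, _, hc⟩ := h q hq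
    have hc' : S₁.at' q.1 = c • (L * L).mulVec (S₂.at' q.2) := by
      rw [← Matrix.mulVec_smul, ← hc, hL1]
    refine ⟨h1, h2, fun h4 => h3 q.2 (Or.inl h4) c hc', fun h4 => h3 q.2 (Or.inr h4) c hc'⟩
  obtain ⟨TT, hTT⟩ : ∃ TT : ℂ → Set (ℂ × ℂ), TT = fun ζ => {q | q ∈ T ∧ q.1 ∉ Bad ∧
      ∃ c : ℂ, c ≠ 0 ∧ L.mulVec (S₁.at' q.1) = c • S₂.at' q.2 ∧
        S₁.w.eval q.1 = ζ * c * S₂.w.eval q.2} := ⟨_, rfl⟩
  have hroots : {ζ : ℂ | ζ ^ 3 = 1}.Finite := by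
    have : ((X : ℂ[X]) ^ 3 - 1) ≠ 0 := by
      intro h0
      have := congrArg (eval 0) h0
      simp at this
    refine (((X : ℂ[X]) ^ 3 - 1).finite_setOfPred_isRoot this).subset fun ζ hζ => ?_
    simp only [Set.mem_ofPred_eq] at hζ
    simp [IsRoot.def, hζ]
  have hex : ∃ ζ : ℂ, ζ ^ 3 = 1 ∧ (Prod.fst '' TT ζ).Infinite := by
    by_contra hcon
    push Not at hcon
    have hU : (⋃ ζ ∈ {ζ : ℂ | ζ ^ 3 = 1}, Prod.fst '' TT ζ).Finite := by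
      refine hroots.biUnion fun ζ hζ => ?_
      exact hcon ζ hζ
    apply hT
    refine (hU.union hBf).subset ?_
    rintro x ⟨q, hq, rfl⟩
    by_cases hb : q.1 ∈ Bad
    · exact Or.inr hb
    left
    obtain ⟨c, hc, hcc⟩ := h q hq
    obtain ⟨h1, h2, h3, h4⟩ := hgood q hq hb
    have hcub : S₁.w.eval q.1 ^ 3 = c ^ 3 * S₂.w.eval q.2 ^ 3 := by
      rw [← S₁.cub_at, ← S₂.cub_at, ← hcubL, hcc, cub_smul']
    simp only [Set.mem_iUnion, exists_prop]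
    refine ⟨S₁.w.eval q.1 / (c * S₂.w.eval q.2), ?_, q, ?_, rfl⟩
    · show (S₁.w.eval q.1 / (c * S₂.w.eval q.2)) ^ 3 = 1
      rw [div_pow, hcub, mul_pow]
      exact div_self (mul_ne_zero (pow_ne_zero _ hc) (pow_ne_zero _ h4))
    · rw [hTT]
      refine ⟨hq, hb, c, hc, hcc, ?_⟩
      field_simp
  obtain ⟨ζ, hζ, hinf⟩ := hex
  have hTi : (TT ζ).Infinite := Set.Infinite.of_image _ hinf
  obtain ⟨M, hM⟩ : ∃ M : ℂ[X], M = C (-1 / (2 * y₀)) *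
    (S₂.y + (C m * (X - C x₀) + C y₀) * S₂.z + C m * S₂.w) := ⟨_, rfl⟩
  obtain ⟨N, hN⟩ : ∃ N : ℂ[X], N = (X - C x₀) * S₂.z + C (1 - ζ) * S₂.w + C x₀ * M := ⟨_, rfl⟩
  obtain ⟨M', hM'⟩ : ∃ M' : ℂ[X], M' = C (L 2 0) * (X * S₁.z + S₁.w) + C (L 2 1) * S₁.y
    + C (L 2 2) * S₁.z := ⟨_, rfl⟩
  obtain ⟨N', hN'⟩ : ∃ N' : ℂ[X], N' = C (L 0 0) * (X * S₁.z + S₁.w) + C (L 0 1) * S₁.y
    + C (L 0 2) * S₁.z - C (ζ ^ 2) * S₁.w := ⟨_, rfl⟩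
  have hM'e : ∀ x, M'.eval x = L.mulVec (S₁.at' x) 2 := by
    intro x
    rw [hM']
    simp only [Matrix.mulVec, dotProduct, Fin.sum_univ_three, S₁.at_zero, S₁.at_one, S₁.at_two,
      eval_add, eval_mul, eval_X, eval_C]
  have hN'e : ∀ x, N'.eval x = L.mulVec (S₁.at' x) 0 - ζ ^ 2 * S₁.w.eval x := by
    intro x
    rw [hN']
    simp only [Matrix.mulVec, dotProduct, Fin.sum_univ_three, S₁.at_zero, S₁.at_one, S₁.at_two,
      eval_add, eval_mul, eval_X, eval_C, eval_sub]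
  have hMe : ∀ t, 2 * y₀ * M.eval t = -(S₂.y.eval t + (m * (t - x₀) + y₀) * S₂.z.eval t
      + m * S₂.w.eval t) := by
    intro t
    rw [hM]
    simp only [eval_add, eval_mul, eval_X, eval_C, eval_sub]
    field_simp
  have hNe : ∀ t, N.eval t = (t - x₀) * S₂.z.eval t + (1 - ζ) * S₂.w.eval t + x₀ * M.eval t := by
    intro t
    rw [hN]
    simp only [eval_add, eval_mul, eval_X, eval_C, eval_sub]
  have hkey : ∀ q ∈ TT ζ, (M.eval q.2 ≠ 0 ∧ q.1 * M.eval q.2 = N.eval q.2) ∧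
      (M'.eval q.1 ≠ 0 ∧ q.2 * M'.eval q.1 = N'.eval q.1) := by
    intro q hq
    rw [hTT] at hq
    obtain ⟨hq, hb, c, hc, hcc, hw⟩ := hq
    obtain ⟨h1, h2, h3, h4⟩ := hgood q hq hb
    obtain ⟨r1, r2⟩ := hrelL (S₁.at' q.1)
    rw [hM'e, hN'e]
    rw [hcc] at r1 r2 ⊢
    simp only [Pi.smul_apply, smul_eq_mul, S₂.at_zero, S₂.at_one, S₂.at_two, S₁.at_zero,
      S₁.at_two] at r1 r2 ⊢
    have hz1 : S₁.z.eval q.1 = c * M.eval q.2 := by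
      have h2y : (2 : ℂ) * y₀ ≠ 0 := mul_ne_zero two_ne_zero hy
      apply mul_left_cancel₀ h2y
      linear_combination r1 - c * hMe q.2
    have hMne : M.eval q.2 ≠ 0 := by
      intro h0
      rw [h0, mul_zero] at hz1
      exact h1 hz1
    refine ⟨⟨hMne, ?_⟩, mul_ne_zero hc h3, ?_⟩
    · apply mul_left_cancel₀ hc
      rw [hNe]
      linear_combination r2 - hw - (q.1 - x₀) * hz1
    · rw [hw]
      linear_combination (c * S₂.w.eval q.2) * hζ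
  obtain ⟨g, n₁, m₁, hNg, hMg, _, hn₁, hm₁⟩ := mobius hTi (fun q hq => (hkey q hq).1)
    (fun q hq => (hkey q hq).2)
  have e1 : (X - C x₀) * S₂.z + C (1 - ζ) * S₂.w = g * (n₁ - C x₀ * m₁) := by
    linear_combination hNg - hN - C x₀ * hMg
  have hyC : (C (-(2 * y₀)) : ℂ[X]) * C (-1 / (2 * y₀)) = 1 := by
    rw [← C_mul, ← C_1]
    congr 1
    field_simp
  have e2 : S₂.y + (C m * (X - C x₀) + C y₀) * S₂.z + C m * S₂.w = g * (C (-(2 * y₀)) * m₁) := by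
    have h1 : C (-(2 * y₀)) * M = g * (C (-(2 * y₀)) * m₁) := by
      rw [hMg]
      ring
    rw [← h1, hM, ← mul_assoc, hyC, one_mul]
  have hd1 : (n₁ - C x₀ * m₁).natDegree ≤ 1 := by
    refine (natDegree_sub_le _ _).trans (max_le hn₁ ?_)
    exact (natDegree_C_mul_le _ _).trans hm₁
  have hd2 : (C (-(2 * y₀)) * m₁).natDegree ≤ 1 := (natDegree_C_mul_le _ _).trans hm₁
  have hfac : (ζ - 1) * (ζ ^ 2 + ζ + 1) = 0 := by linear_combination hζ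
  rcases mul_eq_zero.1 hfac with hz | hz
  · have hz1 : ζ = 1 := sub_eq_zero.1 hz
    rw [hz1, sub_self, C_0, zero_mul, add_zero] at e1
    rw [hx₀] at e1 e2
    rw [hx₀] at hd1
    exact v_one hF S₂ (by omega) hd1 e1 e2
  · rw [hx₀] at e1 e2
    rw [hx₀] at hd1
    exact v_two hF S₂ hn hp hz hd1 hd2 e1 e2

end Pool.Agent.Helper19.ND
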