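import Pool.Agent.Helper19.ND.Fib
import Pool.Agent.Helper19.ND.Mob

/-!
# ND-10: two sections with the same curve are equal

Write `Γᵢ(t) = Sᵢ.at' t = (t zᵢ + wᵢ, yᵢ, zᵢ)(t)`; by `Sect.cub_at`, `cub (Γᵢ(t)) = wᵢ(t)³` and
`cub (c • v) = c³ cub v`.
PROOF. Remove from `T` all pairs `(x, t)` with `z₁(x) = 0` or `w₁(x) = 0` (finitely many `x`) and
all pairs with `z₂(t) = 0` or `w₂(t) = 0` (finitely many `t`, and for each of them finitely many `x`
by ND-09, with `v = S₂.at' t ≠ 0`). The set of first coordinates of the remaining pairs is still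
infinite; call them `T'`. For `(x, t) ∈ T'`, `Γ₁(x) = c Γ₂(t)`: `w₁(x)³ = c³ w₂(t)³`, so
`ζ := w₁(x)/(c w₂(t))` has `ζ³ = 1`. There are only finitely many `ζ`; fix one for which the set
`T''` of pairs is infinite. For `(x, t) ∈ T''`:
`x z₁(x) = Γ₁(x)₀ - w₁(x) = c (Γ₂(t)₀ - ζ w₂(t))` and `z₁(x) = c z₂(t)`, so
`x z₂(t) = t z₂(t) + (1 - ζ) w₂(t)`; in the same way (`ζ⁻¹ = ζ²`) `t z₁(x) = x z₁(x) + (1 - ζ²) w₁(x)`.
* `ζ ≠ 1`: apply `mobius` with `N = X z₂ + C (1-ζ) w₂`, `M = z₂`, `N' = X z₁ + C (1-ζ²) w₁`,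
  `M' = z₁`: `N = h n₁`, `M = h m₁`, `natDegree m₁ ≤ 1`. As `natDegree z₂ = n - 1 ≥ 2`, `h` has degree
  `≥ 1`, so it has a root `t`: `z₂(t) = 0` and `w₂(t) = 0` (as `1 - ζ ≠ 0`), so `t = p₂` and
  `z₂(p₂) = 0`, against `ne`.
* `ζ = 1`: `x = t` (as `z₂(t) ≠ 0`), for infinitely many `x`, with `Γ₁(x) = c Γ₂(x)` and
  `w₁(x) = c w₂(x)`. So `z₁ w₂ = z₂ w₁` and `y₁ w₂ = y₂ w₁` as polynomials. If `p₁ ≠ p₂` then
  `w₁ = (X - p₁)^n` is coprime to `w₂`, divides `z₁ w₂`, so divides `z₁` which has degree `n - 1`: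
  contradiction. So `p₁ = p₂`, `w₁ = w₂ ≠ 0`, `z₁ = z₂`, `y₁ = y₂`, and any element of `T''` is the
  required pair.
-/

set_option autoImplicit false

open Polynomial

namespace Pool.Agent.Helper19.ND

private theorem eqv_of_inf {P Q : ℂ[X]} {A : Set ℂ} (hA : A.Infinite)
    (h : ∀ x ∈ A, P.eval x = Q.eval x) : P = Q :=
  Polynomial.eq_of_infinite_eval_eq P Q (hA.mono h)

/-- ND-10 -/
theorem uniq {a b : ℂ} {n : ℕ} (hn : 3 ≤ n) (S₁ S₂ : Sect a b n) {T : Set (ℂ × ℂ)}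
    (hT : (Prod.fst '' T).Infinite)
    (h : ∀ q ∈ T, ∃ c : ℂ, c ≠ 0 ∧ S₁.at' q.1 = c • S₂.at' q.2) :
    S₁.z = S₂.z ∧ S₁.y = S₂.y ∧ S₁.p = S₂.p ∧ ∃ q ∈ T, q.1 = q.2 := by
  have hfin : ∀ S : Sect a b n, {x : ℂ | S.z.eval x = 0 ∨ S.w.eval x = 0}.Finite := by
    intro S
    have hw : S.w ≠ 0 := by
      intro h0
      have := S.w_natDegree
      rw [h0, natDegree_zero] at this
      omega
    have h1 : {x : ℂ | S.z.eval x = 0}.Finite := S.z.finite_setOfPred_isRoot S.z_ne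
    have h2 : {x : ℂ | S.w.eval x = 0}.Finite := S.w.finite_setOfPred_isRoot hw
    exact h1.union h2
  obtain ⟨Bad, hBad⟩ : ∃ Bad : Set ℂ, Bad = {x : ℂ | S₁.z.eval x = 0 ∨ S₁.w.eval x = 0} ∪
      ⋃ t ∈ {x : ℂ | S₂.z.eval x = 0 ∨ S₂.w.eval x = 0},
        {x : ℂ | ∃ c : ℂ, S₁.at' x = c • S₂.at' t} := ⟨_, rfl⟩
  have hBf : Bad.Finite := by
    rw [hBad]
    refine (hfin S₁).union ((hfin S₂).biUnion fun t _ => ?_)
    exact fib_finite S₁ (by omega) (S₂.at_ne (by omega) t)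
  have hgood : ∀ q ∈ T, q.1 ∉ Bad → S₁.z.eval q.1 ≠ 0 ∧ S₁.w.eval q.1 ≠ 0 ∧
      S₂.z.eval q.2 ≠ 0 ∧ S₂.w.eval q.2 ≠ 0 := by
    intro q hq hb
    rw [hBad] at hb
    simp only [Set.mem_union, Set.mem_ofPred_eq, Set.mem_iUnion, not_or, exists_prop, not_exists,
      not_and] at hb
    obtain ⟨⟨h1, h2⟩, h3⟩ := hb
    obtain ⟨c, _, hc⟩ := h q hq
    refine ⟨h1, h2, fun h4 => h3 q.2 (Or.inl h4) c hc, fun h4 => h3 q.2 (Or.inr h4) c hc⟩
  obtain ⟨TT, hTT⟩ : ∃ TT : ℂ → Set (ℂ × ℂ), TT = fun ζ => {q | q ∈ T ∧ q.1 ∉ Bad ∧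
      ∃ c : ℂ, c ≠ 0 ∧ S₁.at' q.1 = c • S₂.at' q.2 ∧ S₁.w.eval q.1 = ζ * c * S₂.w.eval q.2} :=
    ⟨_, rfl⟩
  have hroots : {ζ : ℂ | ζ ^ 3 = 1}.Finite := by
    have : ((X : ℂ[X]) ^ 3 - 1) ≠ 0 := by
      intro h0
      have := congrArg (eval 0) h0
      simp at this
    refine (((X : ℂ[X]) ^ 3 - 1).finite_setOfPred_isRoot this).subset fun ζ hζ => ?_
    simp only [Set.mem_ofPred_eq] at hζ
    simp [IsRoot.def, hζ]
  have hex : ∃ ζ : ℂ, ζ ^ 3 = 1 ∧ (Prod.fst '' TT ζ).Infinite := by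
    by_contra hcon
    push Not at hcon
    have hU : (⋃ ζ ∈ {ζ : ℂ | ζ ^ 3 = 1}, Prod.fst '' TT ζ).Finite := by
      refine hroots.biUnion fun ζ hζ => ?_
      exact hcon ζ hζ
    apply hT
    refine (hU.union hBf).subset ?_
    rintro x ⟨q, hq, rfl⟩
    by_cases hb : q.1 ∈ Bad
    · exact Or.inr hb
    left
    obtain ⟨c, hc, hcc⟩ := h q hq
    obtain ⟨h1, h2, h3, h4⟩ := hgood q hq hb
    have hcub : S₁.w.eval q.1 ^ 3 = c ^ 3 * S₂.w.eval q.2 ^ 3 := by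
      rw [← S₁.cub_at, ← S₂.cub_at, hcc]
      simp only [cub, Pi.smul_apply, smul_eq_mul]
      ring
    simp only [Set.mem_iUnion, exists_prop]
    refine ⟨S₁.w.eval q.1 / (c * S₂.w.eval q.2), ?_, q, ?_, rfl⟩
    · show (S₁.w.eval q.1 / (c * S₂.w.eval q.2)) ^ 3 = 1
      rw [div_pow, hcub, mul_pow]
      exact div_self (mul_ne_zero (pow_ne_zero _ hc) (pow_ne_zero _ h4))
    · rw [hTT]
      refine ⟨hq, hb, c, hc, hcc, ?_⟩
      field_simp
  obtain ⟨ζ, hζ, hinf⟩ := hex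
  have hζ0 : ζ ≠ 0 := by
    rintro rfl
    norm_num at hζ
  have hrel : ∀ q ∈ TT ζ, q ∈ T ∧ S₁.z.eval q.1 ≠ 0 ∧ S₂.z.eval q.2 ≠ 0 ∧
      ∃ c : ℂ, c ≠ 0 ∧ S₁.z.eval q.1 = c * S₂.z.eval q.2 ∧ S₁.y.eval q.1 = c * S₂.y.eval q.2 ∧
        S₁.w.eval q.1 = ζ * c * S₂.w.eval q.2 ∧
        q.1 * S₂.z.eval q.2 = q.2 * S₂.z.eval q.2 + (1 - ζ) * S₂.w.eval q.2 ∧
        q.2 * S₁.z.eval q.1 = q.1 * S₁.z.eval q.1 + (1 - ζ ^ 2) * S₁.w.eval q.1 := by
    intro q hq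
    rw [hTT] at hq
    obtain ⟨hq, hb, c, hc, hcc, hw⟩ := hq
    obtain ⟨h1, h2, h3, h4⟩ := hgood q hq hb
    have e0 := congrFun hcc 0
    have e1 := congrFun hcc 1
    have e2 := congrFun hcc 2
    rw [Pi.smul_apply, smul_eq_mul] at e0 e1 e2
    rw [S₁.at_zero, S₂.at_zero] at e0
    rw [S₁.at_one, S₂.at_one] at e1
    rw [S₁.at_two, S₂.at_two] at e2
    have e3 : q.1 * S₂.z.eval q.2 = q.2 * S₂.z.eval q.2 + (1 - ζ) * S₂.w.eval q.2 := by
      have : c * (q.1 * S₂.z.eval q.2) =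
          c * (q.2 * S₂.z.eval q.2 + (1 - ζ) * S₂.w.eval q.2) := by
        rw [e2, hw] at e0
        linear_combination e0
      exact mul_left_cancel₀ hc this
    refine ⟨hq, h1, h3, c, hc, e2, e1, hw, e3, ?_⟩
    rw [hw, e2]
    linear_combination (-c) * e3 + c * S₂.w.eval q.2 * hζ
  by_cases hz1 : ζ = 1
  · subst hz1
    have hxt : ∀ q ∈ TT 1, q.1 = q.2 := by
      intro q hq
      obtain ⟨_, _, h3, c, hc, _, _, _, e3, _⟩ := hrel q hq
      have : q.1 * S₂.z.eval q.2 = q.2 * S₂.z.eval q.2 := by rw [e3]; ring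
      exact mul_right_cancel₀ h3 this
    have hzw : S₁.z * S₂.w = S₂.z * S₁.w := by
      refine eqv_of_inf hinf ?_
      rintro x ⟨q, hq, rfl⟩
      obtain ⟨_, _, h3, c, hc, e2, e1, hw, _, _⟩ := hrel q hq
      have hx := hxt q hq
      rw [← hx] at e2 hw
      rw [eval_mul, eval_mul, e2, hw]
      ring
    have hyw : S₁.y * S₂.w = S₂.y * S₁.w := by
      refine eqv_of_inf hinf ?_
      rintro x ⟨q, hq, rfl⟩
      obtain ⟨_, _, h3, c, hc, e2, e1, hw, _, _⟩ := hrel q hq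
      have hx := hxt q hq
      rw [← hx] at e1 hw
      rw [eval_mul, eval_mul, e1, hw]
      ring
    have hp : S₁.p = S₂.p := by
      by_contra hne
      have hcop : IsCoprime S₁.w S₂.w := by
        unfold Sect.w
        exact (isCoprime_X_sub_C_of_isUnit_sub (sub_ne_zero.2 hne).isUnit).pow
      have hdvd : S₁.w ∣ S₁.z * S₂.w := by
        rw [hzw]
        exact Dvd.intro_left _ rfl
      have hdvd2 := hcop.dvd_of_dvd_mul_right hdvd
      have := natDegree_le_of_dvd hdvd2 S₁.z_ne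
      rw [S₁.w_natDegree, S₁.deg] at this
      omega
    have hww : S₁.w = S₂.w := by
      unfold Sect.w
      rw [hp]
    have hw0 : S₂.w ≠ 0 := by
      intro h0
      have := S₂.w_natDegree
      rw [h0, natDegree_zero] at this
      omega
    rw [hww] at hzw hyw
    obtain ⟨x, q, hq, _⟩ := hinf.nonempty
    exact ⟨mul_right_cancel₀ hw0 hzw, mul_right_cancel₀ hw0 hyw, hp, q, (hrel q hq).1, hxt q hq⟩
  · exfalso
    have hTi : (TT ζ).Infinite := Set.Infinite.of_image _ hinf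
    obtain ⟨g, n₁, m₁, hN, hM, _, _, hm⟩ := mobius (N := X * S₂.z + C (1 - ζ) * S₂.w)
      (M := S₂.z) (N' := X * S₁.z + C (1 - ζ ^ 2) * S₁.w) (M' := S₁.z) hTi
      (fun q hq => by
        obtain ⟨_, _, h3, c, hc, e2, e1, hw, e3, e4⟩ := hrel q hq
        refine ⟨h3, ?_⟩
        simp only [eval_add, eval_mul, eval_X, eval_C]
        exact e3)
      (fun q hq => by
        obtain ⟨_, h1, h3, c, hc, e2, e1, hw, e3, e4⟩ := hrel q hq
        refine ⟨h1, ?_⟩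
        simp only [eval_add, eval_mul, eval_X, eval_C]
        exact e4)
    have hdeg : 1 ≤ g.natDegree := by
      have h1 : S₂.z.natDegree ≤ g.natDegree + m₁.natDegree := by
        rw [hM]
        exact natDegree_mul_le
      rw [S₂.deg] at h1
      omega
    obtain ⟨t, ht⟩ := IsAlgClosed.exists_root g (by
      intro h0
      have := natDegree_eq_zero_iff_degree_le_zero.2 h0.le
      omega)
    have ht0 : g.eval t = 0 := ht
    have hz : S₂.z.eval t = 0 := by rw [hM, eval_mul, ht0, zero_mul]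
    have hNt : (X * S₂.z + C (1 - ζ) * S₂.w).eval t = 0 := by
      rw [hN, eval_mul, ht0, zero_mul]
    simp only [eval_add, eval_mul, eval_X, eval_C, hz, mul_zero, zero_add] at hNt
    have hw : S₂.w.eval t = 0 := by
      rcases mul_eq_zero.1 hNt with h1 | h1
      · exact absurd (sub_eq_zero.1 h1).symm hz1
      · exact h1
    rw [S₂.w_eval] at hw
    have : t = S₂.p := sub_eq_zero.1 (pow_eq_zero_iff (by omega) |>.1 hw)
    rw [this] at hz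
    exact S₂.ne hz

end Pool.Agent.Helper19.ND
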