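import Pool.Agent.Helper19.ND.PDefs
import Pool.Agent.Helper19.ND.Uniq

/-!
# ND-15: the curves are rational curves of degree `n` and meet the cubic once

PROOF. `φ = parM M S`, so `φ(t) = M Γ(t)` (`parM_eval`), and the vector of the coefficients of `X^n`
is `M v∞` with `v∞ = (S.z.leadingCoeff + 1, S.y.coeff n, 0)` (`coeff_zero`, `coeff_two`).
* `natDegree ≤ n`: `natDegree (X z + w) ≤ n`, `y_natDegree`, `natDegree z = n - 1`.
* non-vanishing: `M` is injective, `at_ne`, `lead_ne`.
* the set of `t` for which some `t' ≠ t` has `φ(t') = c φ(t)`: then `Γ(t') = c Γ(t)` and `c ≠ 0`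
  (`at_ne`). If it were infinite, apply `uniq` with `S₁ = S₂ = S` and
  `T = {(t, t') | t' ≠ t, Γ(t') = c Γ(t)}` (so `Γ(t) = c⁻¹ Γ(t')`): it gives a pair with `t = t'`.
* the intersection with the cubic: `cub` is invariant under `M` (`hc`) and homogeneous of degree 3
  (`P.rep` is a multiple of any representative); `cub (Γ(t)) = w(t)³ = (t - p)^(3n)` vanishes only at
  `t = p`, and `cub v∞ = (S.z.leadingCoeff + 1)³ = 1`. So the only point is that of `t = p`.
-/

set_option autoImplicit false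

open Polynomial
open scoped LinearAlgebra.Projectivization

namespace Pool.Agent.Helper19.ND

private theorem par_natDegree {a b : ℂ} {n : ℕ} (hn : 1 ≤ n) (S : Sect a b n) (j : Fin 3) :
    (S.par j).natDegree ≤ n := by
  fin_cases j
  · show (X * S.z + S.w).natDegree ≤ n
    refine natDegree_add_le_of_degree_le ?_ S.w_natDegree.le
    refine natDegree_mul_le.trans ?_
    rw [natDegree_X, S.deg]
    omega
  · exact S.y_natDegree hn
  · show S.z.natDegree ≤ n
    rw [S.deg]
    omega

private theorem parM_natDegree {a b : ℂ} {n : ℕ} (hn : 1 ≤ n) (S : Sect a b n)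
    (M : Matrix (Fin 3) (Fin 3) ℂ) (i : Fin 3) : (parM M S i).natDegree ≤ n := by
  unfold parM
  refine natDegree_sum_le_of_forall_le _ _ (fun j _ => ?_)
  exact (natDegree_C_mul_le _ _).trans (par_natDegree hn S j)

private theorem parM_coeff {a b : ℂ} {n : ℕ} (S : Sect a b n) (M : Matrix (Fin 3) (Fin 3) ℂ)
    (k : ℕ) : (fun i => (parM M S i).coeff k) = M.mulVec (fun j => (S.par j).coeff k) := by
  funext i
  simp [parM, Matrix.mulVec, dotProduct, finsetSum_coeff, coeff_C_mul]

private theorem cub_smul (a b c : ℂ) (v : Fin 3 → ℂ) : cub a b (c • v) = c ^ 3 * cub a b v := by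
  simp only [cub, Pi.smul_apply, smul_eq_mul]
  ring

private theorem cub_rep (a b : ℂ) {v : Fin 3 → ℂ} (hv : v ≠ 0) :
    Projectivization.mk ℂ v hv ∈ cubic a b ↔ cub a b v = 0 := by
  obtain ⟨u, hu⟩ := Projectivization.exists_smul_eq_mk_rep ℂ v hv
  show cub a b (Projectivization.mk ℂ v hv).rep = 0 ↔ cub a b v = 0
  rw [← hu]
  have h1 : u • v = (u : ℂ) • v := rfl
  rw [h1, cub_smul]
  constructor
  · intro h
    rcases mul_eq_zero.1 h with h2 | h2
    · exact absurd h2 (pow_ne_zero _ u.ne_zero)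
    · exact h2
  · intro h
    rw [h, mul_zero]

private theorem cub_inf {a b : ℂ} {n : ℕ} (hn : 1 ≤ n) (S : Sect a b n) :
    cub a b (fun j => (S.par j).coeff n) = 1 := by
  have h0 : (S.par 0).coeff n = S.z.leadingCoeff + 1 := S.coeff_zero hn
  have h2 : (S.par 2).coeff n = 0 := S.coeff_two hn
  simp only [cub, h0, h2]
  linear_combination S.lead_cube

/-- ND-15 -/
theorem curve_ok {a b : ℂ} {n : ℕ} (hn : 3 ≤ n) (S : Sect a b n) {M : Matrix (Fin 3) (Fin 3) ℂ}
    (hM : Function.Injective M.mulVec) (hc : ∀ v, cub a b (M.mulVec v) = cub a b v) :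
    IsRationalCurve n (image n (parM M S)) ∧ ∃ P, image n (parM M S) ∩ cubic a b = {P} := by
  have hn1 : 1 ≤ n := by omega
  have hM0 : ∀ v, M.mulVec v = 0 → v = 0 := by
    intro v h
    apply hM
    rw [h, Matrix.mulVec_zero]
  have hinf : (fun j => (S.par j).coeff n) ≠ 0 := by
    intro h
    have h1 := cub_inf hn1 S
    rw [h] at h1
    simp [cub] at h1
  refine ⟨⟨parM M S, parM_natDegree hn1 S M, ?_, ?_, rfl, ?_⟩, ?_⟩
  · intro t h
    rw [parM_eval] at h
    exact S.at_ne hn1 t (hM0 _ h)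
  · intro h
    rw [parM_coeff] at h
    exact hinf (hM0 _ h)
  · by_contra hI
    have hI' : {t : ℂ | ∃ t' : ℂ, t' ≠ t ∧ ∃ c : ℂ, ∀ i,
        (parM M S i).eval t' = c * (parM M S i).eval t}.Infinite := hI
    obtain ⟨_, _, _, q, hq, hqq⟩ := uniq hn S S
      (T := {q : ℂ × ℂ | q.2 ≠ q.1 ∧ ∃ c : ℂ, c ≠ 0 ∧ S.at' q.1 = c • S.at' q.2})
      (hI'.mono (by
        rintro t ⟨t', htt, c, hc⟩
        refine ⟨(t, t'), ⟨htt, ?_⟩, rfl⟩
        have h1 : M.mulVec (S.at' t') = M.mulVec (c • S.at' t) := by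
          rw [Matrix.mulVec_smul, ← parM_eval, ← parM_eval]
          funext i
          exact hc i
        have h2 := hM h1
        have hc0 : c ≠ 0 := by
          rintro rfl
          rw [zero_smul] at h2
          exact S.at_ne hn1 t' h2
        refine ⟨c⁻¹, inv_ne_zero hc0, ?_⟩
        show S.at' t = c⁻¹ • S.at' t'
        rw [h2, smul_smul, inv_mul_cancel₀ hc0, one_smul])) (fun q hq => hq.2)
    exact hq.1 hqq.symm
  · have hp : (fun i => (parM M S i).eval S.p) ≠ 0 := by
      intro h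
      rw [parM_eval] at h
      exact S.at_ne hn1 _ (hM0 _ h)
    refine ⟨Projectivization.mk ℂ _ hp, ?_⟩
    apply Set.eq_singleton_iff_unique_mem.2
    refine ⟨⟨⟨_, hp, rfl, Or.inl ⟨S.p, rfl⟩⟩, ?_⟩, ?_⟩
    · rw [cub_rep, parM_eval, hc, S.cub_at, S.w_eval, sub_self, zero_pow (by omega), zero_pow (by omega)]
    · rintro Q ⟨⟨v, hv, rfl, hvv⟩, hQ⟩
      rw [cub_rep] at hQ
      rcases hvv with ⟨t, rfl⟩ | rfl
      · rw [parM_eval, hc, S.cub_at, S.w_eval] at hQ
        have h1 : t = S.p := sub_eq_zero.1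
          (pow_eq_zero_iff (by omega) |>.1 (pow_eq_zero_iff (by omega) |>.1 hQ))
        subst h1
        rfl
      · exfalso
        rw [parM_coeff, hc, cub_inf hn1 S] at hQ
        exact one_ne_zero hQ

end Pool.Agent.Helper19.ND
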