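import Mathlib

/-!
# Rational curves meeting a smooth plane cubic at one point: definitions
-/

set_option autoImplicit false

open Polynomial

namespace Pool.Agent.Helper19.ND

/-- the Weierstrass curve `y² = x³ + a x + b` -/
abbrev EC (a b : ℂ) : WeierstrassCurve.Affine ℂ := ⟨0, 0, 0, a, b⟩

/-- the cubic form `x³ + a x z² + b z³ - y² z` -/
def cub (a b : ℂ) (v : Fin 3 → ℂ) : ℂ := v 0 ^ 3 + a * v 0 * v 2 ^ 2 + b * v 2 ^ 3 - v 1 ^ 2 * v 2

/-- `f = X³ + a X + b` -/
noncomputable def fP (a b : ℂ) : ℂ[X] := X ^ 3 + C a * X + C b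

/-- `f' = 3 X² + a` -/
noncomputable def dfP (a : ℂ) : ℂ[X] := C 3 * X ^ 2 + C a

/-- A section of degree `n` of the conic bundle `y² = f z² + f' z w + 3 X w²` with
`w = (X - p)^n`: the solutions `(z, y)` in polynomials, `z` of degree `n - 1`, with `z(p) ≠ 0`. -/
structure Sect (a b : ℂ) (n : ℕ) where
  z : ℂ[X]
  y : ℂ[X]
  p : ℂ
  conic : y ^ 2 = fP a b * z ^ 2 + dfP a * z * (X - C p) ^ n + C 3 * X * ((X - C p) ^ n) ^ 2
  deg : z.natDegree = n - 1
  lead : (z.leadingCoeff + 1) ^ 2 + (z.leadingCoeff + 1) + 1 = 0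
  ne : z.eval p ≠ 0

namespace Sect

variable {a b : ℂ} {n : ℕ}

/-- the polynomial `w` -/
noncomputable def w (S : Sect a b n) : ℂ[X] := (X - C S.p) ^ n

/-- the parametrised plane curve `(X z + w, y, z)` -/
noncomputable def par (S : Sect a b n) : Fin 3 → ℂ[X] := ![X * S.z + S.w, S.y, S.z]

/-- its point with parameter `t` -/
noncomputable def at' (S : Sect a b n) (t : ℂ) : Fin 3 → ℂ := fun i => (S.par i).eval t

end Sect

/-- Data of a flex `(m²/3, y)`: the tangent there is `Y = m (X - m²/3) + y` and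
`f = (X - m²/3)³ + (m (X - m²/3) + y)²`. -/
structure FlexData (a b m y : ℂ) : Prop where
  hy : y ≠ 0
  ha : a = 2 * m * y - m ^ 4 / 3
  hb : b = y ^ 2 - 2 / 3 * m ^ 3 * y + 2 / 27 * m ^ 6

/-- the linear map of the plane attached to a flex with slope `m` and coordinates `(x₀, y₀)`;
it maps a point `P` of the cubic to `P - T`, `T = (x₀, y₀)` -/
noncomputable def LM (m x₀ y₀ : ℂ) : Matrix (Fin 3) (Fin 3) ℂ :=
  !![1 - x₀ * m / (2 * y₀), x₀ / (2 * y₀), -x₀ + x₀ * (m * x₀ - y₀) / (2 * y₀);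
     -m / 2, -1 / 2, -y₀ + (m * x₀ - y₀) / 2;
     -m / (2 * y₀), 1 / (2 * y₀), (m * x₀ - y₀) / (2 * y₀)]

/-- homogeneous coordinates of a point of the cubic -/
def rep {a b : ℂ} : (EC a b).Point → Fin 3 → ℂ
  | .zero => ![0, 1, 0]
  | .some x y _ => ![x, y, 1]

/-- the linear map attached to a point of order dividing 3 -/
noncomputable def Mt {a b : ℂ} : (EC a b).Point → Matrix (Fin 3) (Fin 3) ℂ
  | .zero => 1
  | .some x y _ => LM ((3 * x ^ 2 + a) / (2 * y)) x y

/-- `n`-torsion points -/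
def tors (a b : ℂ) (n : ℕ) : Set (EC a b).Point := {P | n • P = 0}

end Pool.Agent.Helper19.ND
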