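import Pool.Agent.Helper19.ND.Conic

/-!
# ND-02: the degree of `zz`

PROOF. `sP m` is monic of degree 1, `gP` has degree `≤ 1`. Let `p = natDegree u`, `q = natDegree v`.
The three terms of `ww = s u² + 2 g u v - s² v²` have degrees `2p + 1` (if `u ≠ 0`), `≤ p + q + 1`,
`2q + 2` (if `v ≠ 0`). The degree of `ww = (X - x₀)^n` is `n ≥ 2`.
* If `2p + 1 > 2q + 2` or `v = 0` (and `u ≠ 0`): the first term wins (`p + q + 1 ≤ 2 p < 2p + 1` if
  `v ≠ 0`, as then `q ≤ p - 1`), so `n = 2p + 1` is odd, and comparing leading coefficients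
  `lc(u)² = 1`. In `zz = (-2-ω) u² - 2m u v + (1-ω) s v²` the first term has degree `2p = n - 1`,
  the others have degree `≤ p + q ≤ 2p - 1` and `≤ 2q + 1 ≤ 2p - 1`. As `-2-ω ≠ 0`
  (otherwise `ω² + ω + 1 = 3 ≠ 0`), `natDegree zz = n - 1`, leading coefficient `-2-ω`.
* Otherwise `v ≠ 0` and (`u = 0` or `p ≤ q`): the last term wins, `n = 2q + 2` is even and
  `-lc(v)² = 1`. In `zz` the last term has degree `2q + 1 = n - 1` and leading coefficient
  `(1-ω) lc(v)² = ω - 1 ≠ 0`, the others have degree `≤ 2p ≤ 2q` and `≤ p + q ≤ 2q`.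
(`u = v = 0` is impossible since `ww ≠ 0`.)
-/

set_option autoImplicit false

open Polynomial

namespace Pool.Agent.Helper19.ND

private theorem lead_of (f : ℂ[X]) (N : ℕ) (c : ℂ) (h1 : f.natDegree ≤ N) (h2 : f.coeff N = c)
    (h3 : c ≠ 0) : f.natDegree = N ∧ f.leadingCoeff = c := by
  have h : f.natDegree = N := natDegree_eq_of_le_of_coeff_ne_zero h1 (by rw [h2]; exact h3)
  exact ⟨h, by rw [leadingCoeff, h, h2]⟩

private theorem small (f : ℂ[X]) (N k : ℕ) (h : f.natDegree ≤ k) (hk : k < N) : f.coeff N = 0 :=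
  coeff_eq_zero_of_natDegree_lt (lt_of_le_of_lt h hk)

private theorem dsub {f g : ℂ[X]} {N : ℕ} (hf : f.natDegree ≤ N) (hg : g.natDegree ≤ N) :
    (f - g).natDegree ≤ N :=
  (natDegree_sub_le f g).trans (max_le hf hg)

private theorem sP_deg (m : ℂ) : (sP m).natDegree ≤ 1 := by
  unfold sP
  exact natDegree_X_sub_C_le _

private theorem sP_coeff (m : ℂ) : (sP m).coeff 1 = 1 := by
  unfold sP
  rw [coeff_sub, coeff_X_one, coeff_C]
  norm_num

private theorem gP_deg (m y : ℂ) : (gP m y).natDegree ≤ 1 := by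
  unfold gP
  refine natDegree_add_le_of_degree_le ?_ ?_
  · exact (natDegree_C_mul_le _ _).trans (sP_deg m)
  · rw [natDegree_C]
    exact Nat.zero_le _

/-- ND-02 -/
theorem zz_degree {m y₁ ω p : ℂ} (hω : ω ^ 2 + ω + 1 = 0) {n : ℕ} (hn : 2 ≤ n) {u v : ℂ[X]}
    (hw : ww m y₁ u v = (X - C p) ^ n) :
    (zz m ω u v).natDegree = n - 1 ∧
      (zz m ω u v).leadingCoeff = if n % 2 = 1 then -2 - ω else ω - 1 := by
  have hwn : (ww m y₁ u v).natDegree = n := by
    rw [hw, natDegree_pow, natDegree_X_sub_C, mul_one]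
  have hwl : (ww m y₁ u v).leadingCoeff = 1 := by
    rw [hw]
    exact ((monic_X_sub_C p).pow n).leadingCoeff
  have hs := sP_deg m
  have hs2 : (sP m ^ 2).natDegree ≤ 2 := by
    refine natDegree_pow_le.trans ?_
    omega
  have hs1 := sP_coeff m
  have hs21 : (sP m ^ 2).coeff (2 * 1) = 1 := by
    rw [coeff_pow_of_natDegree_le hs, hs1, one_pow]
  have hg := gP_deg m y₁
  have hω1 : -2 - ω ≠ 0 := by
    intro h
    have h1 : ω = -2 := by linear_combination -h
    rw [h1] at hω
    norm_num at hω
  have hω2 : ω - 1 ≠ 0 := by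
    intro h
    have h1 : ω = 1 := by linear_combination h
    rw [h1] at hω
    norm_num at hω
  by_cases hcase : v = 0 ∨ v.natDegree < u.natDegree
  · -- the first term wins
    have hu : u ≠ 0 := by
      rintro rfl
      rcases hcase with rfl | h
      · have h1 : ww m y₁ 0 0 = 0 := by simp [ww]
        rw [h1, leadingCoeff_zero] at hwl
        exact zero_ne_one hwl
      · rw [natDegree_zero] at h
        omega
    have hlu : u.leadingCoeff ≠ 0 := leadingCoeff_ne_zero.mpr hu
    have hu2 : (u ^ 2).natDegree ≤ 2 * u.natDegree := natDegree_pow_le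
    have hu2c : (u ^ 2).coeff (2 * u.natDegree) = u.leadingCoeff ^ 2 := by
      rw [coeff_pow_of_natDegree_le le_rfl]
      rfl
    have hA : (sP m * u ^ 2).natDegree ≤ 1 + 2 * u.natDegree :=
      natDegree_mul_le.trans (add_le_add hs hu2)
    have hAc : (sP m * u ^ 2).coeff (1 + 2 * u.natDegree) = u.leadingCoeff ^ 2 := by
      rw [coeff_mul_add_eq_of_natDegree_le hs hu2, hs1, hu2c, one_mul]
    have hB : (C 2 * gP m y₁ * u * v).natDegree ≤ 2 * u.natDegree := by
      rcases hcase with rfl | h
      · simp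
      · refine natDegree_mul_le.trans ?_
        have h1 : (C 2 * gP m y₁ * u).natDegree ≤ 1 + u.natDegree :=
          natDegree_mul_le.trans (add_le_add ((natDegree_C_mul_le _ _).trans hg) le_rfl)
        omega
    have hC : (sP m ^ 2 * v ^ 2).natDegree ≤ 2 * u.natDegree := by
      rcases hcase with rfl | h
      · simp
      · refine natDegree_mul_le.trans ?_
        have h1 : (v ^ 2).natDegree ≤ 2 * v.natDegree := natDegree_pow_le
        omega
    have hwd : (ww m y₁ u v).natDegree ≤ 1 + 2 * u.natDegree := by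
      unfold ww
      refine dsub (natDegree_add_le_of_degree_le hA (hB.trans (by omega)))
        (hC.trans (by omega))
    have hwc : (ww m y₁ u v).coeff (1 + 2 * u.natDegree) = u.leadingCoeff ^ 2 := by
      unfold ww
      rw [coeff_sub, coeff_add, hAc, small _ _ _ hB (by omega), small _ _ _ hC (by omega)]
      ring
    obtain ⟨e1, e2⟩ := lead_of _ _ _ hwd hwc (pow_ne_zero 2 hlu)
    rw [hwn] at e1
    rw [hwl] at e2
    have hzd1 : (C (-2 - ω) * u ^ 2).natDegree ≤ 2 * u.natDegree :=
      (natDegree_C_mul_le _ _).trans hu2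
    have hzd2 : (C (2 * m) * u * v).natDegree ≤ 2 * u.natDegree := by
      rcases hcase with rfl | h
      · simp
      · refine natDegree_mul_le.trans ?_
        have h1 : (C (2 * m) * u).natDegree ≤ u.natDegree := natDegree_C_mul_le _ _
        omega
    have hzd3 : (C (1 - ω) * sP m * v ^ 2).natDegree ≤ 2 * u.natDegree := by
      rcases hcase with rfl | h
      · simp
      · refine natDegree_mul_le.trans ?_
        have h0 : (C (1 - ω) * sP m).natDegree ≤ 1 := (natDegree_C_mul_le _ _).trans hs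
        have h1 : (v ^ 2).natDegree ≤ 2 * v.natDegree := natDegree_pow_le
        omega
    have hzc2 : (C (2 * m) * u * v).coeff (2 * u.natDegree) = 0 := by
      rcases hcase with rfl | h
      · simp
      · refine small _ _ (u.natDegree + v.natDegree) ?_ (by omega)
        refine natDegree_mul_le.trans ?_
        have h1 : (C (2 * m) * u).natDegree ≤ u.natDegree := natDegree_C_mul_le _ _
        omega
    have hzc3 : (C (1 - ω) * sP m * v ^ 2).coeff (2 * u.natDegree) = 0 := by
      rcases hcase with rfl | h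
      · simp
      · refine small _ _ (1 + 2 * v.natDegree) ?_ (by omega)
        refine natDegree_mul_le.trans ?_
        have h0 : (C (1 - ω) * sP m).natDegree ≤ 1 := (natDegree_C_mul_le _ _).trans hs
        have h1 : (v ^ 2).natDegree ≤ 2 * v.natDegree := natDegree_pow_le
        omega
    have hzd : (zz m ω u v).natDegree ≤ 2 * u.natDegree := by
      unfold zz
      exact natDegree_add_le_of_degree_le (dsub hzd1 hzd2) hzd3
    have hzc : (zz m ω u v).coeff (2 * u.natDegree) = -2 - ω := by
      unfold zz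
      rw [coeff_add, coeff_sub, hzc2, hzc3, coeff_C_mul, hu2c, ← e2]
      ring
    obtain ⟨e3, e4⟩ := lead_of _ _ _ hzd hzc hω1
    refine ⟨by omega, ?_⟩
    rw [e4, if_pos (by omega)]
  · -- the last term wins
    push Not at hcase
    obtain ⟨hv, hle⟩ := hcase
    have hlv : v.leadingCoeff ≠ 0 := leadingCoeff_ne_zero.mpr hv
    have hv2 : (v ^ 2).natDegree ≤ 2 * v.natDegree := natDegree_pow_le
    have hv2c : (v ^ 2).coeff (2 * v.natDegree) = v.leadingCoeff ^ 2 := by
      rw [coeff_pow_of_natDegree_le le_rfl]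
      rfl
    have hu2 : (u ^ 2).natDegree ≤ 2 * u.natDegree := natDegree_pow_le
    have hA : (sP m * u ^ 2).natDegree ≤ 1 + 2 * v.natDegree := by
      refine natDegree_mul_le.trans ?_
      omega
    have hB : (C 2 * gP m y₁ * u * v).natDegree ≤ 1 + 2 * v.natDegree := by
      refine natDegree_mul_le.trans ?_
      have h1 : (C 2 * gP m y₁ * u).natDegree ≤ 1 + u.natDegree :=
        natDegree_mul_le.trans (add_le_add ((natDegree_C_mul_le _ _).trans hg) le_rfl)
      omega
    have hC : (sP m ^ 2 * v ^ 2).natDegree ≤ 2 * 1 + 2 * v.natDegree := by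
      refine natDegree_mul_le.trans ?_
      omega
    have hCc : (sP m ^ 2 * v ^ 2).coeff (2 * 1 + 2 * v.natDegree) = v.leadingCoeff ^ 2 := by
      rw [coeff_mul_add_eq_of_natDegree_le (by omega) hv2, hs21, hv2c, one_mul]
    have hwd : (ww m y₁ u v).natDegree ≤ 2 * 1 + 2 * v.natDegree := by
      unfold ww
      refine dsub (natDegree_add_le_of_degree_le (hA.trans (by omega))
        (hB.trans (by omega))) hC
    have hwc : (ww m y₁ u v).coeff (2 * 1 + 2 * v.natDegree) = -v.leadingCoeff ^ 2 := by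
      unfold ww
      rw [coeff_sub, coeff_add, hCc, small _ _ _ hA (by omega), small _ _ _ hB (by omega)]
      ring
    obtain ⟨e1, e2⟩ := lead_of _ _ _ hwd hwc (neg_ne_zero.mpr (pow_ne_zero 2 hlv))
    rw [hwn] at e1
    rw [hwl] at e2
    have hzd1 : (C (-2 - ω) * u ^ 2).natDegree ≤ 2 * v.natDegree :=
      (natDegree_C_mul_le _ _).trans (by omega)
    have hzd2 : (C (2 * m) * u * v).natDegree ≤ 2 * v.natDegree := by
      refine natDegree_mul_le.trans ?_
      have h1 : (C (2 * m) * u).natDegree ≤ u.natDegree := natDegree_C_mul_le _ _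
      omega
    have h0 : (C (1 - ω) * sP m).natDegree ≤ 1 := (natDegree_C_mul_le _ _).trans hs
    have hzd3 : (C (1 - ω) * sP m * v ^ 2).natDegree ≤ 1 + 2 * v.natDegree := by
      refine natDegree_mul_le.trans ?_
      omega
    have hzc3 : (C (1 - ω) * sP m * v ^ 2).coeff (1 + 2 * v.natDegree) =
        (1 - ω) * v.leadingCoeff ^ 2 := by
      rw [coeff_mul_add_eq_of_natDegree_le h0 hv2, coeff_C_mul, hs1, hv2c, mul_one]
    have hzd : (zz m ω u v).natDegree ≤ 1 + 2 * v.natDegree := by
      unfold zz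
      exact natDegree_add_le_of_degree_le (dsub (hzd1.trans (by omega))
        (hzd2.trans (by omega))) hzd3
    have hzc : (zz m ω u v).coeff (1 + 2 * v.natDegree) = ω - 1 := by
      unfold zz
      rw [coeff_add, coeff_sub, hzc3, small _ _ _ hzd1 (by omega), small _ _ _ hzd2 (by omega)]
      linear_combination (1 - ω) * e2
    obtain ⟨e3, e4⟩ := lead_of _ _ _ hzd hzc hω2
    refine ⟨by omega, ?_⟩
    rw [e4, if_neg (by omega)]

end Pool.Agent.Helper19.ND
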