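import Mathlib

/-!
# ND-05: the contact point (pure algebra in ℂ)

`g = m s + y₁`. PROOF. If `v = 0`: `s u = 0`, `u ≠ 0`, so `s = 0`, `Y₀² = y₁²`, `Y₀ = -y₁` by `ht`;
`z = (-2-ω) u²` and `y = u² y₁ (2 + ω) = Y₀ z`, and `-2-ω ≠ 0`.
If `v ≠ 0`: `s = 0` would give `v (g - Y₀) = 0`, `Y₀ = g = y₁`, against `ht`. So `s ≠ 0`,
`u = v (Y₀ - g)/s`. Put `p = Y₀ - g`, `q = Y₀ + g`, `p q = s³`. Then
`s² z = v² p ((ω' - ω) p - 2 ω g + 2 y₁)` with `ω' = -1-ω` (use `p q = s³`, `m s = g - y₁`), and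
`s² y = Y₀ s² z` (identity, use `p q = s³`, `Y₀ = (p + q)/2`, `g = (q - p)/2`).
If `z = 0`: `p = 0` is impossible (`s³ = p q`); so `(ω' - ω)(Y₀ - g) = 2 ω g - 2 y₁`, i.e.
`(ω' - ω) Y₀ = -g - 2 y₁ = -(m s + 3 y₁)`; squaring, `(ω' - ω)² = -3`:
`-3 (s³ + g²) = (m s + 3 y₁)²`, i.e. `3 s³ + 4 m² s² + 12 m y₁ s + 12 y₁² = 0`, against `hl`.
-/

set_option autoImplicit false

namespace Pool.Agent.Helper19.ND

/-- ND-05 -/
theorem contact {s m y₁ Y₀ u v ω : ℂ} (hω : ω ^ 2 + ω + 1 = 0) (hy : y₁ ≠ 0)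
    (hf : Y₀ ^ 2 = s ^ 3 + (m * s + y₁) ^ 2) (huv : u ≠ 0 ∨ v ≠ 0)
    (hK : s * u + v * (m * s + y₁ - Y₀) = 0) (ht : ¬ (s = 0 ∧ Y₀ = y₁))
    (hl : 3 * s ^ 3 + 4 * m ^ 2 * s ^ 2 + 12 * m * y₁ * s + 12 * y₁ ^ 2 ≠ 0) :
    (-2 - ω) * u ^ 2 - 2 * m * u * v + (1 - ω) * s * v ^ 2 ≠ 0 ∧
    u ^ 2 * (y₁ + (1 + ω) * (m * s + y₁)) - (2 * ω + 1) * s ^ 2 * u * v
        + s * v ^ 2 * (y₁ - ω * (m * s + y₁))
      = Y₀ * ((-2 - ω) * u ^ 2 - 2 * m * u * v + (1 - ω) * s * v ^ 2) := by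
  by_cases hv : v = 0
  · have hu : u ≠ 0 := by
      rcases huv with h | h
      · exact h
      · exact absurd hv h
    subst hv
    have hs : s = 0 := by
      have h1 : s * u = 0 := by linear_combination hK
      rcases mul_eq_zero.1 h1 with h2 | h2
      · exact h2
      · exact absurd h2 hu
    subst hs
    have hne : Y₀ - y₁ ≠ 0 := fun h1 => ht ⟨rfl, sub_eq_zero.1 h1⟩
    have hY : Y₀ = -y₁ := by
      have h1 : (Y₀ - y₁) * (Y₀ + y₁) = 0 := by linear_combination hf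
      rcases mul_eq_zero.1 h1 with h2 | h2
      · exact absurd h2 hne
      · linear_combination h2
    have hω2 : (-2 - ω : ℂ) ≠ 0 := by
      intro h1
      have h2 : (3 : ℂ) = 0 := by linear_combination hω + (ω - 1) * h1
      norm_num at h2
    constructor
    · have h1 : (-2 - ω) * u ^ 2 ≠ 0 := mul_ne_zero hω2 (pow_ne_zero 2 hu)
      intro h2
      apply h1
      linear_combination h2
    · rw [hY]
      ring
  · have hs : s ≠ 0 := by
      intro h0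
      subst h0
      have h1 : v * (y₁ - Y₀) = 0 := by linear_combination hK
      rcases mul_eq_zero.1 h1 with h2 | h2
      · exact hv h2
      · exact ht ⟨rfl, by linear_combination -h2⟩
    have hp : Y₀ - (m * s + y₁) ≠ 0 := by
      intro h1
      have h2 : s ^ 3 = 0 := by
        linear_combination (Y₀ + (m * s + y₁)) * h1 - hf
      exact hs (pow_eq_zero_iff (n := 3) (by norm_num) |>.1 h2)
    constructor
    · intro hz
      have h1 : v ^ 2 * (Y₀ - (m * s + y₁)) *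
          ((-1 - 2 * ω) * (Y₀ - (m * s + y₁)) - 2 * ω * (m * s + y₁) + 2 * y₁) = 0 := by
        linear_combination s ^ 2 * hz - ((-2 - ω) * (2 * v * (Y₀ - (m * s + y₁)) +
          (s * u + v * (m * s + y₁ - Y₀))) - 2 * m * s * v) * hK + (1 - ω) * v ^ 2 * hf
      rcases mul_eq_zero.1 h1 with h2 | h2
      · rcases mul_eq_zero.1 h2 with h3 | h3
        · exact hv (pow_eq_zero_iff (n := 2) (by norm_num) |>.1 h3)
        · exact hp h3
      · apply hl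
        have h3 : (-1 - 2 * ω) * Y₀ = -(m * s + 3 * y₁) := by linear_combination h2
        linear_combination (-((-1 - 2 * ω) * Y₀) + (m * s + 3 * y₁)) * h3 + 4 * Y₀ ^ 2 * hω - 3 * hf
    · have h1 : s ^ 2 * ((u ^ 2 * (y₁ + (1 + ω) * (m * s + y₁)) - (2 * ω + 1) * s ^ 2 * u * v
          + s * v ^ 2 * (y₁ - ω * (m * s + y₁))) -
          Y₀ * ((-2 - ω) * u ^ 2 - 2 * m * u * v + (1 - ω) * s * v ^ 2)) = 0 := by
        linear_combination (v ^ 2 * ((2 * ω + 1) * (Y₀ - (m * s + y₁)) - y₁ + ω * (m * s + y₁) +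
          (1 - ω) * Y₀)) * hf + (2 * (y₁ + (1 + ω) * (m * s + y₁) - Y₀ * (-2 - ω)) * v *
          (Y₀ - (m * s + y₁)) + (y₁ + (1 + ω) * (m * s + y₁) - Y₀ * (-2 - ω)) *
          (s * u + v * (m * s + y₁ - Y₀)) + (-(2 * ω + 1) * s ^ 2 + 2 * m * Y₀) * s * v) * hK
      rcases mul_eq_zero.1 h1 with h2 | h2
      · exact absurd (pow_eq_zero_iff (n := 2) (by norm_num) |>.1 h2) hs
      · exact sub_eq_zero.1 h2

end Pool.Agent.Helper19.ND
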