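import Pool.Agent.Helper19.ND.Defs

/-!
# ND-03: the function with divisor `n (-Q) + (-T) - (n + 1) O`

`R = (EC a b).CoordinateRing` is free over `ℂ[X]` with basis `1, Y` (`CoordinateRing.basis`,
`exists_smul_basis_eq`, `smul_basis_eq_zero`), a domain, the norm of `α + β Y` is `α² - β² f`
(`norm_smul_basis`). For a point `P = (x, y)` write `I_P = XYIdeal W x (C y)`; `-P = (x, -y)`,
`I_(-P) I_P = (X - x)` (`XYIdeal_neg_mul`); `XYIdeal'` is `I_P` as an invertible fractional ideal;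
`Point.toClass` maps `P` to the class of `I_P`.

PROOF. `-(n • Q + T) = n • (-Q) + (-T) = 0`, so `toClass` gives: the class of
`I_(-Q)^n I_(-T)` is trivial, hence (`ClassGroup.mk_eq_one_of_coe_ideal`) there is `K ≠ 0` with
`(K) = I_(-Q)^n I_(-T)`. Write `K = α + β Y`, `K' = α - β Y`. The automorphism `Y ↦ -Y` maps
`I_(-P)` to `I_P`, so `(K') = I_Q^n I_T` and `(K K') = (X - X₀)^n (X - x₁)`, where
`K K' = α² - β² f =: N ∈ ℂ[X]`. Both `N` and `M := (X - X₀)^n (X - x₁)` lie in `ℂ[X]` and each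
divides the other in `R`; as `R` is free over `ℂ[X]` with basis `1, Y`, each divides the other in
`ℂ[X]` (if `M = N (γ + δ Y)` then `δ N = 0`, so `δ = 0`, `M = N γ`). So `N = c M`, `c ≠ 0`.
(To avoid the automorphism: `N = K K'` lies in ... alternatively use `Algebra.norm`, the norm of the
ideals; any way is fine.)
`K ∈ I_(-T)`: evaluate at `(x₁, -y₁)` (a ring hom `R → ℂ` which kills `I_(-T)`): `α(x₁) = β(x₁) y₁`.
Similarly (`n ≥ 1`) `K ∈ I_(-Q)`: `α(X₀) = β(X₀) Y₀`.
LAST CLAUSE. Let `α = (X - X₀) α'`, `β = (X - X₀) β'`, `K₁ = α' + β' Y`, so `K = (X - X₀) K₁`, and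
`α'(x₁) = β'(x₁) y₁`, i.e. `K₁ ∈ I_(-T)` (an element `α' + β' Y` vanishing at `(x₁, -y₁)` is in
`I_(-T)`: `α' + β' Y = β' (Y + y₁) + (α' - β' y₁)` and `X - x₁` divides `α' - β' y₁`).
As `I_(-T)` is invertible, `(K₁) = I_(-T) J` for an ideal `J` of `R`.
Then `I_Q I_(-Q) I_(-T) J = (K) = I_(-Q)^n I_(-T)`; cancel the invertible `I_(-Q) I_(-T)`:
`I_Q J = I_(-Q)^(n-1)`. So `I_(-Q)^(n-1) ≤ I_Q`; `I_Q` is prime (the quotient is `ℂ`,
`quotientXYIdealEquiv`), so `n ≥ 2` and `I_(-Q) ≤ I_Q`; then `Y + Y₀ ∈ I_Q`, evaluate at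
`(X₀, Y₀)`: `2 Y₀ = 0`.
-/

set_option autoImplicit false

open Polynomial WeierstrassCurve WeierstrassCurve.Affine

namespace Pool.Agent.Helper19.ND

/-- The class of `Y`. -/
private noncomputable abbrev yy' (a b : ℂ) : (EC a b).CoordinateRing :=
  CoordinateRing.mk (EC a b) X

private theorem poly_eq (a b : ℂ) : (EC a b).polynomial = X ^ 2 - C (fP a b) := by
  unfold polynomial fP
  simp

private theorem eval₂_poly {S : Type*} [CommRing S] (a b : ℂ) (φ : ℂ[X] →+* S) (s : S) :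
    (EC a b).polynomial.eval₂ φ s = s ^ 2 - φ (fP a b) := by
  rw [poly_eq, eval₂_sub, eval₂_pow, eval₂_X, eval₂_C]

/-- Evaluation at a point. -/
private noncomputable def ev {a b x y : ℂ} (h : (EC a b).Equation x y) :
    (EC a b).CoordinateRing →+* ℂ :=
  AdjoinRoot.lift (evalRingHom x) y (by
    rw [equation_iff] at h
    rw [poly_eq, eval₂_sub, eval₂_pow, eval₂_X, eval₂_C, coe_evalRingHom]
    simp only [fP, eval_add, eval_mul, eval_pow, eval_X, eval_C]
    linear_combination h)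

private theorem ev_mk {a b x y : ℂ} (h : (EC a b).Equation x y) (p : ℂ[X][X]) :
    ev h (CoordinateRing.mk (EC a b) p) = p.eval₂ (evalRingHom x) y := by
  unfold ev
  exact AdjoinRoot.lift_mk _ _

private theorem basis_mk {a b : ℂ} (p q : ℂ[X]) :
    (p • (1 : (EC a b).CoordinateRing) + q • yy' a b) =
      CoordinateRing.mk (EC a b) (C p + C q * X) := by
  rw [CoordinateRing.smul, CoordinateRing.smul, mul_one, map_add, map_mul]

private theorem ev_basis {a b x y : ℂ} (h : (EC a b).Equation x y) (p q : ℂ[X]) :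
    ev h (CoordinateRing.mk (EC a b) (C p + C q * X)) = p.eval x + q.eval x * y := by
  rw [ev_mk]
  simp

private theorem ev_ideal {a b x y : ℂ} (h : (EC a b).Equation x y)
    {z : (EC a b).CoordinateRing} (hz : z ∈ CoordinateRing.XYIdeal (EC a b) x (C y)) :
    ev h z = 0 := by
  have h1 : CoordinateRing.XYIdeal (EC a b) x (C y) ≤ RingHom.ker (ev h) := by
    unfold CoordinateRing.XYIdeal
    rw [Ideal.span_le]
    intro w hw
    rw [SetLike.mem_coe, RingHom.mem_ker]
    rcases hw with rfl | hw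
    · unfold CoordinateRing.XClass
      rw [ev_mk]
      simp
    · rw [Set.mem_singleton_iff] at hw
      rw [hw]
      unfold CoordinateRing.YClass
      rw [ev_mk]
      simp
  exact RingHom.mem_ker.mp (h1 hz)

/-- The automorphism `Y ↦ -Y`. -/
private noncomputable def cj (a b : ℂ) : (EC a b).CoordinateRing →+* (EC a b).CoordinateRing :=
  AdjoinRoot.lift (AdjoinRoot.of (EC a b).polynomial) (-AdjoinRoot.root (EC a b).polynomial) (by
    have h := AdjoinRoot.eval₂_root (EC a b).polynomial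
    rw [eval₂_poly] at h ⊢
    linear_combination h)

private theorem cj_C (a b : ℂ) (p : ℂ[X]) :
    cj a b (CoordinateRing.mk (EC a b) (C p)) = CoordinateRing.mk (EC a b) (C p) := by
  unfold cj
  refine (AdjoinRoot.lift_mk _ _).trans ?_
  rw [eval₂_C]
  rfl

private theorem cj_Y (a b : ℂ) : cj a b (yy' a b) = -yy' a b := by
  unfold cj
  refine (AdjoinRoot.lift_mk _ _).trans ?_
  rw [eval₂_X]
  rfl

private theorem cj_ideal (a b x y : ℂ) :
    Ideal.map (cj a b) (CoordinateRing.XYIdeal (EC a b) x (C (-y))) =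
      CoordinateRing.XYIdeal (EC a b) x (C y) := by
  unfold CoordinateRing.XYIdeal
  rw [Ideal.map_span, Set.image_pair]
  have h1 : cj a b (CoordinateRing.XClass (EC a b) x) = CoordinateRing.XClass (EC a b) x := by
    unfold CoordinateRing.XClass
    rw [cj_C]
  have h2 : cj a b (CoordinateRing.YClass (EC a b) (C (-y))) =
      -CoordinateRing.YClass (EC a b) (C y) := by
    unfold CoordinateRing.YClass
    rw [map_sub, map_sub, cj_C]
    change cj a b (yy' a b) - _ = _
    rw [cj_Y, map_sub, C_neg, C_neg, map_neg]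
    ring
  rw [h1, h2, Ideal.span_insert, Ideal.span_insert, Ideal.span_singleton_neg]

private theorem negY_eq (a b x y : ℂ) : (EC a b).negY x y = -y := by
  unfold negY
  simp

private theorem id_mul {a b x y : ℂ} (h : (EC a b).Nonsingular x y) :
    CoordinateRing.XYIdeal (EC a b) x (C (-y)) * CoordinateRing.XYIdeal (EC a b) x (C y) =
      Ideal.span {CoordinateRing.mk (EC a b) (C (X - C x))} := by
  have h1 := CoordinateRing.XYIdeal_neg_mul h
  rw [negY_eq] at h1
  exact h1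

private theorem dvd_of {a b : ℂ} {M N : ℂ[X]}
    (h : CoordinateRing.mk (EC a b) (C M) ∣ CoordinateRing.mk (EC a b) (C N)) : M ∣ N := by
  obtain ⟨z, hz⟩ := h
  obtain ⟨γ, δ, rfl⟩ := CoordinateRing.exists_smul_basis_eq z
  have h1 : (N - M * γ) • (1 : (EC a b).CoordinateRing) + (-(M * δ)) • yy' a b = 0 := by
    rw [basis_mk]
    have h2 : (γ • (1 : (EC a b).CoordinateRing) + δ • CoordinateRing.mk (EC a b) X) =
        CoordinateRing.mk (EC a b) (C γ + C δ * X) := basis_mk γ δ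
    rw [h2, ← map_mul] at hz
    have h3 : (C (N - M * γ) + C (-(M * δ)) * X : ℂ[X][X]) = C N - C M * (C γ + C δ * X) := by
      rw [C_sub, C_neg, C_mul, C_mul]
      ring
    rw [h3, map_sub, hz, sub_self]
  obtain ⟨h2, _⟩ := CoordinateRing.smul_basis_eq_zero h1
  exact ⟨γ, by linear_combination h2⟩

private theorem span_lemma {R : Type*} [CommRing R] (Iq Iq' It It' : Ideal R) (n : ℕ)
    (s t K K' : R) (hq : Iq' * Iq = Ideal.span {s}) (ht : It' * It = Ideal.span {t})
    (hK : Iq' ^ n * It' = Ideal.span {K}) (hK' : Ideal.span {K'} = Iq ^ n * It) :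
    Ideal.span {K * K'} = Ideal.span {s ^ n * t} := by
  rw [← Ideal.span_singleton_mul_span_singleton, ← hK, hK']
  have h1 : Iq' ^ n * It' * (Iq ^ n * It) = (Iq' * Iq) ^ n * (It' * It) := by
    rw [mul_pow]
    ring
  rw [h1, hq, ht, Ideal.span_singleton_pow, Ideal.span_singleton_mul_span_singleton]

private theorem le_lemma {R : Type*} [CommRing R] [IsDomain R] (Iq Iq' It It' : Ideal R) (k : ℕ)
    (s t K K₁ : R) (hs : s ≠ 0) (ht0 : t ≠ 0) (hq : Iq' * Iq = Ideal.span {s})
    (ht : It' * It = Ideal.span {t}) (hK : Iq' ^ (k + 1) * It' = Ideal.span {K})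
    (hK1 : K = s * K₁) (hmem : K₁ ∈ It') : Iq' ^ k ≤ Iq := by
  have e1 : Ideal.span {s} * (Ideal.span {K₁} * (Iq * It)) =
      Ideal.span {s} * (Iq' ^ k * Ideal.span {t}) := by
    rw [← ht]
    calc _ = Ideal.span {s} * Ideal.span {K₁} * (Iq * It) := by ring
      _ = Iq' ^ (k + 1) * It' * (Iq * It) := by
          rw [Ideal.span_singleton_mul_span_singleton, ← hK1, hK]
      _ = (Iq' * Iq) * (Iq' ^ k * (It' * It)) := by ring
      _ = _ := by rw [hq]
  rw [Ideal.span_singleton_mul_right_inj hs] at e1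
  have e2 : Ideal.span {t} * Iq' ^ k ≤ Ideal.span {t} * Iq := by
    rw [mul_comm (Ideal.span {t}) (Iq' ^ k), ← e1, ← ht]
    calc Ideal.span {K₁} * (Iq * It) ≤ It' * (Iq * It) := by
          apply Ideal.mul_mono_left
          rw [Ideal.span_singleton_le_iff_mem]
          exact hmem
      _ = _ := by ring
  exact (Ideal.span_singleton_mul_right_mono ht0).mp e2

private theorem exists_gen {a b : ℂ} {n : ℕ} {X₀ Y₀ x₁ y₁ : ℂ}
    (hq : (EC a b).Nonsingular X₀ Y₀) (ht : (EC a b).Nonsingular x₁ y₁)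
    (hsum : n • (Point.some X₀ Y₀ hq : (EC a b).Point) + Point.some x₁ y₁ ht = 0) :
    ∃ K : (EC a b).CoordinateRing, K ≠ 0 ∧
      CoordinateRing.XYIdeal (EC a b) X₀ (C (-Y₀)) ^ n *
        CoordinateRing.XYIdeal (EC a b) x₁ (C (-y₁)) = Ideal.span {K} := by
  have h1 : n • (-(Point.some X₀ Y₀ hq : (EC a b).Point)) + -Point.some x₁ y₁ ht = 0 := by
    have h2 : n • (-(Point.some X₀ Y₀ hq : (EC a b).Point)) + -Point.some x₁ y₁ ht =
        -(n • (Point.some X₀ Y₀ hq : (EC a b).Point) + Point.some x₁ y₁ ht) := by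
      rw [neg_add, neg_nsmul]
    rw [h2, hsum, neg_zero]
  rw [Point.neg_some, Point.neg_some] at h1
  have h3 := congrArg Point.toClass h1
  rw [map_add, map_nsmul, Point.toClass_zero, Point.toClass_some, Point.toClass_some] at h3
  have h4 : ClassGroup.mk (EC a b).FunctionField
      (CoordinateRing.XYIdeal' (W := EC a b) ((nonsingular_neg ..).mpr hq) ^ n *
        CoordinateRing.XYIdeal' (W := EC a b) ((nonsingular_neg ..).mpr ht)) = 1 := by
    rw [map_mul, map_pow]
    exact h3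
  rw [ClassGroup.mk_eq_one_of_coe_ideal
    (I' := CoordinateRing.XYIdeal (EC a b) X₀ (C ((EC a b).negY X₀ Y₀)) ^ n *
      CoordinateRing.XYIdeal (EC a b) x₁ (C ((EC a b).negY x₁ y₁))) (by
        rw [Units.val_mul, Units.val_pow_eq_pow_val, CoordinateRing.XYIdeal'_eq,
          CoordinateRing.XYIdeal'_eq, FractionalIdeal.coeIdeal_mul, FractionalIdeal.coeIdeal_pow])]
    at h4
  obtain ⟨K, hK, h5⟩ := h4
  rw [negY_eq, negY_eq] at h5
  exact ⟨K, hK, h5⟩

/-- ND-03 -/
theorem exists_K {a b : ℂ} {n : ℕ} (hn : 1 ≤ n) {X₀ Y₀ x₁ y₁ : ℂ}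
    (hq : (EC a b).Nonsingular X₀ Y₀) (ht : (EC a b).Nonsingular x₁ y₁)
    (hsum : n • (Point.some X₀ Y₀ hq : (EC a b).Point) + Point.some x₁ y₁ ht = 0) :
    ∃ α β : ℂ[X], (∃ c : ℂ, c ≠ 0 ∧ α ^ 2 - β ^ 2 * fP a b = C c * ((X - C X₀) ^ n * (X - C x₁))) ∧
      α.eval x₁ = β.eval x₁ * y₁ ∧ α.eval X₀ = β.eval X₀ * Y₀ ∧
      ∀ α' β' : ℂ[X], α = (X - C X₀) * α' → β = (X - C X₀) * β' →
        α'.eval x₁ = β'.eval x₁ * y₁ → Y₀ = 0 := by
  obtain ⟨K, hK0, hK⟩ := exists_gen hq ht hsum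
  obtain ⟨α, β, hαβ⟩ := CoordinateRing.exists_smul_basis_eq K
  have hKe : K = CoordinateRing.mk (EC a b) (C α + C β * X) := by
    rw [← hαβ]
    exact basis_mk α β
  have hqn : (EC a b).Equation X₀ (-Y₀) := by
    have := ((equation_neg (W' := EC a b) X₀ Y₀).mpr hq.1)
    rwa [negY_eq] at this
  have htn : (EC a b).Equation x₁ (-y₁) := by
    have := ((equation_neg (W' := EC a b) x₁ y₁).mpr ht.1)
    rwa [negY_eq] at this
  have hKT : K ∈ CoordinateRing.XYIdeal (EC a b) x₁ (C (-y₁)) := by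
    have h1 : K ∈ Ideal.span {K} := Ideal.mem_span_singleton_self K
    rw [← hK] at h1
    exact Ideal.mul_le_right h1
  have hKQ : K ∈ CoordinateRing.XYIdeal (EC a b) X₀ (C (-Y₀)) := by
    have h1 : K ∈ Ideal.span {K} := Ideal.mem_span_singleton_self K
    rw [← hK] at h1
    have h2 : K ∈ CoordinateRing.XYIdeal (EC a b) X₀ (C (-Y₀)) ^ n := Ideal.mul_le_left h1
    exact Ideal.pow_le_self (by omega) h2
  have hT : α.eval x₁ = β.eval x₁ * y₁ := by
    have h1 := ev_ideal htn hKT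
    rw [hKe, ev_basis] at h1
    linear_combination h1
  have hQ : α.eval X₀ = β.eval X₀ * Y₀ := by
    have h1 := ev_ideal hqn hKQ
    rw [hKe, ev_basis] at h1
    linear_combination h1
  refine ⟨α, β, ?_, hT, hQ, ?_⟩
  · -- the norm
    have hcj : cj a b K = CoordinateRing.mk (EC a b) (C α - C β * X) := by
      rw [hKe, map_add, map_add, cj_C, map_mul, map_mul, cj_C, map_sub, map_mul]
      change _ + _ * cj a b (yy' a b) = _
      rw [cj_Y]
      ring
    have hprod : K * cj a b K = CoordinateRing.mk (EC a b) (C (α ^ 2 - β ^ 2 * fP a b)) := by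
      rw [hcj, hKe, ← map_mul]
      refine AdjoinRoot.mk_eq_mk.mpr ⟨-C (β ^ 2), ?_⟩
      rw [poly_eq]
      simp only [C_sub, C_mul, C_pow]
      ring
    have hmap : Ideal.span {cj a b K} = CoordinateRing.XYIdeal (EC a b) X₀ (C Y₀) ^ n *
        CoordinateRing.XYIdeal (EC a b) x₁ (C y₁) := by
      have h1 := congrArg (Ideal.map (cj a b)) hK
      rw [Ideal.map_mul, Ideal.map_pow, cj_ideal, cj_ideal, Ideal.map_span,
        Set.image_singleton] at h1
      exact h1.symm
    have hspan : Ideal.span {CoordinateRing.mk (EC a b) (C (α ^ 2 - β ^ 2 * fP a b))} =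
        Ideal.span {CoordinateRing.mk (EC a b) (C ((X - C X₀) ^ n * (X - C x₁)))} := by
      rw [← hprod, C_mul, C_pow, map_mul, map_pow]
      exact span_lemma _ _ _ _ n _ _ K (cj a b K) (id_mul hq) (id_mul ht) hK hmap
    have hd1 : (X - C X₀) ^ n * (X - C x₁) ∣ α ^ 2 - β ^ 2 * fP a b := by
      apply dvd_of (a := a) (b := b)
      rw [← Ideal.span_singleton_le_span_singleton, hspan]
    have hd2 : α ^ 2 - β ^ 2 * fP a b ∣ (X - C X₀) ^ n * (X - C x₁) := by
      apply dvd_of (a := a) (b := b)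
      rw [← Ideal.span_singleton_le_span_singleton, hspan]
    obtain ⟨u, hu⟩ := associated_of_dvd_dvd hd1 hd2
    obtain ⟨c, hc, hcu⟩ := Polynomial.isUnit_iff.mp u.isUnit
    refine ⟨c, hc.ne_zero, ?_⟩
    rw [← hu, ← hcu, mul_comm]
  · intro α' β' hα hβ hev
    have hX0 : CoordinateRing.mk (EC a b) (C (X - C X₀)) ≠ 0 := CoordinateRing.XClass_ne_zero X₀
    have hx1 : CoordinateRing.mk (EC a b) (C (X - C x₁)) ≠ 0 := CoordinateRing.XClass_ne_zero x₁
    have hK1 : K = CoordinateRing.mk (EC a b) (C (X - C X₀)) *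
        CoordinateRing.mk (EC a b) (C α' + C β' * X) := by
      rw [hKe, hα, hβ, ← map_mul]
      congr 1
      rw [C_mul, C_mul]
      ring
    have hK1T : CoordinateRing.mk (EC a b) (C α' + C β' * X) ∈
        CoordinateRing.XYIdeal (EC a b) x₁ (C (-y₁)) := by
      have h1 : (X - C x₁) ∣ α' - β' * C y₁ := by
        rw [dvd_iff_isRoot, IsRoot.def]
        simp [hev]
      obtain ⟨γ, hγ⟩ := h1
      have h2 : (C α' + C β' * X : ℂ[X][X]) = C γ * C (X - C x₁) + C β' * (X - C (C (-y₁))) := by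
        rw [← C_mul, mul_comm γ, ← hγ, C_sub, C_mul, C_neg, C_neg]
        ring
      rw [h2, map_add, map_mul, map_mul]
      unfold CoordinateRing.XYIdeal
      refine Ideal.add_mem _ (Ideal.mul_mem_left _ _ (Ideal.subset_span ?_))
        (Ideal.mul_mem_left _ _ (Ideal.subset_span ?_))
      · exact Set.mem_insert _ _
      · exact Set.mem_insert_of_mem _ rfl
    obtain ⟨k, rfl⟩ : ∃ k, n = k + 1 := ⟨n - 1, by omega⟩
    have hle : CoordinateRing.XYIdeal (EC a b) X₀ (C (-Y₀)) ^ k ≤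
        CoordinateRing.XYIdeal (EC a b) X₀ (C Y₀) :=
      le_lemma _ _ _ _ k _ _ K _ hX0 hx1 (id_mul hq) (id_mul ht) hK hK1 hK1T
    have hY : CoordinateRing.YClass (EC a b) (C (-Y₀)) ^ k ∈
        CoordinateRing.XYIdeal (EC a b) X₀ (C Y₀) := by
      apply hle
      apply Ideal.pow_mem_pow
      unfold CoordinateRing.XYIdeal
      exact Ideal.subset_span (Set.mem_insert_of_mem _ rfl)
    have h1 := ev_ideal hq.1 hY
    have h2 : ev hq.1 (CoordinateRing.YClass (EC a b) (C (-Y₀))) = 2 * Y₀ := by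
      unfold CoordinateRing.YClass
      rw [ev_mk]
      simp
      ring
    rw [map_pow, h2] at h1
    have h3 := eq_zero_of_pow_eq_zero h1
    linear_combination h3 / 2

end Pool.Agent.Helper19.ND
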