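import Pool.Agent.Helper19.ND.Conic
import Pool.Agent.Helper19.ND.IdealK

/-!
# ND-04: from `K` to `(u, v)`

PROOF. Take `α, β, c` from `exists_K` with `x₁ = m²/3`. `α - β g` vanishes at `x₁` (there `g = y₁`),
so `α = s u₁ + v₁ g`, `v₁ := β` (`s = sP m`, `g = gP m y₁`). By `fP_eq`
`α² - β² f = (s u₁ + v₁ g)² - v₁² (s³ + g²) = s (s u₁² + 2 g u₁ v₁ - s² v₁²) = s ww(u₁, v₁)`, so
`ww(u₁, v₁) = c (X - X₀)^n` (cancel `s = X - x₁ ≠ 0`). Take `e` with `e² = 1/c` and `u = C e u₁`,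
`v = C e v₁`. If `u(X₀) = v(X₀) = 0` then `u₁ = (X - X₀) u'`, `v₁ = (X - X₀) v'`, so
`α = (X - X₀)(s u' + v' g)`, `β = (X - X₀) v'`, and `(s u' + v' g)(x₁) = v'(x₁) y₁`; the last
clause of `exists_K` gives `Y₀ = 0`, a contradiction. The last equation is `α(X₀) = β(X₀) Y₀`.
-/

set_option autoImplicit false

open Polynomial WeierstrassCurve WeierstrassCurve.Affine

namespace Pool.Agent.Helper19.ND

private lemma sh_sP (m x : ℂ) : (sP m).eval x = x - m ^ 2 / 3 := by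
  simp [sP]

private lemma sh_gP (m y₁ x : ℂ) : (gP m y₁).eval x = m * (x - m ^ 2 / 3) + y₁ := by
  simp [gP, sP]

/-- ND-04 -/
theorem exists_uv {a b : ℂ} {n : ℕ} (hn : 1 ≤ n) {X₀ Y₀ m y₁ : ℂ} (hF : FlexData a b m y₁)
    (hq : (EC a b).Nonsingular X₀ Y₀) (ht : (EC a b).Nonsingular (m ^ 2 / 3) y₁)
    (hsum : n • (Point.some X₀ Y₀ hq : (EC a b).Point) + Point.some (m ^ 2 / 3) y₁ ht = 0)
    (hY : Y₀ ≠ 0) :
    ∃ u v : ℂ[X], ww m y₁ u v = (X - C X₀) ^ n ∧ (u.eval X₀ ≠ 0 ∨ v.eval X₀ ≠ 0) ∧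
      (X₀ - m ^ 2 / 3) * u.eval X₀ + v.eval X₀ * (m * (X₀ - m ^ 2 / 3) + y₁ - Y₀) = 0 := by
  obtain ⟨α, β, ⟨c, hc, hN⟩, h1, h2, h3⟩ := exists_K hn hq ht hsum
  have hs0 : sP m ≠ 0 := X_sub_C_ne_zero _
  obtain ⟨u₁, hu₁⟩ : sP m ∣ α - β * gP m y₁ := by
    refine dvd_iff_isRoot.2 ?_
    rw [IsRoot.def, eval_sub, eval_mul, h1, sh_gP, sub_self, mul_zero, zero_add, sub_self]
  have hα : α = sP m * u₁ + β * gP m y₁ := by
    rw [← hu₁]
    ring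
  have hN' : ww m y₁ u₁ β = C c * (X - C X₀) ^ n := by
    refine mul_left_cancel₀ hs0 ?_
    have hN2 : α ^ 2 - β ^ 2 * fP a b = C c * ((X - C X₀) ^ n * sP m) := hN
    rw [fP_eq hF, hα] at hN2
    have h2C : (C 2 : ℂ[X]) = 2 := map_ofNat C 2
    rw [ww, h2C]
    linear_combination hN2
  obtain ⟨e, he⟩ := IsAlgClosed.exists_pow_nat_eq (c⁻¹) (n := 2) (by norm_num)
  have he0 : e ≠ 0 := by
    rintro rfl
    rw [zero_pow two_ne_zero] at he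
    exact inv_ne_zero hc he.symm
  have hec : (C e : ℂ[X]) ^ 2 * C c = 1 := by
    rw [← map_pow, he, ← map_mul, inv_mul_cancel₀ hc, map_one]
  refine ⟨C e * u₁, C e * β, ?_, ?_, ?_⟩
  · calc ww m y₁ (C e * u₁) (C e * β) = C e ^ 2 * ww m y₁ u₁ β := by
          rw [ww, ww]
          ring
      _ = (C e ^ 2 * C c) * (X - C X₀) ^ n := by
          rw [hN']
          ring
      _ = (X - C X₀) ^ n := by rw [hec, one_mul]
  · by_contra hcon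
    push Not at hcon
    obtain ⟨k1, k2⟩ := hcon
    rw [eval_mul, eval_C] at k1 k2
    have k3 : u₁.eval X₀ = 0 := (mul_eq_zero.1 k1).resolve_left he0
    have k4 : β.eval X₀ = 0 := (mul_eq_zero.1 k2).resolve_left he0
    obtain ⟨u', hu'⟩ : X - C X₀ ∣ u₁ := dvd_iff_isRoot.2 k3
    obtain ⟨v', hv'⟩ : X - C X₀ ∣ β := dvd_iff_isRoot.2 k4
    refine hY (h3 (sP m * u' + v' * gP m y₁) v' ?_ hv' ?_)
    · rw [hα, hu', hv']
      ring
    · rw [eval_add, eval_mul, eval_mul, sh_sP, sh_gP]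
      ring
  · rw [eval_mul, eval_mul, eval_C]
    have h4 : α.eval X₀ = (X₀ - m ^ 2 / 3) * u₁.eval X₀ +
        β.eval X₀ * (m * (X₀ - m ^ 2 / 3) + y₁) := by
      rw [hα, eval_add, eval_mul, eval_mul, sh_sP, sh_gP]
    linear_combination e * h2 - e * h4

end Pool.Agent.Helper19.ND
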