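import Pool.Agent.Helper19.ND.Defs

/-!
# ND-06: points of order 3

(a) `3 P = 0`, `P = (x, y)`: `P + P = -P ≠ 0`, so `y ≠ -y`, `y ≠ 0`, and the `x`-coordinate of
`P + P` is `M² - 2 x = x` with `M = (3 x² + a)/(2 y)` (the slope), so `3 x = M²`; then
`a = 2 M y - 3 x²` and `b = y² - x³ - a x` give the two formulas.
(b) `y₀ ≠ 0`: otherwise `f(x) = 0` and the identity below gives `f'(x) = 0`, against nonsingularity.
With `s = x - m²/3`, `g = m s + y₁`: `f(x) = s³ + g²`, `f'(x) = 3 s² + 2 m g`, `3 x = 3 s + m²` and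
`12 x f(x) - f'(x)² = s (3 s³ + 4 m² s² + 12 m y₁ s + 12 y₁²) = 0`. So `M = f'(x)/(2 y)` has
`M² = 3 x`, the `x`-coordinate of `P + P` is `M² - 2 x = x`, and its `y`-coordinate is
`-(M (x - x) + y) = -y`. Hence `P + P = -P` and `3 • P = 0`.
(c) direct: `x = m²/3`, the slope is `(3 x² + a)/(2 y) = (m⁴/3 + 2 m y - m⁴/3)/(2 y) = m`.
-/

set_option autoImplicit false

open Polynomial WeierstrassCurve WeierstrassCurve.Affine

namespace Pool.Agent.Helper19.ND

private theorem eqn {a b x y : ℂ} (h : (EC a b).Nonsingular x y) :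
    y ^ 2 = x ^ 3 + a * x + b := by
  have h1 := (equation_iff _ _).1 h.1
  simp only at h1
  linear_combination h1

private theorem negY_eq {a b x y : ℂ} : (EC a b).negY x y = -y := by
  rw [negY]
  ring

private theorem slope_eq {a b x y : ℂ} (hy : y ≠ 0) :
    (EC a b).slope x x y y = (3 * x ^ 2 + a) / (2 * y) := by
  have h1 : y ≠ (EC a b).negY x y := by
    rw [negY_eq]
    intro h2
    apply hy
    have h3 : 2 * y = 0 := by linear_combination h2
    simpa using h3
  rw [slope_of_Y_ne rfl h1, negY_eq]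
  congr 1 <;> ring

private theorem dbl {a b x y : ℂ} (h : (EC a b).Nonsingular x y) (hy : y ≠ 0) :
    ∃ h' : (EC a b).Nonsingular (((3 * x ^ 2 + a) / (2 * y)) ^ 2 - 2 * x)
      (-((3 * x ^ 2 + a) / (2 * y) * (((3 * x ^ 2 + a) / (2 * y)) ^ 2 - 2 * x - x) + y)),
    (Point.some x y h : (EC a b).Point) + Point.some x y h = Point.some _ _ h' := by
  have h1 : y ≠ (EC a b).negY x y := by
    rw [negY_eq]
    intro h2
    apply hy
    have h3 : 2 * y = 0 := by linear_combination h2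
    simpa using h3
  have h2 := Point.add_self_of_Y_ne (h₁ := h) h1
  have e1 : (EC a b).addX x x ((EC a b).slope x x y y) =
      ((3 * x ^ 2 + a) / (2 * y)) ^ 2 - 2 * x := by
    rw [slope_eq hy, addX]
    ring
  have e2 : (EC a b).addY x x y ((EC a b).slope x x y y) =
      -((3 * x ^ 2 + a) / (2 * y) * (((3 * x ^ 2 + a) / (2 * y)) ^ 2 - 2 * x - x) + y) := by
    rw [addY, negAddY, e1, slope_eq hy, negY_eq]
  have h3 := nonsingular_add h h (fun hxy => h1 hxy.2)
  rw [e1, e2] at h3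
  refine ⟨h3, h2.trans ?_⟩
  rw [Point.some.injEq]
  exact ⟨e1, e2⟩

/-- ND-06 (a) -/
theorem flexData_of_tors {a b x y : ℂ} (h : (EC a b).Nonsingular x y)
    (h3 : 3 • (Point.some x y h : (EC a b).Point) = 0) :
    FlexData a b ((3 * x ^ 2 + a) / (2 * y)) y ∧ x = ((3 * x ^ 2 + a) / (2 * y)) ^ 2 / 3 := by
  have hy : y ≠ 0 := by
    rintro rfl
    have h1 : (Point.some x 0 h : (EC a b).Point) + Point.some x 0 h = 0 :=
      Point.add_self_of_Y_eq (by rw [negY_eq, neg_zero])
    have h2 : 3 • (Point.some x 0 h : (EC a b).Point) = Point.some x 0 h := by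
      rw [show (3 : ℕ) = 2 + 1 from rfl, add_smul, two_smul, h1, one_smul, zero_add]
    rw [h2] at h3
    exact Point.some_ne_zero h h3
  obtain ⟨M, hM⟩ : ∃ M : ℂ, M = (3 * x ^ 2 + a) / (2 * y) := ⟨_, rfl⟩
  obtain ⟨h', hd⟩ := dbl h hy
  have h4 : (Point.some x y h : (EC a b).Point) + Point.some x y h = -Point.some x y h := by
    rw [show (3 : ℕ) = 2 + 1 from rfl, add_smul, two_smul, one_smul] at h3
    exact eq_neg_of_add_eq_zero_left h3
  rw [hd, Point.neg_some, Point.some.injEq] at h4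
  have h5 := h4.1
  rw [← hM] at h5 ⊢
  have hx : x = M ^ 2 / 3 := by linear_combination (-1 / 3) * h5
  have h6 : 2 * M * y = 3 * x ^ 2 + a := by
    rw [hM]
    field_simp
  have h7 := eqn h
  refine ⟨⟨hy, ?_, ?_⟩, hx⟩
  · rw [hx] at h6
    linear_combination -h6
  · rw [hx] at h6 h7
    linear_combination -h7 + (M ^ 2 / 3) * h6

/-- ND-06 (b) -/
theorem tors_of_psi {a b m y₁ x y : ℂ} (hF : FlexData a b m y₁) (h : (EC a b).Nonsingular x y)
    (hl : 3 * (x - m ^ 2 / 3) ^ 3 + 4 * m ^ 2 * (x - m ^ 2 / 3) ^ 2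
      + 12 * m * y₁ * (x - m ^ 2 / 3) + 12 * y₁ ^ 2 = 0) :
    3 • (Point.some x y h : (EC a b).Point) = 0 := by
  have h1 := eqn h
  have ha := hF.ha
  have hb := hF.hb
  have hid : 12 * x * (x ^ 3 + a * x + b) - (3 * x ^ 2 + a) ^ 2 = 0 := by
    rw [ha, hb]
    linear_combination (x - m ^ 2 / 3) * hl
  have hy : y ≠ 0 := by
    rintro rfl
    have h2 : (3 * x ^ 2 + a) ^ 2 = 0 := by linear_combination 12 * x * (-h1) - hid
    have h3 : 3 * x ^ 2 + a = 0 := by simpa using h2
    have h4 := (nonsingular_iff _ _).1 h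
    rcases h4.2 with h5 | h5
    · apply h5
      simp only
      linear_combination -h3
    · apply h5
      simp
  have hM2 : ((3 * x ^ 2 + a) / (2 * y)) ^ 2 = 3 * x := by
    rw [div_pow, div_eq_iff (pow_ne_zero 2 (mul_ne_zero two_ne_zero hy))]
    linear_combination -hid + 12 * x * (-h1)
  obtain ⟨h', hd⟩ := dbl h hy
  have h4 : (Point.some x y h : (EC a b).Point) + Point.some x y h = -Point.some x y h := by
    rw [hd, Point.neg_some, Point.some.injEq, negY_eq, hM2]
    constructor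
    · ring
    · ring
  rw [show (3 : ℕ) = 2 + 1 from rfl, add_smul, two_smul, one_smul, h4, neg_add_cancel]

/-- ND-06 (c) -/
theorem slope_flex {a b m y : ℂ} (hF : FlexData a b m y) :
    (3 * (m ^ 2 / 3) ^ 2 + a) / (2 * y) = m := by
  rw [hF.ha]
  have := hF.hy
  field_simp
  ring

end Pool.Agent.Helper19.ND
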