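import Pool.Agent.Helper19.ND.Degree
import Pool.Agent.Helper19.ND.Shape
import Pool.Agent.Helper19.ND.NonZero
import Pool.Agent.Helper19.ND.Tors3

/-!
# ND-07: existence of the sections

PROOF. `P = (X₀, Y₀)`, `T := -(n • P)`, `3 • T = 0`, `T ≠ 0`, `T = (x₁, y₁)`. By ND-06 (a)
`FlexData a b m y₁` with `m = (3 x₁² + a)/(2 y₁)`, `x₁ = m²/3` (`subst`). `Y₀ ≠ 0`: otherwise
`2 • P = 0`, and then `n • P` is `0` or `P`; the first is excluded, the second gives
`0 = (3 n) • P = 3 • (n • P) = 3 • P = P`, so `n • P = 0`. Take `u, v` from `exists_uv`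
(`n • P + T = 0`). Put `z = zz m ω u v`, `y = yy m y₁ ω u v`, `p = X₀`. `conic` is `conic_id` with
`ww = (X - X₀)^n`; degree and leading coefficient from ND-02 (for `lead`: `(-2-ω) + 1 = -1-ω` and
`(ω-1) + 1 = ω` are roots of `x² + x + 1`). `ne` and the contact point come from ND-05 with
`s = X₀ - m²/3` and the values of `u, v` at `X₀`:
* `ht`: if `s = 0` and `Y₀ = y₁` then `P = T = -(n • P)`, `(n + 1) • P = 0`.
* `hl`: otherwise `3 • P = 0` by ND-06 (b), `n • P ≠ 0` so `3 ∤ n`, so `n • P = ± P`, so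
  `T = ∓ P`, so `X₀ = x₁`, `s = 0`, and `hl` reads `12 y₁² = 0`.
-/

set_option autoImplicit false

open Polynomial WeierstrassCurve WeierstrassCurve.Affine

namespace Pool.Agent.Helper19.ND

private theorem grp_two {A : Type*} [AddCommGroup A] {P : A} {n : ℕ} (h2 : P + P = 0)
    (h3 : (3 * n) • P = 0) : n • P = 0 := by
  have h2' : (2 : ℕ) • P = 0 := by rw [two_nsmul, h2]
  obtain ⟨k, hk | hk⟩ := Nat.even_or_odd' n
  · rw [hk, mul_comm 2 k, mul_nsmul', h2', nsmul_zero]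
  · have e : 3 * n = (3 * k + 1) * 2 + 1 := by omega
    rw [e, add_nsmul, mul_nsmul', h2', nsmul_zero, zero_add, one_nsmul] at h3
    rw [h3, nsmul_zero]

private theorem grp_three {A : Type*} [AddCommGroup A] {P : A} {n : ℕ} (h3 : (3 : ℕ) • P = 0)
    (h1 : n • P ≠ 0) (h2 : (n + 1) • P ≠ 0) : n • P = P := by
  have h : n % 3 = 0 ∨ n % 3 = 1 ∨ n % 3 = 2 := by omega
  rcases h with h | h | h
  · exfalso
    apply h1
    have e : n = (n / 3) * 3 := by omega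
    rw [e, mul_nsmul', h3, nsmul_zero]
  · have e : n = (n / 3) * 3 + 1 := by omega
    calc n • P = ((n / 3) * 3 + 1) • P := by rw [← e]
      _ = P := by rw [add_nsmul, mul_nsmul', h3, nsmul_zero, zero_add, one_nsmul]
  · exfalso
    apply h2
    have e : n + 1 = (n / 3 + 1) * 3 := by omega
    rw [e, mul_nsmul', h3, nsmul_zero]

private theorem grp_T {A : Type*} [AddCommGroup A] {P : A} {n : ℕ} (h3 : (3 * n) • P = 0) :
    (3 : ℕ) • (-(n • P)) = 0 := by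
  rw [neg_nsmul, ← mul_nsmul', h3, neg_zero]

private theorem grp_succ {A : Type*} [AddCommGroup A] {P T : A} {n : ℕ} (hT : -(n • P) = T)
    (h : P = T) : (n + 1) • P = 0 := by
  rw [← hT] at h
  rw [add_nsmul, one_nsmul]
  nth_rewrite 2 [h]
  exact add_neg_cancel _

/-- ND-07 -/
theorem exists_sect {a b : ℂ} {n : ℕ} (hn : 2 ≤ n) {X₀ Y₀ : ℂ}
    (hq : (EC a b).Nonsingular X₀ Y₀) (h3 : (3 * n) • (Point.some X₀ Y₀ hq : (EC a b).Point) = 0)
    (h1 : n • (Point.some X₀ Y₀ hq : (EC a b).Point) ≠ 0)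
    (h2 : (n + 1) • (Point.some X₀ Y₀ hq : (EC a b).Point) ≠ 0)
    {ω : ℂ} (hω : ω ^ 2 + ω + 1 = 0) :
    ∃ S : Sect a b n, S.p = X₀ ∧ S.y.eval X₀ = Y₀ * S.z.eval X₀ ∧
      S.z.leadingCoeff = if n % 2 = 1 then -2 - ω else ω - 1 := by
  have hT3 := grp_T (A := (EC a b).Point) h3
  have hT0 : -(n • (Point.some X₀ Y₀ hq : (EC a b).Point)) ≠ 0 := neg_ne_zero.2 h1
  obtain ⟨T, hT⟩ : ∃ T, -(n • (Point.some X₀ Y₀ hq : (EC a b).Point)) = T := ⟨_, rfl⟩
  rw [hT] at hT3 hT0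
  cases T with
  | zero => exact absurd rfl hT0
  | some x₁ y₁ ht =>
    obtain ⟨m, hm⟩ : ∃ m, (3 * x₁ ^ 2 + a) / (2 * y₁) = m := ⟨_, rfl⟩
    obtain ⟨hF, hx⟩ := flexData_of_tors ht hT3
    rw [hm] at hF hx
    clear hm
    subst hx
    have hY : Y₀ ≠ 0 := by
      intro h0
      apply h1
      refine grp_two ?_ h3
      refine Point.add_self_of_Y_eq ?_
      rw [WeierstrassCurve.Affine.negY, h0]
      simp
    have hsum : n • (Point.some X₀ Y₀ hq : (EC a b).Point) + Point.some (m ^ 2 / 3) y₁ ht = 0 := by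
      rw [← hT]
      exact add_neg_cancel _
    obtain ⟨u, v, hw, huv, hK⟩ := exists_uv (by omega) hF hq ht hsum hY
    obtain ⟨hdeg, hlead⟩ := zz_degree hω hn hw
    have hf : Y₀ ^ 2 = (X₀ - m ^ 2 / 3) ^ 3 + (m * (X₀ - m ^ 2 / 3) + y₁) ^ 2 := by
      have e1 := (equation_iff X₀ Y₀).1 hq.1
      simp only [zero_mul, mul_zero, add_zero] at e1
      rw [e1, hF.ha, hF.hb]
      ring
    have hs : ¬ (X₀ - m ^ 2 / 3 = 0 ∧ Y₀ = y₁) := by
      rintro ⟨e1, e2⟩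
      have e3 : X₀ = m ^ 2 / 3 := sub_eq_zero.1 e1
      refine h2 (grp_succ hT ?_)
      congr 1
    have hl : 3 * (X₀ - m ^ 2 / 3) ^ 3 + 4 * m ^ 2 * (X₀ - m ^ 2 / 3) ^ 2
        + 12 * m * y₁ * (X₀ - m ^ 2 / 3) + 12 * y₁ ^ 2 ≠ 0 := by
      intro hl
      have e1 := grp_three (tors_of_psi hF hq hl) h1 h2
      rw [e1] at hT
      rw [Point.neg_some] at hT
      have e2 : X₀ = m ^ 2 / 3 := by
        injection hT
      rw [e2] at hl
      apply hF.hy
      have e3 : 12 * y₁ ^ 2 = 0 := by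
        linear_combination hl
      simpa using e3
    obtain ⟨c1, c2⟩ := contact hω hF.hy hf huv hK hs hl
    have ez : (zz m ω u v).eval X₀ = (-2 - ω) * u.eval X₀ ^ 2 - 2 * m * u.eval X₀ * v.eval X₀
        + (1 - ω) * (X₀ - m ^ 2 / 3) * v.eval X₀ ^ 2 := by
      simp [zz, sP]
    have ey : (yy m y₁ ω u v).eval X₀ = u.eval X₀ ^ 2 * (y₁ + (1 + ω) * (m * (X₀ - m ^ 2 / 3) + y₁))
        - (2 * ω + 1) * (X₀ - m ^ 2 / 3) ^ 2 * u.eval X₀ * v.eval X₀
        + (X₀ - m ^ 2 / 3) * v.eval X₀ ^ 2 * (y₁ - ω * (m * (X₀ - m ^ 2 / 3) + y₁)) := by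
      simp [yy, gP, sP]
    have hc := conic_id hF hω u v
    rw [hw] at hc
    refine ⟨⟨zz m ω u v, yy m y₁ ω u v, X₀, hc, hdeg, ?_, ?_⟩, rfl, ?_, hlead⟩
    · rw [hlead]
      split_ifs
      · linear_combination hω
      · linear_combination hω
    · rw [ez]
      exact c1
    · show (yy m y₁ ω u v).eval X₀ = Y₀ * (zz m ω u v).eval X₀
      rw [ey, ez]
      exact c2

end Pool.Agent.Helper19.ND
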