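import Pool.Agent.Helper19.ND.Basic

/-!
# ND-09: the parametrisation is not constant on an infinite set

PROOF. If the set is infinite, then the polynomials `(X z + w) v₂ - z v₀` and `y v₂ - z v₁` vanish
at infinitely many points (for `at' t = c v` both are `c` times `v₀ v₂ - v₂ v₀` etc.), so they are
`0`. If `v₂ ≠ 0`: `X z + w` has coefficient `S.z.leadingCoeff + 1 ≠ 0` at `X^n` (`coeff_zero`,
`lead_ne`) and `z` has coefficient `0` there (`coeff_two`), contradiction. If `v₂ = 0`: `z v₀ = 0`,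
`z v₁ = 0`, so `v₀ = v₁ = 0` as `z ≠ 0`, `v = 0`.
-/

set_option autoImplicit false

open Polynomial

namespace Pool.Agent.Helper19.ND

/-- ND-09 -/
theorem fib_finite {a b : ℂ} {n : ℕ} (S : Sect a b n) (hn : 1 ≤ n) {v : Fin 3 → ℂ} (hv : v ≠ 0) :
    {t : ℂ | ∃ c : ℂ, S.at' t = c • v}.Finite := by
  by_contra hinf
  have hinf' : {t : ℂ | ∃ c : ℂ, S.at' t = c • v}.Infinite := hinf
  have hA : (X * S.z + S.w) * C (v 2) - S.z * C (v 0) = 0 := by
    refine eq_zero_of_infinite_isRoot _ (hinf'.mono ?_)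
    rintro t ⟨c, hc⟩
    have h0 := congrFun hc 0
    have h2 := congrFun hc 2
    rw [S.at_zero, Pi.smul_apply, smul_eq_mul] at h0
    rw [S.at_two, Pi.smul_apply, smul_eq_mul] at h2
    change IsRoot _ t
    rw [IsRoot, eval_sub, eval_mul, eval_mul, eval_add, eval_mul, eval_X, eval_C, eval_C, h0, h2]
    ring
  have hB : S.y * C (v 2) - S.z * C (v 1) = 0 := by
    refine eq_zero_of_infinite_isRoot _ (hinf'.mono ?_)
    rintro t ⟨c, hc⟩
    have h0 := congrFun hc 1
    have h2 := congrFun hc 2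
    rw [S.at_one, Pi.smul_apply, smul_eq_mul] at h0
    rw [S.at_two, Pi.smul_apply, smul_eq_mul] at h2
    change IsRoot _ t
    rw [IsRoot, eval_sub, eval_mul, eval_mul, eval_C, eval_C, h0, h2]
    ring
  have hv2 : v 2 = 0 := by
    by_contra h
    have h1 := congrArg (fun q => coeff q n) hA
    simp only [coeff_sub, coeff_mul_C, coeff_zero] at h1
    rw [S.coeff_zero hn, S.coeff_two hn, zero_mul, sub_zero] at h1
    rcases mul_eq_zero.1 h1 with h2 | h2
    · exact S.lead_ne h2
    · exact h h2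
  have hv0 : v 0 = 0 := by
    rw [hv2, C_0, mul_zero, zero_sub, neg_eq_zero] at hA
    rcases mul_eq_zero.1 hA with h2 | h2
    · exact absurd h2 S.z_ne
    · exact C_eq_zero.1 h2
  have hv1 : v 1 = 0 := by
    rw [hv2, C_0, mul_zero, zero_sub, neg_eq_zero] at hB
    rcases mul_eq_zero.1 hB with h2 | h2
    · exact absurd h2 S.z_ne
    · exact C_eq_zero.1 h2
  apply hv
  funext i
  fin_cases i
  · exact hv0
  · exact hv1
  · exact hv2

end Pool.Agent.Helper19.ND
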