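import Pool.Agent.Helper19.ND.Defs

/-!
# ND-18: a linear map which fixes every point of the cubic is a multiple of the identity

PROOF. For every `x ∈ ℂ` there is `y` with `y² = x³ + a x + b`, `(x, y)` and `(x, -y)` are points of
the curve (nonsingular, since `4 a³ + 27 b² ≠ 0`: `WeierstrassCurve.Affine.equation_iff_nonsingular`
or directly). `N (x, y, 1) = c (x, y, 1)` gives
 (i) `N₀₀ x + N₀₁ y + N₀₂ = (N₂₀ x + N₂₁ y + N₂₂) x`,
 (ii) `N₁₀ x + N₁₁ y + N₁₂ = (N₂₀ x + N₂₁ y + N₂₂) y`.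
Add and subtract (i) for `y` and `-y`: `N₀₀ x + N₀₂ = N₂₀ x² + N₂₂ x` for all `x`, so `N₀₂ = 0`,
`N₂₀ = 0`, `N₀₀ = N₂₂`; and `y (N₀₁ - N₂₁ x) = 0` for all `x`, so `N₀₁ = N₂₁ = 0` (take `x` with
`y ≠ 0`). Then (ii): `N₁₀ x + N₁₁ y + N₁₂ = N₂₂ y`; for `y` and `-y`: `N₁₀ x + N₁₂ = 0`,
`(N₁₁ - N₂₂) y = 0`. So `N = N₂₂ • 1`.
-/

set_option autoImplicit false

open WeierstrassCurve WeierstrassCurve.Affine

namespace Pool.Agent.Helper19.ND

private theorem nonsing_of_eq {a b : ℂ} (hab : 4 * a ^ 3 + 27 * b ^ 2 ≠ 0) {x y : ℂ}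
    (h : y ^ 2 = x ^ 3 + a * x + b) : (EC a b).Nonsingular x y := by
  rw [WeierstrassCurve.Affine.nonsingular_iff, WeierstrassCurve.Affine.equation_iff]
  refine ⟨by linear_combination h, ?_⟩
  by_contra hcon
  push Not at hcon
  obtain ⟨h1, h2⟩ := hcon
  have hy : y = 0 := by
    have : (2 : ℂ) * y = 0 := by linear_combination h2
    simpa using this
  have ha : a = -3 * x ^ 2 := by
    linear_combination -h1
  have hb : b = 2 * x ^ 3 := by
    subst hy
    linear_combination -h - x * ha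
  apply hab
  rw [ha, hb]
  ring

/-- ND-18 -/
theorem lin_uniq {a b : ℂ} (hab : 4 * a ^ 3 + 27 * b ^ 2 ≠ 0) (N : Matrix (Fin 3) (Fin 3) ℂ)
    (h : ∀ P : (EC a b).Point, ∃ c : ℂ, N.mulVec (rep P) = c • rep P) :
    ∃ κ : ℂ, N = κ • 1 := by
  have key : ∀ x y : ℂ, y ^ 2 = x ^ 3 + a * x + b →
      N 0 0 * x + N 0 1 * y + N 0 2 = (N 2 0 * x + N 2 1 * y + N 2 2) * x ∧
      N 1 0 * x + N 1 1 * y + N 1 2 = (N 2 0 * x + N 2 1 * y + N 2 2) * y := by
    intro x y hxy
    obtain ⟨c, hc⟩ := h (.some x y (nonsing_of_eq hab hxy))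
    have e0 := congrFun hc 0
    have e1 := congrFun hc 1
    have e2 := congrFun hc 2
    simp only [Matrix.mulVec, dotProduct, Fin.sum_univ_three, rep, Pi.smul_apply, smul_eq_mul,
      Matrix.cons_val_zero, Matrix.cons_val_one, Matrix.cons_val] at e0 e1 e2
    rw [mul_one] at e0 e1 e2
    rw [mul_one] at e2
    refine ⟨?_, ?_⟩
    · rw [e2]
      exact e0
    · rw [e2]
      exact e1
  have hsq : ∀ x : ℂ, ∃ y : ℂ, y ^ 2 = x ^ 3 + a * x + b := fun x =>
    IsAlgClosed.exists_pow_nat_eq _ (by norm_num)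
  have hs1 : ∀ x : ℂ, N 0 0 * x + N 0 2 = (N 2 0 * x + N 2 2) * x := by
    intro x
    obtain ⟨y, hy⟩ := hsq x
    have h1 := (key x y hy).1
    have h2 := (key x (-y) (by rw [neg_sq]; exact hy)).1
    linear_combination (h1 + h2) / 2
  have hd1 : ∀ x : ℂ, (N 0 1 - N 2 1 * x) ^ 2 * (x ^ 3 + a * x + b) = 0 := by
    intro x
    obtain ⟨y, hy⟩ := hsq x
    have h1 := (key x y hy).1
    have h2 := (key x (-y) (by rw [neg_sq]; exact hy)).1
    have h3 : (N 0 1 - N 2 1 * x) * y = 0 := by linear_combination (h1 - h2) / 2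
    rw [← hy, ← mul_pow, h3]
    ring
  have h02 : N 0 2 = 0 := by
    have := hs1 0
    linear_combination this
  have h20 : N 2 0 = 0 := by
    have e1 := hs1 1
    have e2 := hs1 (-1)
    linear_combination -(e1 + e2) / 2 + h02
  have h00 : N 0 0 = N 2 2 := by
    have e1 := hs1 1
    linear_combination e1 - h02 + h20
  have hpoly : ((Polynomial.C (N 0 1) - Polynomial.C (N 2 1) * Polynomial.X) ^ 2 *
      (Polynomial.X ^ 3 + Polynomial.C a * Polynomial.X + Polynomial.C b) : Polynomial ℂ) = 0 := by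
    apply Polynomial.funext
    intro x
    simpa using hd1 x
  have hcub : (Polynomial.X ^ 3 + Polynomial.C a * Polynomial.X + Polynomial.C b :
      Polynomial ℂ) ≠ 0 := by
    intro h0
    have := congrArg (fun p : Polynomial ℂ => p.coeff 3) h0
    simp [Polynomial.coeff_X, Polynomial.coeff_C] at this
  have hlin : (Polynomial.C (N 0 1) - Polynomial.C (N 2 1) * Polynomial.X : Polynomial ℂ) = 0 :=
    pow_eq_zero_iff (two_ne_zero) |>.1 ((mul_eq_zero.1 hpoly).resolve_right hcub)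
  have h01 : N 0 1 = 0 := by
    have := congrArg (fun p : Polynomial ℂ => p.eval 0) hlin
    simpa using this
  have h21 : N 2 1 = 0 := by
    have := congrArg (fun p : Polynomial ℂ => p.eval 1) hlin
    simpa [h01] using this
  have hs2 : ∀ x : ℂ, N 1 0 * x + N 1 2 = 0 := by
    intro x
    obtain ⟨y, hy⟩ := hsq x
    have h1 := (key x y hy).2
    have h2 := (key x (-y) (by rw [neg_sq]; exact hy)).2
    rw [h20, h21] at h1 h2
    linear_combination (h1 + h2) / 2
  have h12 : N 1 2 = 0 := by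
    have := hs2 0
    linear_combination this
  have h10 : N 1 0 = 0 := by
    have := hs2 1
    linear_combination this - h12
  have hd2 : ∀ x : ℂ, (N 1 1 - N 2 2) ^ 2 * (x ^ 3 + a * x + b) = 0 := by
    intro x
    obtain ⟨y, hy⟩ := hsq x
    have h1 := (key x y hy).2
    have h2 := (key x (-y) (by rw [neg_sq]; exact hy)).2
    rw [h20, h21] at h1 h2
    have h3 : (N 1 1 - N 2 2) * y = 0 := by linear_combination (h1 - h2) / 2
    rw [← hy, ← mul_pow, h3]
    ring
  have h11 : N 1 1 = N 2 2 := by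
    by_contra hne
    have hne' : (N 1 1 - N 2 2) ^ 2 ≠ 0 := pow_ne_zero _ (sub_ne_zero.2 hne)
    have f0 := (mul_eq_zero.1 (hd2 0)).resolve_left hne'
    have f1 := (mul_eq_zero.1 (hd2 1)).resolve_left hne'
    have f2 := (mul_eq_zero.1 (hd2 2)).resolve_left hne'
    have : (6 : ℂ) = 0 := by linear_combination f2 - 2 * f1 + f0
    norm_num at this
  refine ⟨N 2 2, ?_⟩
  ext i j
  rw [Matrix.smul_apply, Matrix.one_apply, smul_eq_mul]
  fin_cases i <;> fin_cases j <;> simp [h00, h01, h02, h10, h11, h12, h20, h21]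

end Pool.Agent.Helper19.ND
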