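import Pool.Agent.Helper19.ND.Trans
import Pool.Agent.Helper19.ND.LinUniq

/-!
# ND-19: the matrices `Mt T` form a group modulo scalars

`Mt T` is invertible: `Mt T * Mt T * Mt T = 1` (`T = 0` trivial, otherwise ND-13 (a), `y₀ ≠ 0` by
ND-06 (a)).
PROOF of (c). Let `T₃ = T₁ - T₂`. By ND-17 `Mt T₁` maps `rep P` to a multiple of `rep (P - T₁)` and
`Mt T₂ * Mt T₃` maps it to a nonzero multiple of `rep (P - T₃ - T₂)`, the same point. So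
`N = (Mt T₂ * Mt T₃)⁻¹ * Mt T₁` satisfies the hypothesis of ND-18: `N = κ • 1`,
`Mt T₁ = κ • (Mt T₂ * Mt T₃)`, and `κ ≠ 0` as `Mt T₁ ≠ 0`.
-/

set_option autoImplicit false

open WeierstrassCurve WeierstrassCurve.Affine

namespace Pool.Agent.Helper19.ND

private theorem Mt_cube {a b : ℂ} {T : (EC a b).Point} (hT : 3 • T = 0) :
    Mt T * Mt T * Mt T = 1 := by
  rcases T with _ | ⟨x, y, h⟩
  · simp [Mt]
  · obtain ⟨hF, -⟩ := flexData_of_tors h hT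
    exact LM_cube hF.hy

/-- ND-19 (a) -/
theorem Mt_inj {a b : ℂ} {T : (EC a b).Point} (hT : 3 • T = 0) :
    Function.Injective (Mt T).mulVec := by
  have h := Mt_cube hT
  have hl : Function.LeftInverse (Mt T * Mt T).mulVec (Mt T).mulVec := by
    intro v
    rw [Matrix.mulVec_mulVec, h, Matrix.one_mulVec]
  exact hl.injective

/-- ND-19 (b) -/
theorem cub_Mt {a b : ℂ} {T : (EC a b).Point} (hT : 3 • T = 0) (v : Fin 3 → ℂ) :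
    cub a b ((Mt T).mulVec v) = cub a b v := by
  rcases T with _ | ⟨x, y, h⟩
  · simp [Mt]
  · obtain ⟨hF, hx⟩ := flexData_of_tors h hT
    have key := cub_LM hF v
    rw [← hx] at key
    exact key

/-- ND-19 (c) -/
theorem Mt_diff {a b : ℂ} (hab : 4 * a ^ 3 + 27 * b ^ 2 ≠ 0) {T₁ T₂ : (EC a b).Point}
    (h₁ : 3 • T₁ = 0) (h₂ : 3 • T₂ = 0) :
    ∃ κ : ℂ, κ ≠ 0 ∧ Mt T₁ = κ • (Mt T₂ * Mt (T₁ - T₂)) := by
  have h₃ : 3 • (T₁ - T₂) = 0 := by rw [nsmul_sub, h₁, h₂, sub_zero]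
  have e₁ := Mt_cube h₁
  have e₂ := Mt_cube h₂
  have e₃ := Mt_cube h₃
  obtain ⟨K', hK'⟩ : ∃ K', K' = (Mt (T₁ - T₂) * Mt (T₁ - T₂)) * (Mt T₂ * Mt T₂) := ⟨_, rfl⟩
  have hK'K : K' * (Mt T₂ * Mt (T₁ - T₂)) = 1 := by
    rw [hK']
    calc (Mt (T₁ - T₂) * Mt (T₁ - T₂)) * (Mt T₂ * Mt T₂) * (Mt T₂ * Mt (T₁ - T₂))
        = (Mt (T₁ - T₂) * Mt (T₁ - T₂)) * (Mt T₂ * Mt T₂ * Mt T₂) * Mt (T₁ - T₂) := by
          simp only [Matrix.mul_assoc]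
      _ = 1 := by rw [e₂, Matrix.mul_one, e₃]
  have hKK' : (Mt T₂ * Mt (T₁ - T₂)) * K' = 1 := mul_eq_one_comm.1 hK'K
  obtain ⟨κ, hκ⟩ := lin_uniq hab (K' * Mt T₁) (by
    intro P
    obtain ⟨c₁, hc₁, k₁⟩ := Mt_rep h₁ P
    obtain ⟨c₃, hc₃, k₃⟩ := Mt_rep h₃ P
    obtain ⟨c₂, hc₂, k₂⟩ := Mt_rep h₂ (P - (T₁ - T₂))
    have hP : P - (T₁ - T₂) - T₂ = P - T₁ := by abel
    rw [hP] at k₂
    have hK : (Mt T₂ * Mt (T₁ - T₂)).mulVec (rep P) = (c₃ * c₂) • rep (P - T₁) := by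
      rw [← Matrix.mulVec_mulVec, k₃, Matrix.mulVec_smul, k₂, smul_smul]
    have hinv : K'.mulVec (rep (P - T₁)) = (c₃ * c₂)⁻¹ • rep P := by
      have h := congrArg K'.mulVec hK
      rw [Matrix.mulVec_mulVec, hK'K, Matrix.one_mulVec, Matrix.mulVec_smul] at h
      rw [h, smul_smul, inv_mul_cancel₀ (mul_ne_zero hc₃ hc₂), one_smul]
    refine ⟨c₁ * (c₃ * c₂)⁻¹, ?_⟩
    rw [← Matrix.mulVec_mulVec, k₁, Matrix.mulVec_smul, hinv, smul_smul])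
  have hT₁ : Mt T₁ = κ • (Mt T₂ * Mt (T₁ - T₂)) := by
    calc Mt T₁ = ((Mt T₂ * Mt (T₁ - T₂)) * K') * Mt T₁ := by rw [hKK', Matrix.one_mul]
      _ = (Mt T₂ * Mt (T₁ - T₂)) * (K' * Mt T₁) := by rw [Matrix.mul_assoc]
      _ = κ • (Mt T₂ * Mt (T₁ - T₂)) := by rw [hκ, Matrix.mul_smul, Matrix.mul_one]
  refine ⟨κ, ?_, hT₁⟩
  rintro rfl
  rw [zero_smul] at hT₁
  rw [hT₁] at e₁
  simp at e₁

end Pool.Agent.Helper19.ND
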