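import Pool.Agent.Helper19.ND.PDefs
import Pool.Agent.Helper19.ND.Fib

/-!
# ND-16: equal images give an infinite set of pairs

PROOF. `T` = all pairs `(x, t)` for which there is `c ≠ 0` with `M₁ Γ₁(x) = c M₂ Γ₂(t)`. For every
`x ∈ ℂ` the point `[M₁ Γ₁(x)]` (`M₁ Γ₁(x) ≠ 0`) lies in the first, hence in the second image: either
`(x, t) ∈ T` for some `t`, or `M₁ Γ₁(x) = c v` with `v = (parM M₂ S₂ i).coeff n`, a nonzero vector.
The second case occurs only for finitely many `x`: let `M₁ u = v` (`M₁` is injective, so bijective);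
then `Γ₁(x) = c u` and ND-09 applies. So the set of first coordinates of `T` is cofinite.
(Two nonzero vectors with the same point of `ℙ²` are multiples: `Projectivization.mk_eq_mk_iff'`.)
-/

set_option autoImplicit false

open Polynomial
open scoped LinearAlgebra.Projectivization

namespace Pool.Agent.Helper19.ND

/-- ND-16 -/
theorem pairs {a b : ℂ} {n : ℕ} (hn : 1 ≤ n) (S₁ S₂ : Sect a b n)
    {M₁ M₂ : Matrix (Fin 3) (Fin 3) ℂ} (h₁ : Function.Injective M₁.mulVec)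
    (h₂ : Function.Injective M₂.mulVec) (h : image n (parM M₁ S₁) = image n (parM M₂ S₂)) :
    ∃ T : Set (ℂ × ℂ), (Prod.fst '' T).Infinite ∧
      ∀ q ∈ T, ∃ c : ℂ, c ≠ 0 ∧ M₁.mulVec (S₁.at' q.1) = c • M₂.mulVec (S₂.at' q.2) := by
  refine ⟨{q | ∃ c : ℂ, c ≠ 0 ∧ M₁.mulVec (S₁.at' q.1) = c • M₂.mulVec (S₂.at' q.2)}, ?_,
    fun q hq => hq⟩
  set k : Fin 3 → ℂ := fun i => (parM M₂ S₂ i).coeff n with hk
  have hne : ∀ x : ℂ, M₁.mulVec (S₁.at' x) ≠ 0 := by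
    intro x h0
    have h0' : M₁.mulVec (S₁.at' x) = M₁.mulVec 0 := by rw [h0, Matrix.mulVec_zero]
    exact S₁.at_ne hn x (h₁ h0')
  have hfin : {x : ℂ | ∃ c : ℂ, c ≠ 0 ∧ M₁.mulVec (S₁.at' x) = c • k}.Finite := by
    by_cases hem : ∃ x₀ : ℂ, ∃ c : ℂ, c ≠ 0 ∧ M₁.mulVec (S₁.at' x₀) = c • k
    · obtain ⟨x₀, c₀, hc₀, he₀⟩ := hem
      refine (fib_finite S₁ hn (S₁.at_ne hn x₀)).subset ?_
      rintro x ⟨c, hc, he⟩
      refine ⟨c * c₀⁻¹, h₁ ?_⟩
      rw [Matrix.mulVec_smul, he₀, he, smul_smul, mul_assoc, inv_mul_cancel₀ hc₀, mul_one]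
    · convert Set.finite_empty
      ext x
      simp only [Set.mem_ofPred_eq, Set.mem_empty_iff_false, iff_false]
      intro hx
      exact hem ⟨x, hx⟩
  refine (hfin.infinite_compl).mono ?_
  intro x hx
  have hmem : Projectivization.mk ℂ (M₁.mulVec (S₁.at' x)) (hne x) ∈ image n (parM M₁ S₁) :=
    ⟨_, hne x, rfl, Or.inl ⟨x, (parM_eval M₁ S₁ x).symm⟩⟩
  rw [h] at hmem
  obtain ⟨v, hv, hP, hor⟩ := hmem
  rw [Projectivization.mk_eq_mk_iff'] at hP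
  obtain ⟨c, hc⟩ := hP
  have hc0 : c ≠ 0 := by
    rintro rfl
    rw [zero_smul] at hc
    exact hne x hc.symm
  rcases hor with ⟨t, ht⟩ | ht
  · refine ⟨(x, t), ⟨c, hc0, ?_⟩, rfl⟩
    rw [← hc, ht, parM_eval]
  · exact absurd ⟨c, hc0, by rw [← hc, ht]⟩ hx

end Pool.Agent.Helper19.ND
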