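import Pool.Agent.Helper19.ND.Curve
import Pool.Agent.Helper19.ND.Pairs
import Pool.Agent.Helper19.ND.Cross
import Pool.Agent.Helper19.ND.Exist
import Pool.Agent.Helper19.ND.Group
import Pool.Agent.Helper19.ND.Count

/-!
# ND-24: the number of rational curves
-/

set_option autoImplicit false

open Polynomial WeierstrassCurve WeierstrassCurve.Affine
open scoped LinearAlgebra.Projectivization

namespace Pool.Agent.Helper19.ND

/-- the two primitive cube roots of unity -/
theorem exists_omega : ∃ ω : Bool → ℂ, (∀ i, ω i ^ 2 + ω i + 1 = 0) ∧ ω true ≠ ω false := by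
  obtain ⟨r, hr⟩ := IsAlgClosed.exists_pow_nat_eq (-3 : ℂ) (n := 2) (by norm_num)
  refine ⟨fun i => if i then (-1 + r) / 2 else (-1 - r) / 2, ?_, ?_⟩
  · intro i
    cases i
    · simp only [Bool.false_eq_true, if_false]
      linear_combination hr / 4
    · simp only [if_true]
      linear_combination hr / 4
  · simp only [if_true, Bool.false_eq_true, if_false]
    intro h
    have h2 : r = 0 := by linear_combination h
    rw [h2] at hr
    norm_num at hr

/-- the chosen section at a good point -/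
theorem exists_sect' {a b : ℂ} {n : ℕ} (hn : 2 ≤ n) {P : (EC a b).Point} (hP : P ∈ good a b n)
    {ω : ℂ} (hω : ω ^ 2 + ω + 1 = 0) :
    ∃ S : Sect a b n, rep P = ![S.p, S.y.eval S.p / S.z.eval S.p, 1] ∧
      S.z.leadingCoeff = if n % 2 = 1 then -2 - ω else ω - 1 := by
  obtain ⟨h3, h1, h2⟩ := hP
  cases P with
  | zero => exact absurd (nsmul_zero n) h1
  | some x y h =>
    obtain ⟨S, hp, hy, hl⟩ := exists_sect hn h h3 h1 h2 hω
    refine ⟨S, ?_, hl⟩
    have hne := S.ne
    rw [hp] at hne ⊢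
    rw [hy, mul_div_cancel_right₀ _ hne]
    rfl

theorem rep_inj {a b : ℂ} {P Q : (EC a b).Point} (h : rep P = rep Q) : P = Q := by
  cases P with
  | zero =>
    cases Q with
    | zero => rfl
    | some x y h' =>
      have := congrFun h 2
      simp [rep] at this
  | some x y h' =>
    cases Q with
    | zero =>
      have := congrFun h 2
      simp [rep] at this
    | some x' y' h'' =>
      have h0 := congrFun h 0
      have h1 := congrFun h 1
      simp only [rep, Matrix.cons_val_zero, Matrix.cons_val_one] at h0 h1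
      subst h0 h1
      rfl

/-- the case of different translations -/
theorem not_cross {a b : ℂ} {n : ℕ} (hn : 5 ≤ n) {T₃ : (EC a b).Point} (hT : 3 • T₃ = 0)
    (hT0 : T₃ ≠ 0) (S₁ S₂ : Sect a b n) {P : (EC a b).Point} (hP : P ∈ good a b n)
    (hrep : rep P = ![S₂.p, S₂.y.eval S₂.p / S₂.z.eval S₂.p, 1])
    {T : Set (ℂ × ℂ)} (hTi : (Prod.fst '' T).Infinite)
    (h : ∀ q ∈ T, ∃ c : ℂ, c ≠ 0 ∧ (Mt T₃).mulVec (S₁.at' q.1) = c • S₂.at' q.2) : False := by
  cases T₃ with
  | zero => exact hT0 rfl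
  | some x₀ y₀ h₀ =>
    obtain ⟨hF, hx⟩ := flexData_of_tors h₀ hT
    have hM : Mt (Point.some x₀ y₀ h₀) = LM ((3 * x₀ ^ 2 + a) / (2 * y₀)) x₀ y₀ := rfl
    rw [hM] at h
    set m := (3 * x₀ ^ 2 + a) / (2 * y₀) with hm
    refine cross hF hn S₁ S₂ ?_ hTi ?_
    · by_cases hp : S₂.p = m ^ 2 / 3
      · right
        obtain ⟨h3, h1, h2⟩ := hP
        have h4 : P = Point.some x₀ y₀ h₀ ∨ P = -Point.some x₀ y₀ h₀ := by
          cases P with
          | zero => exact absurd (nsmul_zero n) h1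
          | some x y h' =>
            apply Point.X_eq_iff.1
            have := congrFun hrep 0
            simp only [rep, Matrix.cons_val_zero] at this
            rw [this, hp, ← hx]
        have h5 : 3 • P = 0 := by
          rcases h4 with rfl | rfl
          · exact hT
          · rw [neg_nsmul, hT, neg_zero]
        have h6 : ¬ 3 ∣ n := by
          rintro ⟨k, rfl⟩
          apply h1
          rw [mul_comm, mul_nsmul', h5, nsmul_zero]
        have h7 : ¬ 3 ∣ n + 1 := by
          rintro ⟨k, hk⟩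
          apply h2
          rw [hk, mul_comm, mul_nsmul', h5, nsmul_zero]
        omega
      · exact Or.inl hp
    · rw [← hx]
      exact h

theorem main_aux {a b : ℂ} (hab : 4 * a ^ 3 + 27 * b ^ 2 ≠ 0) {n : ℕ} (hn : 5 ≤ n) :
    ((9 * ((good a b n).ncard * 2) : ℕ) : ℕ∞) ≤ numCurves a b n := by
  classical
  obtain ⟨ω, hω, hne⟩ := exists_omega
  have hgfin := (card_good hab (n := n) (by omega)).1
  obtain ⟨htfin, htcard⟩ := card_tors hab (n := 3) (by norm_num)
  have hch : ∀ (P : good a b n) (i : Bool), ∃ S : Sect a b n,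
      rep P.1 = ![S.p, S.y.eval S.p / S.z.eval S.p, 1] ∧
      S.z.leadingCoeff = if n % 2 = 1 then -2 - ω i else ω i - 1 :=
    fun P i => exists_sect' (by omega) P.2 (hω i)
  choose S hS1 hS2 using hch
  set K : (tors a b 3 × (good a b n × Bool)) → Set (ℙ ℂ (Fin 3 → ℂ)) :=
    fun q => image n (parM (Mt q.1.1) (S q.2.1 q.2.2)) with hK
  have hinj : Function.Injective K := by
    rintro ⟨⟨T₁, hT₁⟩, P₁, i₁⟩ ⟨⟨T₂, hT₂⟩, P₂, i₂⟩ heq
    change 3 • T₁ = 0 at hT₁
    change 3 • T₂ = 0 at hT₂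
    obtain ⟨T, hTi, hT⟩ := pairs (by omega) (S P₁ i₁) (S P₂ i₂) (Mt_inj hT₁) (Mt_inj hT₂) heq
    obtain ⟨κ, hκ, hM⟩ := Mt_diff hab hT₁ hT₂
    have hT' : ∀ q ∈ T, ∃ c : ℂ, c ≠ 0 ∧
        (Mt (T₁ - T₂)).mulVec ((S P₁ i₁).at' q.1) = c • (S P₂ i₂).at' q.2 := by
      intro q hq
      obtain ⟨c, hc, h⟩ := hT q hq
      refine ⟨κ⁻¹ * c, mul_ne_zero (inv_ne_zero hκ) hc, ?_⟩
      apply Mt_inj hT₂
      rw [hM, Matrix.smul_mulVec, ← Matrix.mulVec_mulVec] at h
      have h2 := congrArg (fun v => κ⁻¹ • v) h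
      simp only [smul_smul, inv_mul_cancel₀ hκ, one_smul] at h2
      rw [Matrix.mulVec_smul]
      exact h2
    by_cases hTT : T₁ = T₂
    · subst hTT
      rw [sub_self] at hT'
      have hone : ∀ v, (Mt (0 : (EC a b).Point)).mulVec v = v := fun v => Matrix.one_mulVec v
      simp only [hone] at hT'
      obtain ⟨e1, e2, e3, -⟩ := uniq (by omega) (S P₁ i₁) (S P₂ i₂) hTi hT'
      have hP : P₁ = P₂ := by
        apply Subtype.ext
        apply rep_inj
        rw [hS1 P₁ i₁, hS1 P₂ i₂, e1, e2, e3]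
      have hi : i₁ = i₂ := by
        have h1 := hS2 P₁ i₁
        rw [e1, hS2 P₂ i₂] at h1
        by_contra hii
        apply hne
        cases i₁ <;> cases i₂
        · exact absurd rfl hii
        · split_ifs at h1
          · linear_combination -h1
          · linear_combination h1
        · split_ifs at h1
          · linear_combination h1
          · linear_combination -h1
        · exact absurd rfl hii
      rw [hP, hi]
    · exfalso
      refine not_cross hn (T₃ := T₁ - T₂) (by rw [nsmul_sub, hT₁, hT₂, sub_zero])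
        (sub_ne_zero.2 hTT) (S P₁ i₁) (S P₂ i₂) P₂.2 (hS1 P₂ i₂) hTi hT'
  have hsub : Set.range K ⊆ {K | IsRationalCurve n K ∧ ∃ P, K ∩ cubic a b = {P}} := by
    rintro _ ⟨⟨⟨T, hT⟩, P, i⟩, rfl⟩
    exact curve_ok (by omega) (S P i) (Mt_inj hT) (cub_Mt hT)
  have h1 := Set.encard_le_encard hsub
  refine le_trans (le_of_eq ?_) (hinj.encard_range.trans h1)
  have : Finite (tors a b 3) := htfin.to_subtype
  have : Finite (good a b n) := hgfin.to_subtype
  rw [ENat.card_eq_coe_natCard, Nat.card_prod, Nat.card_prod, Nat.card_coe_set_eq,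
    Nat.card_coe_set_eq, htcard, Nat.card_eq_fintype_card, Fintype.card_bool]
  norm_num

/-- ND-24 -/
theorem main {a b : ℂ} (hab : 4 * a ^ 3 + 27 * b ^ 2 ≠ 0) {n : ℕ} (hn : 5 ≤ n) :
    ((144 * (n ^ 2 - 1) : ℕ) : ℕ∞) ≤ numCurves a b n ∧
      (¬ 3 ∣ n + 1 → ((144 * n ^ 2 : ℕ) : ℕ∞) ≤ numCurves a b n) := by
  obtain ⟨-, h1, h2⟩ := card_good hab (n := n) (by omega)
  refine ⟨le_trans (Nat.cast_le.2 ?_) (main_aux hab hn), fun h3 =>
    le_trans (Nat.cast_le.2 ?_) (main_aux hab hn)⟩
  · omega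
  · have := h2 h3
    omega

end Pool.Agent.Helper19.ND
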