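import Pool.Agent.Helper19.ND.AddSub

/-!
# ND-21: the `x`-coordinate of `n P`

`Point.xRep P = ![x, 1]`, `Point.xRep 0 = ![1, 0]`; `sym2x P Q` is the symmetric product of
`xRep P = (p₀, p₁)` and `xRep Q = (q₀, q₁)`: `(p₀ q₀, p₀ q₁ + p₁ q₀, p₁ q₁)`.

PROOF by induction on `n`, proving the statement for `n` and `n + 1` together.
`n = 0`: `A = 1`, `B = 0`. `n = 1`: `A = X`, `B = 1`.
Step: let `(p, q) = (A_(n-1), B_(n-1))`, `(A, B) = (A_n, B_n)`, `n ≥ 1`, and
`(U, V, W) = adds (C a) (C b) ![A X, A + X B, B] ∈ ℂ[X]³`.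
(1) `U q² - V p q + W p² = 0`: for every `x` there is a point `P = (x, y)`; by ND-20 for `n P` and `P`
    (homogeneity of `adds`), `(U, V, W)(x)` is a multiple of `sym2x ((n+1) P) ((n-1) P)`, i.e.
    `U(x) σ² + V(x) σ τ + W(x) τ²` is a multiple of `(r₀ σ + r₁ τ)(r₀' σ + r₁' τ)`,
    `r = xRep ((n-1) P)`; as `(p, q)(x)` is a multiple of `r`, it vanishes at `σ = q(x)`,
    `τ = -p(x)`. A polynomial which vanishes everywhere is `0`.
(2) `p, q` are coprime, so `p ∣ U`, `q ∣ W`: `U = p p'`, `W = q q'` (if `q = 0` then `p` is a unit;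
    put `p' = p⁻¹ U`, `q' = p⁻¹ V`, and `W = 0`), and `V = p q' + q p'`. Put `A_(n+1) = p'`,
    `B_(n+1) = q'`.
(3) coprime: a common root `x` of `p', q'` is a common root of `U, V, W`; but `adds v = 0` implies
    `v = 0` (`4 a³ + 27 b² ≠ 0`; this is `WeierstrassCurve.addSubMap_ne_zero`, or ND-20 itself:
    `adds (sym2x P Q)` is `c • sym2x (P+Q) (P-Q) ≠ 0`, and `![A X, A + X B, B](x)` is a nonzero
    multiple of `sym2x (n P) P`).
(4) `(p', q')(x)` is a nonzero multiple of `xRep ((n+1) P)`: both `(p s + q t)(p' s + q' t)` and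
    `(r₀ s + r₁ t)(r₀'' s + r₁'' t)` are proportional binary forms, `(p, q) ~ r`, cancel.
(5) degrees: `natDegree A = n²`, `natDegree B ≤ n² - 1` for `n ≥ 1` (`B = 0` for `n = 0`). `U` has
    degree `2 n² + 2` (from `(A X)²`), so `natDegree p' = 2 n² + 2 - (n-1)² = (n+1)²`.
    `natDegree V ≤ 2 n² + 1`, `natDegree (q p') ≤ (n-1)² - 1 + (n+1)² = 2 n² + 1` (or `q = 0`), so
    `natDegree (p q') ≤ 2 n² + 1` and `natDegree q' ≤ 2 n² + 1 - (n-1)² = (n+1)² - 1`.
-/

set_option autoImplicit false

open Polynomial WeierstrassCurve WeierstrassCurve.Affine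

namespace Pool.Agent.Helper19.ND

private theorem nonsing_exists {a b : ℂ} (hab : 4 * a ^ 3 + 27 * b ^ 2 ≠ 0) (x : ℂ) :
    ∃ y : ℂ, (EC a b).Nonsingular x y := by
  obtain ⟨y, hy⟩ := IsAlgClosed.exists_pow_nat_eq (x ^ 3 + a * x + b) (n := 2) (by norm_num)
  refine ⟨y, ?_⟩
  rw [WeierstrassCurve.Affine.nonsingular_iff, WeierstrassCurve.Affine.equation_iff]
  refine ⟨by linear_combination hy, ?_⟩
  by_cases h0 : y = 0
  · left
    simp only [EC]
    intro h
    apply hab
    have h1 : a = -3 * x ^ 2 := by linear_combination -h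
    have h2 : b = 2 * x ^ 3 := by
      rw [h0, h1] at hy
      linear_combination -hy
    rw [h1, h2]
    ring
  · right
    simp only [EC]
    intro h
    apply h0
    linear_combination (1 / 2 : ℂ) * h

private theorem adds_smul (a b c : ℂ) (v : Fin 3 → ℂ) : adds a b (c • v) = c ^ 2 • adds a b v := by
  funext i
  fin_cases i <;> simp [adds] <;> ring

private theorem adds_eval (a b x : ℂ) (v : Fin 3 → ℂ[X]) (i : Fin 3) :
    (adds (C a) (C b) v i).eval x = adds a b (fun j => (v j).eval x) i := by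
  fin_cases i <;> simp [adds]

/-- the statement for `n` -/
private def Good (a b : ℂ) (n : ℕ) (A B : ℂ[X]) : Prop :=
  IsCoprime A B ∧ A.degree = ((n ^ 2 : ℕ) : WithBot ℕ) ∧ B.degree < ((n ^ 2 : ℕ) : WithBot ℕ) ∧
    ∀ (x y : ℂ) (h : (EC a b).Nonsingular x y), ∃ c : ℂ, c ≠ 0 ∧
        ![A.eval x, B.eval x] = c • Point.xRep (n • (Point.some x y h : (EC a b).Point))

private theorem good_zero (a b : ℂ) : Good a b 0 1 0 := by
  refine ⟨isCoprime_one_left, by simp, by simp, ?_⟩
  intro x y h
  refine ⟨1, one_ne_zero, ?_⟩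
  rw [zero_nsmul]
  simp

private theorem good_one (a b : ℂ) : Good a b 1 X 1 := by
  refine ⟨isCoprime_one_right, by simp, by simp, ?_⟩
  intro x y h
  refine ⟨1, one_ne_zero, ?_⟩
  rw [one_nsmul]
  simp

private theorem degs {a b : ℂ} {N : ℕ} (hN : 1 ≤ N) {A B : ℂ[X]} (hA : A.degree = (N : WithBot ℕ))
    (hB : B.degree < (N : WithBot ℕ)) :
    (adds (C a) (C b) ![A * X, A + X * B, B] 0).natDegree = 2 * N + 2 ∧
      (adds (C a) (C b) ![A * X, A + X * B, B] 1).natDegree < 2 * N + 2 := by
  have hA0 : A ≠ 0 := by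
    intro h
    rw [h] at hA
    simp at hA
  have hA1 : A.natDegree = N := natDegree_eq_of_degree_eq_some hA
  have hB1 : B.natDegree ≤ N - 1 := by
    by_cases hB0 : B = 0
    · simp [hB0]
    · have h1 := (natDegree_lt_iff_degree_lt hB0).mpr hB
      omega
  have hAX : (A * X).natDegree = N + 1 := by
    rw [natDegree_mul_X hA0, hA1]
  have hAX2 : ((A * X) ^ 2).natDegree = 2 * N + 2 := by
    rw [natDegree_pow, hAX]
    ring
  have hM : (A + X * B).natDegree ≤ N := by
    refine natDegree_add_le_of_degree_le hA1.le ?_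
    refine (natDegree_mul_le).trans ?_
    have := natDegree_X_le (R := ℂ)
    omega
  constructor
  · have h1 : adds (C a) (C b) ![A * X, A + X * B, B] 0 =
        (A * X) ^ 2 - (C (2 * a) * ((A * X) * B) + C (4 * b) * ((A + X * B) * B)
          - C (a ^ 2) * (B ^ 2)) := by
      simp only [adds, Matrix.cons_val_zero, Matrix.cons_val_one, Matrix.cons_val_two,
        Matrix.head_cons, Matrix.tail_cons, Matrix.cons_val, C_mul, C_pow]
      have e2 : (C (2 : ℂ) : ℂ[X]) = 2 := rfl
      have e4 : (C (4 : ℂ) : ℂ[X]) = 4 := rfl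
      rw [e2, e4]
      ring
    rw [h1, natDegree_sub_eq_left_of_natDegree_lt, hAX2]
    rw [hAX2]
    refine lt_of_le_of_lt (b := 2 * N) ?_ (by omega)
    refine (natDegree_sub_le_of_le (m := 2 * N) (n := 2 * N)
      (natDegree_add_le_of_degree_le ?_ ?_) ?_).trans (by simp)
    · refine (natDegree_C_mul_le _ _).trans (natDegree_mul_le.trans ?_)
      omega
    · refine (natDegree_C_mul_le _ _).trans (natDegree_mul_le.trans ?_)
      omega
    · refine (natDegree_C_mul_le _ _).trans ?_
      rw [natDegree_pow]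
      omega
  · have h1 : adds (C a) (C b) ![A * X, A + X * B, B] 1 =
        C 2 * ((A + X * B) * (A * X)) + C (2 * a) * ((A + X * B) * B) + C (4 * b) * (B ^ 2) := by
      simp only [adds, Matrix.cons_val_zero, Matrix.cons_val_one, Matrix.cons_val_two,
        Matrix.head_cons, Matrix.tail_cons, Matrix.cons_val, C_mul, C_pow]
      have e2 : (C (2 : ℂ) : ℂ[X]) = 2 := rfl
      have e4 : (C (4 : ℂ) : ℂ[X]) = 4 := rfl
      rw [e2, e4]
      ring
    rw [h1]
    refine lt_of_le_of_lt (b := 2 * N + 1) ?_ (by omega)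
    refine natDegree_add_le_of_degree_le (natDegree_add_le_of_degree_le ?_ ?_) ?_
    · refine (natDegree_C_mul_le _ _).trans (natDegree_mul_le.trans ?_)
      omega
    · refine (natDegree_C_mul_le _ _).trans (natDegree_mul_le.trans ?_)
      omega
    · refine (natDegree_C_mul_le _ _).trans ?_
      rw [natDegree_pow]
      omega

/-- the three values at a point -/
private theorem vals {a b : ℂ} {m : ℕ} {A B : ℂ[X]} (hg : Good a b (m + 1) A B)
    (x y : ℂ) (h : (EC a b).Nonsingular x y) :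
    ∃ k : ℂ, k ≠ 0 ∧ (fun i => (adds (C a) (C b) ![A * X, A + X * B, B] i).eval x) =
      k • Point.sym2x ((m + 2) • (Point.some x y h : (EC a b).Point))
        (m • (Point.some x y h : (EC a b).Point)) := by
  obtain ⟨-, -, -, hv⟩ := hg
  obtain ⟨c, hc, hc'⟩ := hv x y h
  set P : (EC a b).Point := Point.some x y h with hP
  obtain ⟨e, he, he'⟩ := add_sub ((m + 1) • P) P
  have h1 : (m + 1) • P + P = (m + 2) • P := by
    rw [← succ_nsmul]
  have h2 : (m + 1) • P - P = m • P := by
    rw [succ_nsmul, add_sub_cancel_right]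
  rw [h1, h2] at he'
  refine ⟨c ^ 2 * e, mul_ne_zero (pow_ne_zero 2 hc) he, ?_⟩
  rw [mul_smul, ← he', ← adds_smul]
  funext i
  rw [adds_eval]
  congr 1
  have hx : P.xRep = ![x, 1] := by rw [hP]; simp
  have hA : A.eval x = c * ((m + 1) • P).xRep 0 := by
    have := congrFun hc' 0
    simpa using this
  have hB : B.eval x = c * ((m + 1) • P).xRep 1 := by
    have := congrFun hc' 1
    simpa using this
  funext j
  simp only [Point.sym2x, hx]
  fin_cases j
  · simp [hA]; ring
  · simp [hA, hB]; ring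
  · simp [hB]

private theorem step {a b : ℂ} (hab : 4 * a ^ 3 + 27 * b ^ 2 ≠ 0) {m : ℕ} {p q A B : ℂ[X]}
    (h0 : Good a b m p q) (h1 : Good a b (m + 1) A B) :
    ∃ p' q' : ℂ[X], Good a b (m + 2) p' q' := by
  have hvals := fun x y h => vals h1 x y h
  obtain ⟨hU, hV⟩ := degs (a := a) (b := b) (N := (m + 1) ^ 2) (Nat.one_le_pow _ _ (by omega)) h1.2.1 h1.2.2.1
  generalize hUdef : adds (C a) (C b) ![A * X, A + X * B, B] = T at hU hV hvals
  obtain ⟨hcop, hdp, hdq, hpv⟩ := h0
  have hp0 : p ≠ 0 := by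
    intro h
    rw [h, degree_zero] at hdp
    exact absurd hdp WithBot.bot_ne_coe
  have hpn : p.natDegree = m ^ 2 := natDegree_eq_of_degree_eq_some hdp
  -- the relation
  have hrel : T 0 * q ^ 2 - T 1 * p * q + T 2 * p ^ 2 = 0 := by
    apply Polynomial.funext
    intro x
    obtain ⟨y, hy⟩ := nonsing_exists hab x
    obtain ⟨k, hk, hk'⟩ := hvals x y hy
    obtain ⟨d, hd, hd'⟩ := hpv x y hy
    have e0 := congrFun hk' 0
    have e1 := congrFun hk' 1
    have e2 := congrFun hk' 2
    have f0 := congrFun hd' 0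
    have f1 := congrFun hd' 1
    simp [Point.sym2x] at e0 e1 e2 f0 f1
    simp only [eval_add, eval_sub, eval_mul, eval_pow, eval_zero, e0, e1, e2, f0, f1]
    ring
  have hex : ∃ p' q' : ℂ[X], T 0 = p * p' ∧ T 1 = p * q' + q * p' ∧ T 2 = q * q' := by
    by_cases hq : q = 0
    · have hu : IsUnit p := by
        rw [hq] at hcop
        exact isCoprime_zero_right.mp hcop
      obtain ⟨r, hr⟩ := hu.exists_right_inv
      have hT2 : T 2 = 0 := by
        rw [hq] at hrel
        have : T 2 * p ^ 2 = 0 := by linear_combination hrel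
        rcases mul_eq_zero.mp this with h | h
        · exact h
        · exact absurd (pow_eq_zero_iff (two_ne_zero) |>.mp h) hp0
      refine ⟨r * T 0, r * T 1, ?_, ?_, ?_⟩
      · linear_combination (-T 0) * hr
      · rw [hq]; linear_combination (-T 1) * hr
      · rw [hq, hT2]; ring
    · have hd1 : p ∣ T 0 := by
        have h2 : p ∣ T 0 * q ^ 2 := ⟨T 1 * q - T 2 * p, by linear_combination hrel⟩
        exact (IsCoprime.pow_right hcop).dvd_of_dvd_mul_right h2
      have hd2 : q ∣ T 2 := by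
        have h2 : q ∣ T 2 * p ^ 2 := ⟨T 1 * p - T 0 * q, by linear_combination hrel⟩
        exact (IsCoprime.pow_right hcop.symm).dvd_of_dvd_mul_right h2
      obtain ⟨p', hp'⟩ := hd1
      obtain ⟨q', hq'⟩ := hd2
      refine ⟨p', q', hp', ?_, hq'⟩
      rw [hp', hq'] at hrel
      have h3 : (p * q) * (p' * q - T 1 + q' * p) = 0 := by linear_combination hrel
      rcases mul_eq_zero.mp h3 with h | h
      · exact absurd h (mul_ne_zero hp0 hq)
      · linear_combination -h
  obtain ⟨p', q', e0, e1, e2⟩ := hex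
  refine ⟨p', q', ?_, ?_, ?_, ?_⟩
  · rw [Polynomial.isCoprime_iff_aeval_ne_zero_of_isAlgClosed ℂ ℂ]
    intro x
    by_contra hcon
    push Not at hcon
    obtain ⟨c1, c2⟩ := hcon
    simp only [coe_aeval_eq_eval] at c1 c2
    obtain ⟨y, hy⟩ := nonsing_exists hab x
    obtain ⟨k, hk, hk'⟩ := hvals x y hy
    have hz : (fun i => (T i).eval x) = 0 := by
      funext i
      fin_cases i
      · simp [e0, c1]
      · simp [e1, c1, c2]
      · simp [e2, c2]
    rw [hz] at hk'
    exact absurd hk'.symm (smul_ne_zero hk (Point.sym2x_ne_zero _ _))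
  · have hT0 : T 0 ≠ 0 := by
      intro h
      rw [h] at hU
      simp at hU
    have hp'0 : p' ≠ 0 := by
      intro h
      rw [h, mul_zero] at e0
      exact hT0 e0
    rw [degree_eq_natDegree hp'0]
    congr 1
    rw [e0, natDegree_mul hp0 hp'0, hpn] at hU
    nlinarith [hU]
  · by_cases hq' : q' = 0
    · rw [hq', degree_zero]
      exact WithBot.bot_lt_coe _
    · rw [← natDegree_lt_iff_degree_lt hq']
      have hT0 : T 0 ≠ 0 := by
        intro h
        rw [h] at hU
        simp at hU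
      have hp'0 : p' ≠ 0 := by
        intro h
        rw [h, mul_zero] at e0
        exact hT0 e0
      have hp'n : m ^ 2 + p'.natDegree = 2 * (m + 1) ^ 2 + 2 := by
        rw [← hU, e0, natDegree_mul hp0 hp'0, hpn]
      have h3 : p * q' = T 1 - q * p' := by linear_combination -e1
      have h4 : (q * p').natDegree < 2 * (m + 1) ^ 2 + 2 := by
        by_cases hq0 : q = 0
        · rw [hq0, zero_mul, natDegree_zero]
          omega
        · rw [natDegree_mul hq0 hp'0, ← hp'n]
          have := (natDegree_lt_iff_degree_lt hq0).mpr hdq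
          omega
      have h5 : (p * q').natDegree < 2 * (m + 1) ^ 2 + 2 := by
        rw [h3]
        refine lt_of_le_of_lt (natDegree_sub_le _ _) ?_
        exact max_lt hV h4
      rw [natDegree_mul hp0 hq', hpn] at h5
      nlinarith [h5]
  · intro x y h
    obtain ⟨k, hk, hk'⟩ := hvals x y h
    obtain ⟨d, hd, hd'⟩ := hpv x y h
    refine ⟨k / d, div_ne_zero hk hd, ?_⟩
    have g0 := congrFun hk' 0
    have g1 := congrFun hk' 1
    have g2 := congrFun hk' 2
    have f0 := congrFun hd' 0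
    have f1 := congrFun hd' 1
    simp [Point.sym2x, e0, e1, e2] at g0 g1 g2 f0 f1
    rw [f0] at g0 g1
    rw [f1] at g1 g2
    have key : d * p'.eval x = k * ((m + 2) • (Point.some x y h : (EC a b).Point)).xRep 0 ∧
        d * q'.eval x = k * ((m + 2) • (Point.some x y h : (EC a b).Point)).xRep 1 := by
      generalize (m + 2) • (Point.some x y h : (EC a b).Point) = Q at g0 g1 g2 ⊢
      generalize m • (Point.some x y h : (EC a b).Point) = R at g0 g1 g2
      cases R with
      | zero =>
        have hz : (Point.zero : (EC a b).Point).xRep = ![1, 0] := rfl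
        rw [hz] at g0 g1 g2
        simp only [Matrix.cons_val_zero, Matrix.cons_val_one, mul_one, mul_zero, zero_mul, add_zero,
          zero_add] at g0 g1 g2
        constructor
        · linear_combination g0
        · linear_combination g1
      | some t s hts =>
        rw [Point.xRep_some] at g0 g1 g2
        simp only [Matrix.cons_val_zero, Matrix.cons_val_one, mul_one, mul_zero, zero_mul, add_zero,
          zero_add] at g0 g1 g2
        have g3 : d * q'.eval x = k * Q.xRep 1 := by linear_combination g2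
        refine ⟨?_, g3⟩
        linear_combination g1 - t * g3
    obtain ⟨k1, k2⟩ := key
    funext i
    fin_cases i
    · simp
      field_simp
      linear_combination k1
    · simp
      field_simp
      linear_combination k2

private theorem both {a b : ℂ} (hab : 4 * a ^ 3 + 27 * b ^ 2 ≠ 0) (n : ℕ) :
    (∃ A B, Good a b n A B) ∧ ∃ A B, Good a b (n + 1) A B := by
  induction n with
  | zero => exact ⟨⟨1, 0, good_zero a b⟩, ⟨X, 1, good_one a b⟩⟩
  | succ n ih =>
    obtain ⟨⟨p, q, h0⟩, ⟨A, B, h1⟩⟩ := ih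
    exact ⟨⟨A, B, h1⟩, step hab h0 h1⟩

/-- ND-21 -/
theorem mul_x {a b : ℂ} (hab : 4 * a ^ 3 + 27 * b ^ 2 ≠ 0) (n : ℕ) :
    ∃ A B : ℂ[X], IsCoprime A B ∧ A.natDegree = n ^ 2 ∧ (1 ≤ n → B.natDegree ≤ n ^ 2 - 1) ∧
      ∀ (x y : ℂ) (h : (EC a b).Nonsingular x y), ∃ c : ℂ, c ≠ 0 ∧
        ![A.eval x, B.eval x] = c • Point.xRep (n • (Point.some x y h : (EC a b).Point)) := by
  obtain ⟨⟨A, B, h1, h2, h3, h4⟩, -⟩ := both hab n
  refine ⟨A, B, h1, natDegree_eq_of_degree_eq_some h2, ?_, h4⟩
  intro hn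
  have hn2 : 1 ≤ n ^ 2 := Nat.one_le_pow _ _ hn
  by_cases hB : B = 0
  · simp [hB]
  · have := (natDegree_lt_iff_degree_lt hB).mpr h3
    omega

end Pool.Agent.Helper19.ND
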