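import Pool.Agent.Helper19.ND.Basic

/-!
# Rational curves of degree `d` in the plane
-/

set_option autoImplicit false

open Polynomial
open scoped LinearAlgebra.Projectivization

namespace Pool.Agent.Helper19.ND

/-- The image of `ℙ¹` in `ℙ²` under `(t : 1) ↦ (φ 0 (t) : φ 1 (t) : φ 2 (t))`, where the `φ i` are
dehomogenised forms of degree `d`; the point `(1 : 0)` is mapped to the coefficients of `X^d`. -/
def image (d : ℕ) (φ : Fin 3 → ℂ[X]) : Set (ℙ ℂ (Fin 3 → ℂ)) :=
  {P | ∃ (v : Fin 3 → ℂ) (hv : v ≠ 0), P = Projectivization.mk ℂ v hv ∧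
    ((∃ t : ℂ, v = fun i => (φ i).eval t) ∨ v = fun i => (φ i).coeff d)}

/-- `K` is a rational plane curve of degree `d`: the image of `ℙ¹` under a map given by three forms
of degree `d` without common zero, which is injective outside a finite set. -/
def IsRationalCurve (d : ℕ) (K : Set (ℙ ℂ (Fin 3 → ℂ))) : Prop :=
  ∃ φ : Fin 3 → ℂ[X], (∀ i, (φ i).natDegree ≤ d) ∧
    (∀ t : ℂ, (fun i => (φ i).eval t) ≠ 0) ∧ (fun i => (φ i).coeff d) ≠ 0 ∧
    K = image d φ ∧
    {t : ℂ | ∃ t' : ℂ, t' ≠ t ∧ ∃ c : ℂ, ∀ i, (φ i).eval t' = c * (φ i).eval t}.Finite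

/-- the plane cubic `y² z = x³ + a x z² + b z³` -/
def cubic (a b : ℂ) : Set (ℙ ℂ (Fin 3 → ℂ)) := {P | cub a b P.rep = 0}

/-- the number of rational curves of degree `d` which meet the cubic in exactly one point -/
noncomputable def numCurves (a b : ℂ) (d : ℕ) : ℕ∞ :=
  {K | IsRationalCurve d K ∧ ∃ P, K ∩ cubic a b = {P}}.encard

/-- the parametrisation of a section composed with a matrix -/
noncomputable def parM {a b : ℂ} {n : ℕ} (M : Matrix (Fin 3) (Fin 3) ℂ) (S : Sect a b n) :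
    Fin 3 → ℂ[X] := fun i => ∑ j, C (M i j) * S.par j

theorem parM_eval {a b : ℂ} {n : ℕ} (M : Matrix (Fin 3) (Fin 3) ℂ) (S : Sect a b n) (t : ℂ) :
    (fun i => (parM M S i).eval t) = M.mulVec (S.at' t) := by
  funext i
  simp [parM, Matrix.mulVec, dotProduct, Sect.at', eval_finsetSum]

end Pool.Agent.Helper19.ND
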