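import Pool.Agent.Helper19.ND.Tors3
import Pool.Agent.Helper19.ND.LMinv

/-!
# ND-17: `Mt T` acts on the cubic as `P ↦ P - T`

PROOF. `T = 0` is trivial. Let `T = (x₀, y₀)`, `m = (3 x₀² + a)/(2 y₀)`; by ND-06 (a)
`FlexData a b m y₀`, `x₀ = m²/3`. With `s = x - x₀`, `g = m s + y₀` one has on the cubic
`(y - g)(y + g) = s³`. `-T = (x₀, -y₀)`.
* `P = 0`: `L (0, 1, 0) = (x₀/(2 y₀), -1/2, 1/(2 y₀)) = (1/(2 y₀)) (x₀, -y₀, 1)`.
* `P = T`: `A = 0`: `L (x₀, y₀, 1) = (0, -2 y₀, 0)`, and `P - T = 0`.
* `P = -T`: `P - T = -2 T = T`; `A = -2 y₀`, `L (x₀, -y₀, 1) = (-x₀, -y₀, -1) = - (x₀, y₀, 1)`.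
* `x ≠ x₀`: `L (x, y, 1) = (s + x₀ z', -y - y₀ + (y - g)/2, z')`, `z' = (y - g)/(2 y₀) ≠ 0` (as
  `(y - g)(y + g) = s³ ≠ 0`). `P + (-T)` has slope `ℓ = (y + y₀)/s`, `x`-coordinate
  `x₃ = ℓ² - x - x₀` and `y`-coordinate `-(ℓ (x₃ - x) + y)`. Check `x₃ = x₀ + 2 y₀ (y + g)/s² =
  x₀ + s/z'` and the same for `y`: use `y² = s³ + g²` and clear denominators; `c = z'`.
-/

set_option autoImplicit false

open WeierstrassCurve WeierstrassCurve.Affine

namespace Pool.Agent.Helper19.ND

private theorem vec_ext {v w : Fin 3 → ℂ} (h0 : v 0 = w 0) (h1 : v 1 = w 1) (h2 : v 2 = w 2) :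
    v = w := by
  funext i
  fin_cases i
  · exact h0
  · exact h1
  · exact h2

private theorem eqn {a b x y : ℂ} (h : (EC a b).Nonsingular x y) :
    y ^ 2 = x ^ 3 + a * x + b := by
  have h1 := (equation_iff _ _).1 h.1
  simp only at h1
  linear_combination h1

private theorem negY_eq {a b x y : ℂ} : (EC a b).negY x y = -y := by
  rw [negY]
  ring

private theorem rep_some {a b x y : ℂ} (h : (EC a b).Nonsingular x y) :
    rep (Point.some x y h) = ![x, y, 1] := rfl

private theorem LM_apply (m x₀ y₀ x y z : ℂ) : (LM m x₀ y₀).mulVec ![x, y, z] =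
    ![(1 - x₀ * m / (2 * y₀)) * x + x₀ / (2 * y₀) * y +
        (-x₀ + x₀ * (m * x₀ - y₀) / (2 * y₀)) * z,
      -m / 2 * x + -1 / 2 * y + (-y₀ + (m * x₀ - y₀) / 2) * z,
      -m / (2 * y₀) * x + 1 / (2 * y₀) * y + (m * x₀ - y₀) / (2 * y₀) * z] := by
  apply vec_ext <;> simp [LM, Matrix.mulVec, dotProduct, Fin.sum_univ_three]

/-- ND-17 -/
theorem Mt_rep {a b : ℂ} {T : (EC a b).Point} (hT : 3 • T = 0) (P : (EC a b).Point) :
    ∃ c : ℂ, c ≠ 0 ∧ (Mt T).mulVec (rep P) = c • rep (P - T) := by
  rcases T with _ | ⟨x₀, y₀, h₀⟩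
  · refine ⟨1, one_ne_zero, ?_⟩
    have h1 : P - (Point.zero : (EC a b).Point) = P := sub_zero P
    rw [h1, one_smul]
    simp [Mt]
  · obtain ⟨hF, hx⟩ := flexData_of_tors h₀ hT
    have hy := hF.hy
    obtain ⟨m, hm⟩ : ∃ m : ℂ, m = (3 * x₀ ^ 2 + a) / (2 * y₀) := ⟨_, rfl⟩
    have hMt : Mt (Point.some x₀ y₀ h₀ : (EC a b).Point) = LM m x₀ y₀ := by rw [hm]; rfl
    rw [← hm] at hF hx
    rw [hMt]
    have ha := hF.ha
    have hb := hF.hb
    have hn : -(Point.some x₀ y₀ h₀ : (EC a b).Point) =
      Point.some x₀ ((EC a b).negY x₀ y₀) ((nonsingular_neg _ _).2 h₀) := rfl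
    rcases P with _ | ⟨x, y, h⟩
    · refine ⟨1 / (2 * y₀), by simpa using hy, ?_⟩
      have h1 : (Point.zero : (EC a b).Point) - Point.some x₀ y₀ h₀ = -Point.some x₀ y₀ h₀ :=
        zero_sub _
      rw [h1, hn, rep_some, negY_eq]
      change (LM m x₀ y₀).mulVec ![0, 1, 0] = _
      rw [LM_apply]
      apply vec_ext
      · simp
        field_simp
      · simp
        field_simp
      · simp
    · have he := eqn h
      have he₀ := eqn h₀
      rw [rep_some, LM_apply]
      by_cases hxx : x = x₀
      · subst hxx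
        have h2 : (y - y₀) * (y + y₀) = 0 := by linear_combination he - he₀
        rcases mul_eq_zero.1 h2 with h3 | h3
        · have h4 : y = y₀ := sub_eq_zero.1 h3
          subst h4
          refine ⟨-2 * y, by simpa using hy, ?_⟩
          rw [sub_self]
          change _ = (-2 * y) • ![0, 1, 0]
          apply vec_ext
          · simp
            field_simp
            ring
          · simp
            ring
          · simp
            field_simp
            ring
        · have h4 : y = -y₀ := eq_neg_of_add_eq_zero_left h3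
          subst h4
          refine ⟨-1, by simp, ?_⟩
          have h5 : (Point.some x (-y₀) h : (EC a b).Point) = -Point.some x y₀ h₀ := by
            rw [hn, Point.some.injEq]
            exact ⟨rfl, negY_eq.symm⟩
          have h6 : (Point.some x (-y₀) h : (EC a b).Point) - Point.some x y₀ h₀ =
              Point.some x y₀ h₀ := by
            rw [h5]
            have h7 : 3 • (Point.some x y₀ h₀ : (EC a b).Point) = Point.some x y₀ h₀ +
              Point.some x y₀ h₀ + Point.some x y₀ h₀ := by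
              rw [show (3 : ℕ) = 2 + 1 from rfl, add_smul, two_smul, one_smul]
            rw [h7] at hT
            rw [sub_eq_iff_eq_add, eq_comm]
            exact (eq_neg_of_add_eq_zero_left hT)
          rw [h6, rep_some]
          apply vec_ext
          · simp
            field_simp
            ring
          · simp
            field_simp
            ring
          · simp
            field_simp
            ring
      · have hs : x - x₀ ≠ 0 := sub_ne_zero.2 hxx
        have h1 := Point.add_of_X_ne (h₁ := h) (h₂ := (nonsingular_neg (W' := EC a b) x₀ y₀).2 h₀) hxx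
        have hsl : (EC a b).slope x x₀ y ((EC a b).negY x₀ y₀) = (y + y₀) / (x - x₀) := by
          rw [slope_of_X_ne hxx, negY_eq, sub_neg_eq_add]
        have hX : (EC a b).addX x x₀ ((EC a b).slope x x₀ y ((EC a b).negY x₀ y₀)) =
            ((y + y₀) / (x - x₀)) ^ 2 - x - x₀ := by
          rw [hsl, addX]
          ring
        have hY : (EC a b).addY x x₀ y ((EC a b).slope x x₀ y ((EC a b).negY x₀ y₀)) =
            -((y + y₀) / (x - x₀) * (((y + y₀) / (x - x₀)) ^ 2 - x - x₀ - x) + y) := by
          rw [addY, negAddY, hX, hsl, negY_eq]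
        have hrep : rep ((Point.some x y h : (EC a b).Point) - Point.some x₀ y₀ h₀) =
            ![((y + y₀) / (x - x₀)) ^ 2 - x - x₀,
              -((y + y₀) / (x - x₀) * (((y + y₀) / (x - x₀)) ^ 2 - x - x₀ - x) + y), 1] := by
          rw [sub_eq_add_neg, hn, h1, rep_some, hX, hY]
        have hprod : (y - (m * (x - x₀) + y₀)) * (y + (m * (x - x₀) + y₀)) = (x - x₀) ^ 3 := by
          rw [ha, hb] at he
          rw [hx]
          linear_combination he
        have hz : y - (m * (x - x₀) + y₀) ≠ 0 := by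
          intro h0
          rw [h0, zero_mul] at hprod
          exact hs (pow_eq_zero_iff (by norm_num)|>.1 hprod.symm)
        refine ⟨(y - (m * (x - x₀) + y₀)) / (2 * y₀), div_ne_zero hz (by simpa using hy), ?_⟩
        rw [hrep]
        obtain ⟨L, hLd⟩ : ∃ L : ℂ, L = (y + y₀) / (x - x₀) := ⟨_, rfl⟩
        obtain ⟨Z, hZd⟩ : ∃ Z : ℂ, Z = (y - (m * (x - x₀) + y₀)) / (2 * y₀) := ⟨_, rfl⟩
        rw [← hLd, ← hZd]
        have hL : L * (x - x₀) = y + y₀ := by rw [hLd]; field_simp
        have hZ : 2 * y₀ * Z = y - (m * (x - x₀) + y₀) := by rw [hZd]; field_simp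
        have h1' : Z * (L ^ 2 - x - x₀) = (x - x₀) + x₀ * Z := by
          rw [hLd, hZd]
          field_simp
          linear_combination (2 * y₀ + (y - (m * (x - x₀) + y₀))) * hprod -
            3 * (y - (m * (x - x₀) + y₀)) * (x - x₀) ^ 2 * hx
        apply vec_ext
        · simp only [Matrix.cons_val_zero, Pi.smul_apply, smul_eq_mul]
          rw [h1', hZd]
          field_simp
          ring
        · simp only [Matrix.cons_val_one, Matrix.cons_val_zero, Pi.smul_apply, smul_eq_mul]
          linear_combination L * h1' + (1 - Z) * hL - (1 / 2) * hZ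
        · simp only [Matrix.cons_val, Pi.smul_apply, smul_eq_mul]
          rw [hZd]
          field_simp
          ring

end Pool.Agent.Helper19.ND
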